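import Pool.Agent.Lib.MP_0d9445_pr.Mu.Reg

/-! Almost sure regularity of the measure of the layered field, and the outputs of module MU. -/

open MeasureTheory ProbabilityTheory Filter Topology Set Real
open scoped ENNReal NNReal

namespace Pool.Agent.Lib.MP_0d9445_pr.Mu

open CR

variable {γ p : ℝ}

theorem Ok.mu_add_eq_zero {H : Field} (h : Ok γ H) (f : Fn) (A : Set ℂ) :
    mu γ (addFn H f) A = 0 ↔ mu γ H A = 0 := by
  rw [h.mu_add]
  have hm : Measurable fun z => ENNReal.ofReal (exp (γ * f z)) :=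
    (f.continuous.measurable.const_mul γ).exp.ennreal_ofReal
  exact ⟨fun h0 => withDensity_absolutelyContinuous' hm.aemeasurable
    (Eventually.of_forall fun z => (ENNReal.ofReal_pos.2 (exp_pos _)).ne') h0,
    fun h0 => withDensity_absolutelyContinuous _ _ h0⟩

theorem sc_eq_exp (n : ℕ) : sc n = exp (-((n : ℝ) * log 2)) := (exp_neg_log_two n).symm

theorem ae_frequently_of_tendsto {Ω : Type*} [MeasurableSpace Ω] {P : Measure Ω} {s : ℕ → Set Ω}
    (h : Tendsto (fun k => P (s k)) atTop (𝓝 0)) : ∀ᵐ ω ∂P, ∃ᶠ k in atTop, ω ∉ s k := by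
  simp only [frequently_atTop]
  rw [ae_all_iff]
  intro a
  rw [ae_iff]
  refine le_antisymm (ge_of_tendsto h ?_) zero_le
  filter_upwards [eventually_ge_atTop a] with k hk
  refine measure_mono fun ω hω => ?_
  by_contra hc
  exact hω ⟨k, hk, hc⟩

variable (L : Layers)

theorem measure_ball_mem (hγ : γ ≠ 0) (h0 : ∀ᵐ ω ∂L.P, Ok γ (L.H 0 ω)) (n : ℕ) (y : ℂ) (ρ : ℝ)
    {S : Set ℝ≥0∞} (hS : MeasurableSet S) :
    L.P {ω | mu γ (L.H n ω) (Metric.ball y (ρ * sc n)) ∈ S} =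
      L.P {ω | ENNReal.ofReal (exp (-((2 + γ ^ 2 / 2) * (n * log 2)))) *
        mu γ (L.H 0 ω) (Metric.ball 0 ρ) ∈ S} := by
  have h := lintegral_mu_image L hγ h0 n 0 y (A := Metric.ball 0 ρ) measurableSet_ball
    (F := S.indicator 1) (measurable_one.indicator hS)
  rw [image_ball] at h
  have m1 : Measurable fun ω => mu γ (L.H n ω) (Metric.ball y (ρ * sc n)) :=
    ((Measure.measurable_coe measurableSet_ball).comp (measurable_mu γ)).comp (L.meas_H n)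
  have m2 : Measurable fun ω => ENNReal.ofReal (exp (-((2 + γ ^ 2 / 2) * (n * log 2)))) *
      mu γ (L.H 0 ω) (Metric.ball 0 ρ) :=
    (((Measure.measurable_coe measurableSet_ball).comp (measurable_mu γ)).comp
      (L.meas_H 0)).const_mul _
  exact (lintegral_indicator_one (m1 hS)).symm.trans (h.trans (lintegral_indicator_one (m2 hS)))

theorem measure_ball_zero (hγ : γ ≠ 0) (h0 : ∀ᵐ ω ∂L.P, Ok γ (L.H 0 ω)) (n : ℕ) (y : ℂ) :
    L.P {ω | mu γ (L.H n ω) (Metric.ball y (sc n)) = 0} =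
      L.P {ω | mu γ (L.H 0 ω) (Metric.ball 0 1) = 0} := by
  have := measure_ball_mem L hγ h0 n y 1 (measurableSet_singleton 0)
  simpa only [one_mul, mem_singleton_iff, mul_eq_zero, (ENNReal.ofReal_pos.2 (exp_pos _)).ne',
    false_or] using this

theorem measure_unit_ball_zero (hγ : 0 < γ) (hp : 1 < p) (h2 : p ≤ 2)
    (hz : 2 < p * (2 + γ ^ 2 / 2) - (p * γ) ^ 2 / 2) (h0 : ∀ᵐ ω ∂L.P, Ok γ (L.H 0 ω)) :
    L.P {ω | mu γ (L.H 0 ω) (Metric.ball 0 1) = 0} = 0 := by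
  set q := L.P {ω | mu γ (L.H 0 ω) (Metric.ball 0 1) = 0} with hq
  have hs : sc 2 = 1 / 4 := by norm_num [sc]
  have key : ∀ y : ℂ, ∃ E : Set L.Ω,
      MeasurableSet[sigmaOn (L.H (2 : ℕ)) (Metric.ball y (sc 2))] E ∧ L.P E = q ∧
      ∀ᵐ ω ∂L.P, mu γ (L.H 0 ω) (Metric.ball y (sc 2)) = 0 → ω ∈ E := by
    intro y
    obtain ⟨F, hF, hF'⟩ := exists_local γ (Metric.isOpen_ball (x := y) (ε := sc 2))
    have hae : ∀ᵐ ω ∂L.P,
        F (L.H (2 : ℕ) ω) univ = mu γ (L.H (2 : ℕ) ω) (Metric.ball y (sc 2)) := by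
      filter_upwards [ae_ok L h0 (2 : ℕ)] with ω h
      rw [hF' _ _ h, Measure.restrict_apply_univ]
    refine ⟨{ω | F (L.H (2 : ℕ) ω) univ = 0}, ?_, ?_, ?_⟩
    · exact (((Measure.measurable_coe MeasurableSet.univ).comp hF).comp
        (measurable_sigmaOn _ _)) (measurableSet_singleton 0)
    · rw [hq, ← measure_ball_zero L hγ.ne' h0 2 y]
      refine measure_congr ?_
      filter_upwards [hae] with ω h
      exact congrArg (· = 0) h
    · filter_upwards [hae, ae_ok L h0 (2 : ℕ), ae_H_zero L 2] with ω h h1 h3 h4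
      rw [h3, h1.mu_add_eq_zero] at h4
      exact h.trans h4
  obtain ⟨E₁, m₁, p₁, a₁⟩ := key (1 / 2)
  obtain ⟨E₂, m₂, p₂, a₂⟩ := key (-(1 / 2))
  have hn : ‖(1 / 2 : ℂ)‖ = 1 / 2 := by simp
  have hind := indep_two L (2 : ℕ) (A := Metric.ball (1 / 2) (sc 2))
    (B := Metric.ball (-(1 / 2)) (sc 2)) (fun x hx y hy => by
      rw [← sc_eq, hs]
      rw [mem_ball_iff_norm, hs] at hx hy
      have e : (1 : ℂ) = (x - y) - (x - 1 / 2) + (y - -(1 / 2)) := by ring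
      have a1 := norm_add_le ((x - y) - (x - 1 / 2)) (y - -(1 / 2))
      have a2 := norm_sub_le (x - y) (x - 1 / 2)
      rw [← e, norm_one] at a1
      linarith)
  have hqq : q ≤ q * q := by
    have := (Indep_iff _ _ _).1 hind E₁ E₂ m₁ m₂
    rw [p₁, p₂] at this
    rw [← this]
    refine measure_mono_ae ?_
    filter_upwards [a₁, a₂] with ω h1 h3 h
    have h : mu γ (L.H 0 ω) (Metric.ball 0 1) = 0 := h
    refine ⟨h1 (measure_mono_null (Metric.ball_subset ?_) h),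
      h3 (measure_mono_null (Metric.ball_subset ?_) h)⟩
    · rw [hs, dist_zero_right, hn]; norm_num
    · rw [hs, dist_zero_right, norm_neg, hn]; norm_num
  by_contra hq0
  have hq1 : q = 1 := by
    refine le_antisymm prob_le_one ?_
    have : q * 1 ≤ q * q := by rwa [mul_one]
    exact (ENNReal.mul_le_mul_iff_right hq0 (measure_ne_top _ _)).1 this
  have mm : Measurable fun ω => mu γ (L.H 0 ω) (Metric.ball 0 1) :=
    ((Measure.measurable_coe measurableSet_ball).comp (measurable_mu γ)).comp (L.meas_H 0)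
  obtain ⟨c, hc, hmean⟩ := exists_mean L hγ hp h2 hz h0
  have h1 : ∀ᵐ ω ∂L.P, mu γ (L.H 0 ω) (Metric.ball 0 1) = 0 :=
    (mem_ae_iff_prob_eq_one (mm (measurableSet_singleton 0))).2 hq1
  have h3 := hmean _ (measurableSet_ball (x := 0) (ε := 1))
  rw [lintegral_congr_ae h1, lintegral_zero] at h3
  exact mul_ne_zero (by exact_mod_cast hc.ne')
    (Metric.measure_ball_pos volume (0 : ℂ) one_pos).ne' h3.symm

theorem ae_pos (hγ : 0 < γ) (hp : 1 < p) (h2 : p ≤ 2)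
    (hz : 2 < p * (2 + γ ^ 2 / 2) - (p * γ) ^ 2 / 2) (h0 : ∀ᵐ ω ∂L.P, Ok γ (L.H 0 ω)) (n : ℕ)
    (y : ℂ) : ∀ᵐ ω ∂L.P, mu γ (L.H 0 ω) (Metric.ball y (sc n)) ≠ 0 := by
  have h := (measure_ball_zero L hγ.ne' h0 n y).trans (measure_unit_ball_zero L hγ hp h2 hz h0)
  filter_upwards [measure_eq_zero_iff_ae_notMem.1 h, ae_ok L h0 n, ae_H_zero L n] with ω h1 h3 h4
  rw [h4, Ne, h3.mu_add_eq_zero]
  exact h1

theorem mem_nbh_of_norm_le {n R : ℕ} {v : ℤ × ℤ} (h : ‖ctr n v‖ ≤ R) :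
    v ∈ nbh ((R + 1) * 2 ^ n) 0 := by
  have hs := sc_pos n
  have e : sc n * 2 ^ n = 1 := by simp [sc]
  have h2 : (1 : ℝ) ≤ 2 ^ n := one_le_pow₀ one_le_two
  have key : ∀ a : ℤ, |sc n * (a + 1 / 2)| ≤ R →
      -(((R + 1) * 2 ^ n : ℕ) : ℤ) ≤ a ∧ a ≤ (((R + 1) * 2 ^ n : ℕ) : ℤ) := by
    intro a ha
    have h1 : |(a : ℝ) + 1 / 2| ≤ R * 2 ^ n := by
      rw [abs_mul, abs_of_pos hs] at ha
      calc |(a : ℝ) + 1 / 2| = sc n * |(a : ℝ) + 1 / 2| * 2 ^ n := by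
            rw [mul_right_comm, e, one_mul]
        _ ≤ R * 2 ^ n := by gcongr
    have h3 := abs_le.1 h1
    constructor <;> rw [← Int.cast_le (R := ℝ)] <;> push_cast <;> linarith [h3.1, h3.2]
  simp only [nbh, Prod.fst_zero, Prod.snd_zero, zero_sub, zero_add, Finset.mem_product,
    Finset.mem_Icc]
  exact ⟨key _ ((Complex.abs_re_le_norm (ctr n v)).trans h),
    key _ ((Complex.abs_im_le_norm (ctr n v)).trans h)⟩

theorem ae_up (hγ : 0 < γ) (hp : 0 < p) (h2 : p ≤ 2) {α : ℝ} (hα : 0 ≤ α)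
    (hz : 2 + α * p < p * (2 + γ ^ 2 / 2) - (p * γ) ^ 2 / 2) (h0 : ∀ᵐ ω ∂L.P, Ok γ (L.H 0 ω))
    (R : ℕ) : ∀ᵐ ω ∂L.P, ∃ C : ℕ, ∀ n v, ‖ctr n v‖ ≤ R →
      mu γ (L.H 0 ω) (Metric.ball (ctr n v) (2 * sc n)) ≤ ENNReal.ofReal (C * sc n ^ α) := by
  obtain ⟨C, hC, h⟩ := exists_ball_rpow L hγ hp h2 (by nlinarith [mul_nonneg hα hp.le]) h0
    zero_le_two
  set ζ := p * (2 + γ ^ 2 / 2) - (p * γ) ^ 2 / 2 with hζ
  let X : ℕ → ℤ × ℤ → L.Ω → ℝ≥0∞ := fun n v ω => (ENNReal.ofReal (exp (α * (n * log 2))) *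
    mu γ (L.H 0 ω) (Metric.ball (ctr n v) (2 * sc n))) ^ p
  have mX : ∀ n v, Measurable (X n v) := fun n v =>
    ((((Measure.measurable_coe measurableSet_ball).comp (measurable_mu γ)).comp
      (L.meas_H 0)).const_mul _).pow_const _
  have mS : ∀ n, Measurable fun ω => ∑ v ∈ nbh ((R + 1) * 2 ^ n) 0, X n v ω :=
    fun n => Finset.measurable_sum _ fun v _ => mX n v
  set r := exp ((2 + α * p - ζ) * log 2) with hr
  have hr1 : r < 1 := by
    rw [hr, exp_lt_one_iff]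
    exact mul_neg_of_neg_of_pos (by linarith) (log_pos one_lt_two)
  have hX : ∀ n v, ∫⁻ ω, X n v ω ∂L.P ≤
      C * ENNReal.ofReal (exp ((α * p - ζ) * (n * log 2))) := by
    intro n v
    have mm : Measurable fun ω => mu γ (L.H 0 ω) (Metric.ball (ctr n v) (2 * sc n)) ^ p :=
      (((Measure.measurable_coe measurableSet_ball).comp (measurable_mu γ)).comp
        (L.meas_H 0)).pow_const _
    simp only [X, ENNReal.mul_rpow_of_nonneg _ _ hp.le, ofReal_exp_rpow _ hp.le]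
    rw [lintegral_const_mul _ mm]
    refine (mul_le_mul' le_rfl (h n _)).trans_eq ?_
    rw [mul_left_comm, ← ENNReal.ofReal_mul (exp_pos _).le, ← exp_add]
    congr 3; ring
  have hn : ∀ n, ∫⁻ ω, ∑ v ∈ nbh ((R + 1) * 2 ^ n) 0, X n v ω ∂L.P ≤
      C * ENNReal.ofReal ((3 * (R + 1)) ^ 2) * ENNReal.ofReal r ^ n := by
    intro n
    rw [lintegral_finsetSum _ fun v _ => mX n v]
    refine (Finset.sum_le_sum fun v _ => hX n v).trans ?_
    rw [Finset.sum_const, card_nbh, nsmul_eq_mul, mul_left_comm, mul_assoc,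
      ← ENNReal.ofReal_pow (exp_pos _).le, ← ENNReal.ofReal_mul (by positivity),
      ← ENNReal.ofReal_natCast, ← ENNReal.ofReal_mul (by positivity)]
    refine mul_le_mul' le_rfl (ENNReal.ofReal_le_ofReal ?_)
    have e1 : exp ((2 + α * p - ζ) * log 2) ^ n =
        (2 ^ n) ^ 2 * exp ((α * p - ζ) * (n * log 2)) := by
      have : ((2 : ℝ) ^ n) ^ 2 = exp (2 * (n * log 2)) := by
        rw [show 2 * (n * log 2) = ((n * 2 : ℕ) : ℝ) * log 2 by push_cast; ring, exp_nat_mul,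
          exp_log two_pos, pow_mul]
      rw [this, ← exp_nat_mul, ← exp_add]
      congr 1; ring
    rw [e1, ← mul_assoc ((3 * ((R : ℝ) + 1)) ^ 2), ← mul_pow]
    have h3 : (1 : ℝ) ≤ 2 ^ n := one_le_pow₀ one_le_two
    have h4 : (0 : ℝ) ≤ R := Nat.cast_nonneg _
    push_cast
    gcongr
    nlinarith
  have hfin : ∫⁻ ω, ∑' n, ∑ v ∈ nbh ((R + 1) * 2 ^ n) 0, X n v ω ∂L.P ≠ ∞ := by
    rw [lintegral_tsum fun n => (mS n).aemeasurable]
    refine ne_top_of_le_ne_top ?_ (ENNReal.tsum_le_tsum hn)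
    rw [ENNReal.tsum_mul_left, ENNReal.tsum_geometric]
    refine ENNReal.mul_ne_top (ENNReal.mul_ne_top hC.ne ENNReal.ofReal_ne_top) ?_
    rw [ENNReal.inv_ne_top]
    exact (tsub_pos_of_lt (ENNReal.ofReal_lt_one.2 hr1)).ne'
  filter_upwards [ae_lt_top (Measurable.tsum mS) hfin] with ω hω
  obtain ⟨N, hN⟩ := ENNReal.exists_nat_gt (ENNReal.rpow_ne_top_of_nonneg (inv_nonneg.2 hp.le) hω.ne)
  refine ⟨N, fun n v hv => ?_⟩
  have a1 : X n v ω ≤ ∑' n, ∑ v ∈ nbh ((R + 1) * 2 ^ n) 0, X n v ω :=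
    (Finset.single_le_sum (f := fun v => X n v ω) (fun _ _ => zero_le)
      (mem_nbh_of_norm_le hv)).trans (ENNReal.le_tsum (f := fun n =>
        ∑ v ∈ nbh ((R + 1) * 2 ^ n) 0, X n v ω) n)
  have a2 := ((ENNReal.le_rpow_inv_iff hp).2 a1).trans hN.le
  have a3 := mul_le_mul' (le_refl (ENNReal.ofReal (exp (-(α * (n * log 2)))))) a2
  rw [← mul_assoc, ← ENNReal.ofReal_mul (exp_pos _).le, ← exp_add, neg_add_cancel, exp_zero,
    ENNReal.ofReal_one, one_mul] at a3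
  refine a3.trans_eq ?_
  rw [sc_eq_exp, ← exp_mul, ENNReal.ofReal_mul (Nat.cast_nonneg _), ENNReal.ofReal_natCast,
    mul_comm]
  congr 3; ring

theorem ae_low (hγ : 0 < γ) (hp : 1 < p) (h2 : p ≤ 2)
    (hz : 2 < p * (2 + γ ^ 2 / 2) - (p * γ) ^ 2 / 2) (h0 : ∀ᵐ ω ∂L.P, Ok γ (L.H 0 ω)) :
    ∃ β : ℕ, ∀ᵐ ω ∂L.P, ∀ᵐ y : ℂ, ∃ᶠ k in atTop, ENNReal.ofReal (sc k ^ β) ≤
      mu γ (L.H 0 ω) (Metric.ball (ctr k (idx k y)) (sc k)) := by
  obtain ⟨β, hβ⟩ := exists_nat_ge (3 + γ ^ 2 / 2 + γ)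
  obtain ⟨K, hK⟩ := exists_UU L (σ := -1) (s := 1) (ρ := 1) (by norm_num) zero_le_one zero_le_one
  have hl : 0 < log 2 := log_pos one_lt_two
  have mm : Measurable fun ω => mu γ (L.H 0 ω) := (measurable_mu γ).comp (L.meas_H 0)
  have m1 : Measurable fun ω => mu γ (L.H 0 ω) (Metric.ball 0 1) :=
    (Measure.measurable_coe measurableSet_ball).comp mm
  refine ⟨β, ?_⟩
  refine (Measure.ae_ae_comm (p := fun ω y => ∃ᶠ k in atTop, ENNReal.ofReal (sc k ^ β) ≤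
      mu γ (L.H 0 ω) (Metric.ball (ctr k (idx k y)) (sc k)))
    ((mm.prodMap measurable_id) (measurableSet_low β))).2 (Eventually.of_forall fun y => ?_)
  have t1 : Tendsto (fun k : ℕ => ENNReal.ofReal (exp (K - k * (log 2 / 2)))) atTop (𝓝 0) := by
    have := ENNReal.tendsto_ofReal (tendsto_exp_atBot.comp (tendsto_atBot_add_const_left atTop K
      (tendsto_neg_atTop_atBot.comp (tendsto_natCast_atTop_atTop.atTop_mul_const (half_pos hl)))))
    simpa only [ENNReal.ofReal_zero, Function.comp_def, sub_eq_add_neg] using this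
  have t2 : Tendsto (fun k : ℕ => L.P {ω | mu γ (L.H 0 ω) (Metric.ball 0 1) <
      ENNReal.ofReal (sc k)}) atTop (𝓝 0) := by
    have := tendsto_measure_iInter_atTop (μ := L.P)
      (s := fun k : ℕ => {ω | mu γ (L.H 0 ω) (Metric.ball 0 1) < ENNReal.ofReal (sc k)})
      (fun k => (measurableSet_lt m1 measurable_const).nullMeasurableSet)
      (fun a b hab ω hω => lt_of_lt_of_le hω (ENNReal.ofReal_le_ofReal (sc_anti hab)))
      ⟨0, measure_ne_top _ _⟩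
    have e : L.P (⋂ k : ℕ, {ω | mu γ (L.H 0 ω) (Metric.ball 0 1) < ENNReal.ofReal (sc k)}) = 0 := by
      refine measure_mono_null (fun ω hω => ?_) (measure_unit_ball_zero L hγ hp h2 hz h0)
      have t := ENNReal.tendsto_ofReal tendsto_sc
      rw [ENNReal.ofReal_zero] at t
      exact le_antisymm (ge_of_tendsto' t fun k => (mem_iInter.1 hω k).le) zero_le
    rwa [e] at this
  have t3 := t1.add t2
  rw [add_zero] at t3
  have key : ∀ (k : ℕ) (c : ℂ), L.P {ω | mu γ (L.H 0 ω) (Metric.ball c (sc k)) <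
      ENNReal.ofReal (sc k ^ β)} ≤ ENNReal.ofReal (exp (K - k * (log 2 / 2))) +
        L.P {ω | mu γ (L.H 0 ω) (Metric.ball 0 1) < ENNReal.ofReal (sc k)} := by
    intro k c
    have hk : 0 ≤ (k : ℝ) * log 2 := by positivity
    set T := ENNReal.ofReal (exp ((γ - β) * (k * log 2))) with hT
    have s1 : L.P {ω | mu γ (L.H 0 ω) (Metric.ball c (sc k)) < ENNReal.ofReal (sc k ^ β)} ≤
        L.P ({ω | ENNReal.ofReal (exp (k * log 2)) ≤ ENNReal.ofReal (exp (1 * UU L (-1) 1 k c ω))} ∪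
          {ω | mu γ (L.H k ω) (Metric.ball c (1 * sc k)) ∈ Iio T}) := by
      refine measure_mono_ae ?_
      filter_upwards [ae_H_zero L k, ae_ok L h0 k, ae_lowSum_le L (σ := -1) (by norm_num) 1 k c]
        with ω h1 h3 h4 h5
      have h5 : mu γ (L.H 0 ω) (Metric.ball c (sc k)) < ENNReal.ofReal (sc k ^ β) := h5
      by_cases hU : (k : ℝ) * log 2 ≤ UU L (-1) 1 k c ω
      · exact Or.inl (ENNReal.ofReal_le_ofReal (exp_le_exp.2 (by linarith)))
      · refine Or.inr ?_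
        show mu γ (L.H k ω) (Metric.ball c (1 * sc k)) < T
        have a1 := h3.le_mu_add hγ.le (lowSum L k ω) (measurableSet_ball (x := c) (ε := 1 * sc k))
          (M := -(k * log 2)) fun z hz => by linarith [h4 z hz, not_le.1 hU]
        rw [← h1, one_mul] at a1
        have a2 := a1.trans_lt h5
        have e : ENNReal.ofReal (sc k ^ β) = ENNReal.ofReal (exp (γ * -(k * log 2))) * T := by
          rw [hT, ← ENNReal.ofReal_mul (exp_pos _).le, ← exp_add, sc_eq_exp, ← exp_nat_mul]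
          congr 2; ring
        rw [e] at a2
        rw [one_mul]
        exact lt_of_mul_lt_mul_left' a2
    refine s1.trans ((measure_union_le _ _).trans (add_le_add ?_ ?_))
    · refine (meas_ge_le_lintegral_div
        ((measurable_UU L _ _ _ _).const_mul 1).exp.ennreal_ofReal.aemeasurable
        (ENNReal.ofReal_pos.2 (exp_pos _)).ne' ENNReal.ofReal_ne_top).trans ?_
      refine (ENNReal.div_le_div_right (hK k c) _).trans_eq ?_
      rw [← ENNReal.ofReal_div_of_pos (exp_pos _), ← exp_sub]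
      congr 2; ring
    · rw [measure_ball_mem L hγ.ne' h0 k c 1 measurableSet_Iio]
      refine measure_mono fun ω hω => ?_
      have hω : ENNReal.ofReal (exp (-((2 + γ ^ 2 / 2) * (k * log 2)))) *
        mu γ (L.H 0 ω) (Metric.ball 0 1) < T := hω
      have e : T ≤ ENNReal.ofReal (exp (-((2 + γ ^ 2 / 2) * (k * log 2)))) *
          ENNReal.ofReal (sc k) := by
        rw [hT, ← ENNReal.ofReal_mul (exp_pos _).le, sc_eq_exp, ← exp_add]
        refine ENNReal.ofReal_le_ofReal (exp_le_exp.2 ?_)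
        nlinarith [mul_le_mul_of_nonneg_right hβ hk]
      exact lt_of_mul_lt_mul_left' (hω.trans_le e)
  have t4 := tendsto_of_tendsto_of_tendsto_of_le_of_le tendsto_const_nhds t3 (fun _ => zero_le)
    fun k => key k (ctr k (idx k y))
  filter_upwards [ae_frequently_of_tendsto t4] with ω hω
  exact hω.mono fun k hk => not_lt.1 hk

/-- the measure of the field `H 0` is almost surely regular -/
theorem ae_reg_zero (hγ : 0 < γ) (hγ2 : γ < 2) (h0 : ∀ᵐ ω ∂L.P, Ok γ (L.H 0 ω)) :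
    ∃ α : ℝ, 0 < α ∧ ∀ᵐ ω ∂L.P, Reg α (mu γ (L.H 0 ω)) := by
  obtain ⟨p, hp, h2, hz⟩ := exists_exponent hγ hγ2
  have hp0 : 0 < p := by linarith
  set ζ := p * (2 + γ ^ 2 / 2) - (p * γ) ^ 2 / 2 with hζ
  have hα : 0 < (ζ - 2) / (2 * p) := div_pos (by linarith) (by positivity)
  obtain ⟨β, hβ⟩ := ae_low L hγ hp h2 hz h0
  refine ⟨(ζ - 2) / (2 * p), hα, ?_⟩
  have hu := fun R => ae_up L hγ hp0 h2 hα.le (by
    have : (ζ - 2) / (2 * p) * p = (ζ - 2) / 2 := by field_simp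
    rw [this]; linarith) h0 R
  filter_upwards [h0, ae_all_iff.2 fun n => ae_all_iff.2 fun v : ℤ × ℤ =>
    ae_pos L hγ hp h2 hz h0 n (ctr n v), ae_all_iff.2 hu, hβ] with ω h1 h3 h4 h5
  exact ⟨(locFin_iff _).1 h1.1, h3, h4, β, h5⟩

/-! ## Outputs -/

variable {μ : Field → Measure ℂ}

/-- Almost surely every field `H n + g` has a vague limit, and it is regular. -/
theorem ae_reg (hγ : 0 < γ) (hγ2 : γ < 2) (hμ : IsLQGMeasure γ μ) : ∃ α : ℝ, 0 < α ∧
    ∀ᵐ ω ∂L.P, ∀ (n : ℤ) (g : Fn), Ok γ (addFn (L.H n ω) g) ∧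
      ∀ m, IsVague γ (addFn (L.H n ω) g) m → Reg α m := by
  have h0 := ae_ok_zero L hμ
  obtain ⟨α, hα, h⟩ := ae_reg_zero L hγ hγ2 h0
  refine ⟨α, hα, ?_⟩
  filter_upwards [h0, h, ae_all_iff.2 (ae_exists_add L)] with ω h1 h3 h4 n g
  obtain ⟨G, hG⟩ := h4 n
  rw [hG, addFn_addFn]
  refine ⟨h1.add _, fun m hm => ?_⟩
  rw [← mu_eq hm, h1.mu_add]
  exact h3.withDensity (continuous_const.mul (G + g).continuous)

/-- `E4`: moments up to an admissible exponent `p` -/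
theorem moment_lt_top (hγ : 0 < γ) (hμ : IsLQGMeasure γ μ) (hp : 0 < p) (h2 : p ≤ 2)
    (hz : 2 < p * (2 + γ ^ 2 / 2) - (p * γ) ^ 2 / 2) {q : ℝ} (hq : 0 ≤ q) (hqp : q ≤ p)
    {A : Set ℂ} (hA : Bornology.IsBounded A) : ∫⁻ ω, μ (L.H 0 ω) A ^ q ∂L.P < ∞ := by
  have h := lintegral_mu_rpow_lt_top L hγ.le hp h2 hz (ae_ok_zero L hμ) hA
  calc _ ≤ ∫⁻ ω, 1 + mu γ (L.H 0 ω) A ^ p ∂L.P := by
        refine lintegral_mono_ae ((ae_mu_eq L hμ).mono fun ω hω => ?_)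
        have := rpow_le_one_add (mu γ (L.H 0 ω) A ^ p) (q := q / p) (by positivity)
          (div_le_one_of_le₀ hqp hp.le)
        rw [← ENNReal.rpow_mul, mul_div_cancel₀ _ hp.ne'] at this
        simpa only [hω] using this
    _ < ∞ := by
        rw [lintegral_add_left measurable_const]
        exact ENNReal.add_lt_top.2 ⟨by simp, h⟩

/-- `E4m`: the mean measure -/
theorem mean_eq (hγ : 0 < γ) (hγ2 : γ < 2) (hμ : IsLQGMeasure γ μ) :
    ∃ c₀ : ℝ≥0, 0 < c₀ ∧ ∀ A : Set ℂ, MeasurableSet A →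
      ∫⁻ ω, μ (L.H 0 ω) A ∂L.P = c₀ * volume A := by
  obtain ⟨p, hp, h2, hz⟩ := exists_exponent hγ hγ2
  obtain ⟨c, hc, h⟩ := exists_mean L hγ hp h2 hz (ae_ok_zero L hμ)
  refine ⟨c, hc, fun A hA => ?_⟩
  rw [← h A hA]
  exact lintegral_congr_ae ((ae_mu_eq L hμ).mono fun ω hω => by simp only [hω])

/-- a fixed Lebesgue null set carries no mass, for every field `H n + g` -/
theorem ae_null (hγ : 0 < γ) (hγ2 : γ < 2) (hμ : IsLQGMeasure γ μ) {A : Set ℂ}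
    (hA : volume A = 0) : ∀ᵐ ω ∂L.P, ∀ (n : ℤ) (g : Fn) (m : Measure ℂ),
      IsVague γ (addFn (L.H n ω) g) m → m A = 0 := by
  obtain ⟨B, hAB, hB, hB0⟩ := exists_measurable_superset_of_null hA
  obtain ⟨p, hp, h2, hz⟩ := exists_exponent hγ hγ2
  have h0 := ae_ok_zero L hμ
  obtain ⟨c, -, h⟩ := exists_mean L hγ hp h2 hz h0
  have mm : Measurable fun ω => mu γ (L.H 0 ω) B :=
    ((Measure.measurable_coe hB).comp (measurable_mu γ)).comp (L.meas_H 0)
  have h1 := h B hB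
  rw [hB0, mul_zero] at h1
  filter_upwards [h0, (lintegral_eq_zero_iff mm).1 h1, ae_all_iff.2 (ae_exists_add L)]
    with ω h3 h4 h5 n g m hm
  obtain ⟨G, hG⟩ := h5 n
  rw [hG, addFn_addFn] at hm
  rw [← mu_eq hm, h3.mu_add_eq_zero]
  exact measure_mono_null hAB h4

/-- Transfer to a law `ν` on fields that is the law of `H 0` plus a random continuous function
(use it with `ν = P.map hat`). -/
theorem ae_reg_law (hγ : 0 < γ) (hγ2 : γ < 2) (hμ : IsLQGMeasure γ μ) : ∃ α : ℝ, 0 < α ∧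
    ∀ (h : L.Ω → Field), Measurable h → (∀ᵐ ω ∂L.P, ∃ g, h ω = addFn (L.H 0 ω) g) →
      (∀ᵐ ω ∂L.P, IsVague γ (h ω) (μ (h ω))) → ∀ᵐ H ∂L.P.map h, Reg α (μ H) := by
  obtain ⟨α, hα, hr⟩ := ae_reg L hγ hγ2 hμ
  refine ⟨α, hα, fun h hm hg hv => ?_⟩
  refine (ae_map_iff hm.aemeasurable (hμ.meas (measurableSet_reg α))).2 ?_
  filter_upwards [hr, hg, hv] with ω h1 ⟨g, h2⟩ h3
  exact (h1 0 g).2 _ (h2 ▸ h3)

theorem zeta_of {q : ℝ} (h1 : 1 < q) (h4 : q * γ ^ 2 < 4) :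
    2 < q * (2 + γ ^ 2 / 2) - (q * γ) ^ 2 / 2 := by
  nlinarith [mul_pos (sub_pos.2 h1) (sub_pos.2 h4)]

/-- (a) positive on open sets, no atoms -/
theorem ae_openPos_noAtoms (hγ : 0 < γ) (hγ2 : γ < 2) (hμ : IsLQGMeasure γ μ) :
    ∀ᵐ ω ∂L.P, (μ (L.H 0 ω)).IsOpenPosMeasure ∧ ∀ z, μ (L.H 0 ω) {z} = 0 := by
  obtain ⟨α, hα, h⟩ := ae_reg_zero L hγ hγ2 (ae_ok_zero L hμ)
  filter_upwards [h, ae_mu_eq L hμ] with ω h1 h2
  rw [h2]
  exact ⟨h1.openPos, h1.noAtoms hα⟩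

/-- (b) moments of order `q`, `1 < q ≤ 2`, `q γ ^ 2 < 4` -/
theorem moment_lt_top' (hγ : 0 < γ) (hμ : IsLQGMeasure γ μ) {q : ℝ} (h1 : 1 < q) (h2 : q ≤ 2)
    (h4 : q * γ ^ 2 < 4) {A : Set ℂ} (hA : Bornology.IsBounded A) :
    ∫⁻ ω, μ (L.H 0 ω) A ^ q ∂L.P < ∞ :=
  moment_lt_top L hγ hμ (by linarith) h2 (zeta_of h1 h4) (by linarith) le_rfl hA

/-- uniform moments of the approximate masses of a bounded set -/
theorem exists_apx_bound (hγ : 0 ≤ γ) {q : ℝ} (h1 : 1 < q) (h2 : q ≤ 2) (h4 : q * γ ^ 2 < 4)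
    {A : Set ℂ} (hA : Bornology.IsBounded A) : ∃ B : ℝ≥0∞, B < ∞ ∧ ∀ k : ℕ,
      ∫⁻ ω, (∫⁻ z in A, ENNReal.ofReal (den γ (L.H 0 ω) k z)) ^ q ∂L.P ≤ B := by
  obtain ⟨r, hr⟩ := hA.subset_ball (0 : ℂ)
  obtain ⟨N, hN⟩ := exists_nat_ge r
  obtain ⟨B, hB, h⟩ := exists_apx_ball L hγ (by linarith) h2 (zeta_of h1 h4) N
  refine ⟨B, hB, fun k => le_trans (lintegral_mono fun ω => ?_) (h k)⟩
  exact ENNReal.rpow_le_rpow (apx_mono γ k (hr.trans (Metric.ball_subset_ball hN)) _) (by linarith)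

end Pool.Agent.Lib.MP_0d9445_pr.Mu
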