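import Pool.Agent.Lib.MP_0d9445_pr.Mu.Path

/-! The supremum of the coarse layers near a point and its exponential moments (module MU). -/

open MeasureTheory ProbabilityTheory Filter Topology Set Real
open scoped ENNReal NNReal

namespace Pool.Agent.Lib.MP_0d9445_pr.Mu

open CR

theorem measurable_lip (A : Set ℂ) : Measurable fun g : Fn => lip g A := by
  refine LowerSemicontinuous.measurable ?_
  unfold lip
  refine lowerSemicontinuous_biSup fun x _ => lowerSemicontinuous_biSup fun y _ => ?_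
  by_cases hxy : x = y
  · subst hxy
    simpa using lowerSemicontinuous_const
  · refine Continuous.lowerSemicontinuous ?_
    refine ENNReal.continuous_div_const _ (by simpa using hxy) |>.comp ?_
    exact (ContinuousEvalConst.continuous_eval_const x).edist
      (ContinuousEvalConst.continuous_eval_const y)

theorem abs_sub_le_lip {g : Fn} {A : Set ℂ} (h : lip g A ≠ ∞) {x y : ℂ} (hx : x ∈ A)
    (hy : y ∈ A) : |g x - g y| ≤ (lip g A).toReal * ‖x - y‖ := by
  by_cases hxy : x = y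
  · simp [hxy]
  have h1 : edist (g x) (g y) / edist x y ≤ lip g A :=
    le_iSup₂_of_le (f := fun x (_ : x ∈ A) => ⨆ y ∈ A, edist (g x) (g y) / edist x y) x hx
      (le_iSup₂ (f := fun y (_ : y ∈ A) => edist (g x) (g y) / edist x y) y hy)
  rw [ENNReal.div_le_iff (by simpa using hxy) (edist_ne_top _ _)] at h1
  have h2 := ENNReal.toReal_mono (ENNReal.mul_ne_top h (edist_ne_top _ _)) h1
  rwa [ENNReal.toReal_mul, ← dist_edist, ← dist_edist, Real.dist_eq, dist_eq_norm] at h2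

theorem ofReal_exp_le_ex {a : ℝ} (ha : 0 ≤ a) (t : ℝ≥0∞) :
    ENNReal.ofReal (exp (a * t.toReal)) ≤ ex (ENNReal.ofReal a * t) := by
  by_cases ht : t = ∞
  · subst ht
    simp only [ENNReal.toReal_top, mul_zero, exp_zero, ENNReal.ofReal_one, ex]
    rw [EReal.one_le_exp_iff]
    exact EReal.coe_ennreal_nonneg _
  · have : ENNReal.ofReal a * t = ENNReal.ofReal (a * t.toReal) := by
      rw [ENNReal.ofReal_mul ha, ENNReal.ofReal_toReal ht]
    rw [this, ex, EReal.coe_ennreal_ofReal, max_eq_left (mul_nonneg ha ENNReal.toReal_nonneg),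
      EReal.exp_coe]

theorem measurable_ex : Measurable ex :=
  (EReal.exp_monotone.comp EReal.coe_ennreal_strictMono.monotone).measurable

theorem continuous_resc (a b : ℂ) : Continuous (resc a b) :=
  ContinuousMap.continuous_precomp (⟨fun z => a * z + b, by fun_prop⟩ : C(ℂ, ℂ))

theorem measurable_resc (a b : ℂ) : Measurable (resc a b) := (continuous_resc a b).measurable

theorem continuous_affine (Q : ℝ) (a b : ℂ) : Continuous (affine Q a b) := by
  have : affine Q a b = fun H : Field =>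
      H.comp (⟨fun p => (p.1 - log ‖a‖, a * p.2 + b), by fun_prop⟩ : C(ℝ × ℂ, ℝ × ℂ)) +
        ContinuousMap.const _ (Q * log ‖a‖) := by
    funext H; ext p; rfl
  rw [this]
  exact (ContinuousMap.continuous_precomp _).add continuous_const

theorem measurable_affine (Q : ℝ) (a b : ℂ) : Measurable (affine Q a b) :=
  (continuous_affine Q a b).measurable

theorem lintegral_exp_gauss {Ω : Type*} [MeasurableSpace Ω] {P : Measure Ω} {X : Ω → ℝ}
    (hm : Measurable X) {v : ℝ≥0} (hX : P.map X = gaussianReal 0 v) (s : ℝ) :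
    ∫⁻ ω, ENNReal.ofReal (exp (s * X ω)) ∂P = ENNReal.ofReal (exp (v * s ^ 2 / 2)) := by
  have h1 : ∫⁻ ω, ENNReal.ofReal (exp (s * X ω)) ∂P =
      ∫⁻ x, ENNReal.ofReal (exp (s * x)) ∂gaussianReal 0 v := by
    rw [← hX, lintegral_map (by fun_prop) hm]
  rw [h1, ← ofReal_integral_eq_lintegral_ofReal (integrable_exp_mul_gaussianReal s)
    (Eventually.of_forall fun x => (exp_pos _).le)]
  have := congrFun (mgf_fun_id_gaussianReal (μ := 0) (v := v)) s
  simp only [mgf, zero_mul, zero_add] at this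
  rw [this]

variable (L : Layers)

theorem map_eta (k : ℤ) (j : ℕ) (b : ℂ) :
    L.P.map (fun ω => resc (dy k j) b (L.eta k ω)) = L.P.map (L.eta 0) := by
  have h := congrArg (Measure.map fun x : (ℤ → Fn) × (ℤ → Field) => x.1 0) (L.cov k j b)
  have hm : Measurable fun x : (ℤ → Fn) × (ℤ → Field) => x.1 0 :=
    (measurable_pi_apply 0).comp measurable_fst
  rw [Measure.map_map hm, Measure.map_map hm] at h
  · simpa only [Function.comp_def, zero_add] using h
  · exact (measurable_pi_lambda _ L.meas_eta).prodMk (measurable_pi_lambda _ L.meas_H)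
  · exact (measurable_pi_lambda _ fun n => (measurable_resc _ _).comp (L.meas_eta _)).prodMk
      (measurable_pi_lambda _ fun n => (measurable_affine _ _ _).comp (L.meas_H _))

theorem map_H (k : ℤ) (j : ℕ) (b : ℂ) :
    L.P.map (fun ω => affine 0 (dy k j) b (L.H k ω)) = L.P.map (L.H 0) := by
  have h := congrArg (Measure.map fun x : (ℤ → Fn) × (ℤ → Field) => x.2 0) (L.cov k j b)
  have hm : Measurable fun x : (ℤ → Fn) × (ℤ → Field) => x.2 0 :=
    (measurable_pi_apply 0).comp measurable_snd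
  rw [Measure.map_map hm, Measure.map_map hm] at h
  · simpa only [Function.comp_def, zero_add] using h
  · exact (measurable_pi_lambda _ L.meas_eta).prodMk (measurable_pi_lambda _ L.meas_H)
  · exact (measurable_pi_lambda _ fun n => (measurable_resc _ _).comp (L.meas_eta _)).prodMk
      (measurable_pi_lambda _ fun n => (measurable_affine _ _ _).comp (L.meas_H _))

theorem lintegral_eta (k : ℤ) (j : ℕ) (b : ℂ) {F : Fn → ℝ≥0∞} (hF : Measurable F) :
    ∫⁻ ω, F (resc (dy k j) b (L.eta k ω)) ∂L.P = ∫⁻ ω, F (L.eta 0 ω) ∂L.P := by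
  rw [← lintegral_map hF (L.meas_eta 0), ← map_eta L k j b]
  exact (lintegral_map hF ((measurable_resc _ _).comp (L.meas_eta k))).symm

theorem lintegral_H (k : ℤ) (j : ℕ) (b : ℂ) {F : Field → ℝ≥0∞} (hF : Measurable F) :
    ∫⁻ ω, F (affine 0 (dy k j) b (L.H k ω)) ∂L.P = ∫⁻ ω, F (L.H 0 ω) ∂L.P := by
  rw [← lintegral_map hF (L.meas_H 0), ← map_H L k j b]
  exact (lintegral_map hF ((measurable_affine _ _ _).comp (L.meas_H k))).symm

theorem ae_H (k : ℤ) (j : ℕ) (b : ℂ) {S : Set Field} (hS : MeasurableSet S)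
    (h : ∀ᵐ ω ∂L.P, L.H 0 ω ∈ S) : ∀ᵐ ω ∂L.P, affine 0 (dy k j) b (L.H k ω) ∈ S := by
  have h1 := (ae_map_iff (L.meas_H 0).aemeasurable hS).2 h
  rw [← map_H L k j b] at h1
  exact (ae_map_iff ((measurable_affine _ _ _).comp (L.meas_H k)).aemeasurable hS).1 h1

theorem ae_lip_ne_top (k : ℤ) (j : ℕ) (b : ℂ) (ρ : ℝ) :
    ∀ᵐ ω ∂L.P, lip (resc (dy k j) b (L.eta k ω)) (Metric.ball 0 ρ) ≠ ∞ := by
  have hF : Measurable fun g : Fn => ex (ENNReal.ofReal 1 * lip g (Metric.ball 0 ρ)) :=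
    measurable_ex.comp ((measurable_lip _).const_mul _)
  have h := L.lipexp 1 ρ
  rw [← lintegral_eta L k j b hF] at h
  filter_upwards [ae_lt_top (hF.comp ((measurable_resc _ _).comp (L.meas_eta k))) h.ne] with ω hω
  intro ht
  simp only [Function.comp_apply, ht, ENNReal.ofReal_one, one_mul, ex] at hω
  simp at hω

/-- upper bound for one rescaled layer on `ball 0 (ρ ε)` -/
noncomputable def u1 (σ ρ ε : ℝ) (g : Fn) : ℝ :=
  σ * g 0 + ρ * ε * (lip g (Metric.ball 0 ρ)).toReal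

theorem measurable_u1 (σ ρ ε : ℝ) : Measurable (u1 σ ρ ε) :=
  ((measurable_eval 0).const_mul σ).add ((measurable_lip _).ennreal_toReal.const_mul _)

theorem exp_mul_le {x ε : ℝ} (h0 : 0 ≤ ε) (h1 : ε ≤ 1) : exp (ε * x) ≤ 1 + ε * exp x := by
  have := convexOn_exp.2 (mem_univ 0) (mem_univ x) (sub_nonneg.2 h1) h0 (by ring)
  simp only [smul_eq_mul, mul_zero, zero_add, exp_zero, mul_one] at this
  linarith

theorem exists_u1 {σ s ρ : ℝ} (hσ : σ ^ 2 = 1) (hs : 0 ≤ s) (hρ : 0 ≤ ρ) :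
    ∃ K : ℝ, 0 ≤ K ∧ ∀ ε, 0 ≤ ε → ε ≤ 1 →
    ∫⁻ ω, ENNReal.ofReal (exp (s * u1 σ ρ ε (L.eta 0 ω))) ∂L.P ≤
      ENNReal.ofReal (exp (log 2 * s ^ 2 / 2 + K * ε)) := by
  have hl : (0 : ℝ) ≤ log 2 := log_nonneg one_le_two
  have hm : Measurable fun ω => L.eta 0 ω 0 := (measurable_eval 0).comp (L.meas_eta 0)
  have g1 := lintegral_exp_gauss hm (L.gauss 0 0) (s * σ)
  have g2 := lintegral_exp_gauss hm (L.gauss 0 0) (2 * s * σ)
  rw [Real.coe_toNNReal _ hl, mul_pow _ σ, hσ, mul_one] at g1 g2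
  simp only [mul_assoc _ σ] at g1 g2
  have g3 := L.lipexp (2 * s * ρ) ρ
  set B := ∫⁻ ω, ex (ENNReal.ofReal (2 * s * ρ) * lip (L.eta 0 ω) (Metric.ball 0 ρ)) ∂L.P with hB
  refine ⟨exp (log 2 * (2 * s) ^ 2 / 2) + B.toReal, by positivity, fun ε h0 h1 => ?_⟩
  have hpt : ∀ ω, ENNReal.ofReal (exp (s * u1 σ ρ ε (L.eta 0 ω))) ≤
      ENNReal.ofReal (exp (s * (σ * L.eta 0 ω 0))) + ENNReal.ofReal ε *
        (ENNReal.ofReal (exp (2 * s * (σ * L.eta 0 ω 0))) +
          ex (ENNReal.ofReal (2 * s * ρ) * lip (L.eta 0 ω) (Metric.ball 0 ρ))) := by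
    intro ω
    set l := lip (L.eta 0 ω) (Metric.ball 0 ρ)
    set x := σ * L.eta 0 ω 0
    have e1 : exp (s * u1 σ ρ ε (L.eta 0 ω)) = exp (s * x) * exp (ε * (s * ρ * l.toReal)) := by
      rw [← exp_add, u1]; congr 1; ring
    have e2 := exp_mul_le (x := s * ρ * l.toReal) h0 h1
    have e3 : exp (2 * s * x) = exp (s * x) ^ 2 := by rw [← exp_nat_mul]; congr 1; push_cast; ring
    have e4 : exp (2 * s * ρ * l.toReal) = exp (s * ρ * l.toReal) ^ 2 := by
      rw [← exp_nat_mul]; congr 1; push_cast; ring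
    have e5 : exp (s * u1 σ ρ ε (L.eta 0 ω)) ≤
        exp (s * x) + ε * (exp (2 * s * x) + exp (2 * s * ρ * l.toReal)) := by
      rw [e1, e3, e4]
      have p1 := exp_pos (s * x)
      have p2 := exp_pos (s * ρ * l.toReal)
      have p3 : exp (s * x) * exp (s * ρ * l.toReal) ≤
          exp (s * x) ^ 2 + exp (s * ρ * l.toReal) ^ 2 := by nlinarith [mul_pos p1 p2]
      nlinarith [mul_le_mul_of_nonneg_left e2 p1.le, mul_le_mul_of_nonneg_left p3 h0]
    refine (ENNReal.ofReal_le_ofReal e5).trans ?_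
    rw [ENNReal.ofReal_add (exp_pos _).le (by positivity), ENNReal.ofReal_mul h0,
      ENNReal.ofReal_add (exp_pos _).le (exp_pos _).le]
    gcongr
    exact ofReal_exp_le_ex (by positivity) l
  refine (lintegral_mono hpt).trans ?_
  have m1 : Measurable fun ω => ENNReal.ofReal (exp (s * (σ * L.eta 0 ω 0))) := by fun_prop
  have m2 : Measurable fun ω => ENNReal.ofReal (exp (2 * s * (σ * L.eta 0 ω 0))) := by fun_prop
  rw [lintegral_add_left m1, lintegral_const_mul' _ _ ENNReal.ofReal_ne_top, lintegral_add_left m2,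
    g1, g2, ← hB, ← ENNReal.ofReal_toReal g3.ne,
    ← ENNReal.ofReal_add (exp_pos _).le ENNReal.toReal_nonneg, ← ENNReal.ofReal_mul h0,
    ← ENNReal.ofReal_add (exp_pos _).le (by positivity), ENNReal.toReal_ofReal ENNReal.toReal_nonneg]
  refine ENNReal.ofReal_le_ofReal ?_
  set K := exp (log 2 * (2 * s) ^ 2 / 2) + B.toReal
  have hK : 0 ≤ K := by positivity
  have a1 : 1 ≤ exp (log 2 * s ^ 2 / 2) := one_le_exp (by positivity)
  have a2 := add_one_le_exp (K * ε)
  rw [exp_add]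
  nlinarith [mul_nonneg hK h0]

/-- upper bound for the sum of the layers `0, ..., d - 1` on `ball y (ρ 2 ^ (-d))`, as a function
of the layers below `d` -/
noncomputable def UF (σ ρ : ℝ) (d : ℕ) (y : ℂ) (x : Iio (d : ℤ) → Fn) : ℝ :=
  ∑ j : Fin d, u1 σ ρ (2 ^ (j : ℕ) / 2 ^ d)
    (resc (dy (j : ℕ) 0) y (x ⟨(j : ℕ), by simp⟩))

theorem measurable_UF (σ ρ : ℝ) (d : ℕ) (y : ℂ) : Measurable (UF σ ρ d y) :=
  Finset.measurable_sum _ fun _ _ =>
    (measurable_u1 _ _ _).comp ((measurable_resc _ _).comp (measurable_pi_apply _))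

/-- the random upper bound -/
noncomputable def UU (σ ρ : ℝ) (d : ℕ) (y : ℂ) (ω : L.Ω) : ℝ := UF σ ρ d y fun j => L.eta j ω

theorem measurable_low (d : ℕ) : Measurable fun ω (j : Iio (d : ℤ)) => L.eta j ω :=
  measurable_pi_lambda _ fun _ => L.meas_eta _

theorem measurable_UU (σ ρ : ℝ) (d : ℕ) (y : ℂ) : Measurable (UU L σ ρ d y) :=
  (measurable_UF σ ρ d y).comp (measurable_low L d)

/-- the sum of the layers `0, ..., d - 1` -/
noncomputable def lowSum (d : ℕ) (ω : L.Ω) : Fn := ∑ j ∈ Finset.range d, L.eta j ω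

theorem ae_H_zero (d : ℕ) : ∀ᵐ ω ∂L.P, L.H 0 ω = addFn (L.H d ω) (lowSum L d ω) := by
  induction d with
  | zero => exact Eventually.of_forall fun ω => by simp [lowSum, addFn_zero]
  | succ d ih =>
    filter_upwards [ih, L.step d] with ω h1 h2
    rw [h1, h2, addFn_addFn, lowSum, lowSum, Finset.sum_range_succ, add_comm (L.eta d ω)]
    push_cast; rfl

theorem dy_zero (n : ℤ) : dy n 0 = (2 : ℂ) ^ (-n) := by simp [dy]

theorem ae_lowSum_le {σ : ℝ} (hσ : σ ^ 2 = 1) (ρ : ℝ) (d : ℕ) (y : ℂ) :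
    ∀ᵐ ω ∂L.P, ∀ w ∈ Metric.ball y (ρ * sc d), σ * lowSum L d ω w ≤ UU L σ ρ d y ω := by
  have h : ∀ᵐ ω ∂L.P, ∀ j : ℕ, lip (resc (dy j 0) y (L.eta j ω)) (Metric.ball 0 ρ) ≠ ∞ :=
    ae_all_iff.2 fun j => ae_lip_ne_top L j 0 y ρ
  filter_upwards [h] with ω hω w hw
  have hsc : 0 < sc d := by unfold sc; positivity
  rw [mem_ball_iff_norm] at hw
  have hρ : 0 < ρ := (mul_pos_iff_of_pos_right hsc).1 ((norm_nonneg _).trans_lt hw)
  simp only [lowSum, UU, UF, ContinuousMap.coe_sum, Finset.sum_apply]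
  rw [Finset.sum_range, Finset.mul_sum]
  refine Finset.sum_le_sum fun j _ => ?_
  set g := resc (dy (j : ℕ) 0) y (L.eta (j : ℕ) ω) with hg
  set u := (w - y) / dy (j : ℕ) 0 with hu
  have e1 : L.eta (j : ℕ) ω w = g u := by
    simp only [hg, hu, resc, ContinuousMap.coe_mk]
    rw [mul_div_cancel₀ _ (dy_ne_zero _ _), sub_add_cancel]
  have e2 : ‖u‖ < ρ * (2 ^ (j : ℕ) / 2 ^ d) := by
    rw [hu, norm_div, norm_dy, zpow_neg, zpow_natCast, div_inv_eq_mul]
    have : ρ * (2 ^ (j : ℕ) / 2 ^ d) = ρ * sc d * 2 ^ (j : ℕ) := by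
      simp only [sc, inv_pow]; field_simp
    rw [this]
    exact mul_lt_mul_of_pos_right hw (by positivity)
  have e3 : (2 : ℝ) ^ (j : ℕ) / 2 ^ d ≤ 1 := by
    rw [div_le_one (by positivity)]
    exact pow_le_pow_right₀ one_le_two j.2.le
  have e4 : u ∈ Metric.ball (0 : ℂ) ρ := by
    rw [mem_ball_zero_iff]
    exact e2.trans_le (mul_le_of_le_one_right hρ.le e3)
  have e5 := abs_sub_le_lip (hω j) e4 (Metric.mem_ball_self hρ)
  rw [sub_zero] at e5
  have e6 := mul_le_mul_of_nonneg_left e2.le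
    (ENNReal.toReal_nonneg (a := lip g (Metric.ball 0 ρ)))
  rw [e1, u1]
  have e7 : |σ * (g u - g 0)| = |g u - g 0| := by
    rcases sq_eq_one_iff.1 hσ with h | h <;> simp [h, abs_sub_comm]
  rw [← e7] at e5
  linarith [(abs_le.1 e5).2]

theorem sum_two_pow_le (d : ℕ) : ∑ j : Fin d, (2 : ℝ) ^ (j : ℕ) / 2 ^ d ≤ 1 := by
  rw [← Finset.sum_div, div_le_one (by positivity), ← Finset.sum_range (fun j => (2 : ℝ) ^ j),
    geom_sum_eq (by norm_num)]
  norm_num

/-- exponential moments of the upper bound, with the sharp growth rate -/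
theorem exists_UU {σ s ρ : ℝ} (hσ : σ ^ 2 = 1) (hs : 0 ≤ s) (hρ : 0 ≤ ρ) :
    ∃ K : ℝ, ∀ (d : ℕ) (y : ℂ),
    ∫⁻ ω, ENNReal.ofReal (exp (s * UU L σ ρ d y ω)) ∂L.P ≤
      ENNReal.ofReal (exp (d * log 2 * s ^ 2 / 2 + K)) := by
  obtain ⟨K, hK, h⟩ := exists_u1 L hσ hs hρ
  refine ⟨K, fun d y => ?_⟩
  let F : Fin d → Fn → ℝ≥0∞ := fun j g =>
    ENNReal.ofReal (exp (s * u1 σ ρ (2 ^ (j : ℕ) / 2 ^ d) g))
  have hF : ∀ j, Measurable (F j) := fun j =>
    ((measurable_u1 _ _ _).const_mul s).exp.ennreal_ofReal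
  have e1 : ∀ ω, ENNReal.ofReal (exp (s * UU L σ ρ d y ω)) =
      ∏ j : Fin d, F j (resc (dy (j : ℕ) 0) y (L.eta (j : ℕ) ω)) := by
    intro ω
    simp only [UU, UF, F]
    rw [Finset.mul_sum, exp_sum, ENNReal.ofReal_prod_of_nonneg fun _ _ => (exp_pos _).le]
  simp only [e1]
  have hind : iIndepFun (fun (j : Fin d) ω => F j (resc (dy (j : ℕ) 0) y (L.eta (j : ℕ) ω))) L.P := by
    have h1 : iIndepFun (fun j : Fin d => L.eta ((j : ℕ) : ℤ)) L.P :=
      L.iid.precomp (g := fun j : Fin d => ((j : ℕ) : ℤ)) fun a b hab => by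
        exact Fin.ext (Int.ofNat_inj.1 hab)
    exact h1.comp (fun j g => F j (resc (dy (j : ℕ) 0) y g))
      fun j => (hF j).comp (measurable_resc _ _)
  rw [lintegral_prod_eq_prod_lintegral_of_indepFun _ _ hind
    fun j => (hF j).comp ((measurable_resc _ _).comp (L.meas_eta _))]
  have e2 : ∀ j : Fin d, ∫⁻ ω, F j (resc (dy (j : ℕ) 0) y (L.eta (j : ℕ) ω)) ∂L.P ≤
      ENNReal.ofReal (exp (log 2 * s ^ 2 / 2 + K * (2 ^ (j : ℕ) / 2 ^ d))) := by
    intro j
    rw [lintegral_eta L _ _ _ (hF j)]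
    refine h _ (by positivity) ?_
    rw [div_le_one (by positivity)]
    exact pow_le_pow_right₀ one_le_two j.2.le
  refine (Finset.prod_le_prod' fun j _ => e2 j).trans ?_
  rw [← ENNReal.ofReal_prod_of_nonneg fun _ _ => (exp_pos _).le, ← exp_sum]
  refine ENNReal.ofReal_le_ofReal (exp_le_exp.2 ?_)
  rw [Finset.sum_add_distrib, ← Finset.mul_sum, Finset.sum_const, Finset.card_univ,
    Fintype.card_fin, nsmul_eq_mul]
  nlinarith [mul_le_mul_of_nonneg_left (sum_two_pow_le d) hK]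

/-- the layers below `d` and the field `H d` factorise -/
theorem lintegral_low_mul (d : ℕ) {F : (Iio (d : ℤ) → Fn) → ℝ≥0∞} (hF : Measurable F)
    {G : Field → ℝ≥0∞} (hG : Measurable G) :
    ∫⁻ ω, F (fun j => L.eta j ω) * G (L.H d ω) ∂L.P =
      (∫⁻ ω, F (fun j => L.eta j ω) ∂L.P) * ∫⁻ ω, G (L.H d ω) ∂L.P :=
  lintegral_mul_eq_lintegral_mul_lintegral_of_indepFun''
    (hF.comp (measurable_low L d)).aemeasurable (hG.comp (L.meas_H d)).aemeasurable
    ((L.indep d).comp hF hG)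

end Pool.Agent.Lib.MP_0d9445_pr.Mu
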