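import Pool.Agent.Lib.MP_0d9445_pr.Mu.Meas
import Pool.Agent.Lib.MP_0d9445_pr.Layers

/-! Pathwise facts on `IsVague`: uniqueness, Weyl scaling, dyadic affine change, locality,
measurability (module MU, part 3). -/

open MeasureTheory ProbabilityTheory Filter Topology Set Real
open scoped ENNReal NNReal

namespace Pool.Agent.Lib.MP_0d9445_pr.Mu

/-- the density of the `k`-th approximation -/
noncomputable def den (γ : ℝ) (H : Field) (k : ℕ) (z : ℂ) : ℝ :=
  exp (γ * H (k * log 2, z) - γ ^ 2 / 2 * (k * log 2))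

variable {γ : ℝ} {H : Field} {m m' : Measure ℂ}

theorem isVague_iff : IsVague γ H m ↔ VL (den γ H) m :=
  ⟨fun h => ⟨h.1, h.2⟩, fun h => ⟨h.1, h.2⟩⟩

theorem den_cont (γ : ℝ) (H : Field) (k : ℕ) : Continuous (den γ H k) := by
  unfold den; fun_prop

theorem den_pos (γ : ℝ) (H : Field) (k : ℕ) (z : ℂ) : 0 < den γ H k z := exp_pos _

theorem den_nonneg (γ : ℝ) (H : Field) (k : ℕ) (z : ℂ) : 0 ≤ den γ H k z := (exp_pos _).le

theorem measurable_eval {X : Type*} [TopologicalSpace X] (p : X) :
    Measurable fun H : C(X, ℝ) => H p :=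
  (ContinuousEvalConst.continuous_eval_const p).measurable

theorem den_meas (γ : ℝ) (k : ℕ) (z : ℂ) : Measurable fun H : Field => den γ H k z := by
  unfold den
  exact (((measurable_eval _).const_mul γ).sub_const _).exp

theorem exp_neg_log_two (k : ℕ) : exp (-((k : ℝ) * log 2)) = (2 : ℝ)⁻¹ ^ k := by
  rw [exp_neg, exp_nat_mul, exp_log two_pos, inv_pow]

theorem addFn_apply (H : Field) (f : Fn) (p : ℝ × ℂ) : addFn H f p = H p + avg f p := rfl

theorem avg_le {f : ℂ → ℝ} (hf : Continuous f) {p : ℝ × ℂ} {M : ℝ}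
    (h : ∀ z ∈ Metric.closedBall p.2 (exp (-p.1)), f z ≤ M) : avg f p ≤ M := by
  refine circleAverage_mono_on_of_le_circle (hf.continuousOn.circleIntegrable') fun z hz => h z ?_
  rw [abs_of_pos (exp_pos _)] at hz
  exact Metric.sphere_subset_closedBall hz

theorem avg_neg (f : ℂ → ℝ) (p : ℝ × ℂ) : avg (fun z => -f z) p = -avg f p := by
  simp only [avg, circleAverage, intervalIntegral.integral_neg, smul_neg]

theorem le_avg {f : ℂ → ℝ} (hf : Continuous f) {p : ℝ × ℂ} {M : ℝ}
    (h : ∀ z ∈ Metric.closedBall p.2 (exp (-p.1)), M ≤ f z) : M ≤ avg f p := by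
  have := avg_le (f := fun z => -f z) hf.neg (p := p) (M := -M) fun z hz => neg_le_neg (h z hz)
  rw [avg_neg] at this
  linarith

theorem avg_add {f g : ℂ → ℝ} (hf : Continuous f) (hg : Continuous g) (p : ℝ × ℂ) :
    avg (fun z => f z + g z) p = avg f p + avg g p :=
  circleAverage_fun_add hf.continuousOn.circleIntegrable' hg.continuousOn.circleIntegrable'

theorem addFn_addFn (H : Field) (f g : Fn) : addFn (addFn H f) g = addFn H (f + g) := by
  ext p
  simp only [addFn_apply]
  have := avg_add f.continuous g.continuous p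
  rw [add_assoc, ← this]; rfl

theorem addFn_zero (H : Field) : addFn H 0 = H := by
  ext p
  rw [addFn_apply]
  have : avg (0 : Fn) p = 0 := circleAverage_const (0 : ℝ) _ _
  rw [this, add_zero]

theorem tendstoUniformlyOn_avg {f : ℂ → ℝ} (hf : Continuous f) (R : ℝ) :
    TendstoUniformlyOn (fun (k : ℕ) z => avg f (k * log 2, z)) f atTop (Metric.closedBall 0 R) := by
  rw [Metric.tendstoUniformlyOn_iff]
  intro ε hε
  have hu := (isCompact_closedBall (0 : ℂ) (R + 1)).uniformContinuousOn_of_continuous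
    hf.continuousOn
  obtain ⟨δ, hδ, hδ'⟩ := Metric.uniformContinuousOn_iff.1 hu (ε / 2) (by positivity)
  have hlim : Tendsto (fun k : ℕ => (2 : ℝ)⁻¹ ^ k) atTop (𝓝 0) :=
    tendsto_pow_atTop_nhds_zero_of_lt_one (by norm_num) (by norm_num)
  filter_upwards [hlim.eventually (gt_mem_nhds (lt_min hδ one_pos))] with k hk z hz
  have hb : ∀ w ∈ Metric.closedBall z (exp (-((k : ℝ) * log 2))), |f w - f z| < ε / 2 := by
    intro w hw
    rw [exp_neg_log_two, Metric.mem_closedBall] at hw
    have h1 : dist w z < δ := hw.trans_lt (hk.trans_le (min_le_left _ _))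
    have h2 : dist w z < 1 := hw.trans_lt (hk.trans_le (min_le_right _ _))
    rw [Metric.mem_closedBall] at hz
    refine hδ' w ?_ z ?_ h1
    · rw [Metric.mem_closedBall]; linarith [dist_triangle w z 0]
    · rw [Metric.mem_closedBall]; linarith
  have a1 := avg_le hf (p := ((k : ℝ) * log 2, z)) (M := f z + ε / 2) fun w hw => by
    linarith [(abs_lt.1 (hb w hw)).2]
  have a2 := le_avg hf (p := ((k : ℝ) * log 2, z)) (M := f z - ε / 2) fun w hw => by
    linarith [(abs_lt.1 (hb w hw)).1]
  rw [Real.dist_eq, abs_lt]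
  constructor <;> linarith

theorem den_addFn (γ : ℝ) (H : Field) (f : Fn) (k : ℕ) (z : ℂ) :
    den γ (addFn H f) k z = exp (γ * avg f (k * log 2, z)) * den γ H k z := by
  simp only [den, addFn_apply, ← exp_add]
  congr 1; ring

/-- Uniqueness of the vague limit. -/
theorem vague_unique (h : IsVague γ H m) (h' : IsVague γ H m') : m = m' :=
  (isVague_iff.1 h).unique (isVague_iff.1 h')

/-- Weyl scaling of the measure, pathwise. -/
theorem vague_addFn (h : IsVague γ H m) (f : Fn) :
    IsVague γ (addFn H f) (m.withDensity fun z => ENNReal.ofReal (exp (γ * f z))) := by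
  rw [isVague_iff] at h ⊢
  have hf := f.continuous
  have := h.mul (den_cont γ H) (den_nonneg γ H)
    (w := fun (k : ℕ) z => exp (γ * avg f (k * log 2, z))) (w₀ := fun z => exp (γ * f z))
    (fun k => by have := continuous_avg f; fun_prop) (by fun_prop) (fun z => (exp_pos _).le)
    (fun R => by
      obtain ⟨B, hB⟩ := (isCompact_closedBall (0 : ℂ) (R + 1)).exists_bound_of_continuousOn
        hf.continuousOn
      have hu : UniformContinuousOn (fun t : ℝ => exp (γ * t)) (Icc (-B) B) :=
        isCompact_Icc.uniformContinuousOn_of_continuous (by fun_prop)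
      rw [Metric.tendstoUniformlyOn_iff]
      intro ε hε
      obtain ⟨δ, hδ, hδ'⟩ := Metric.uniformContinuousOn_iff.1 hu ε hε
      filter_upwards [Metric.tendstoUniformlyOn_iff.1 (tendstoUniformlyOn_avg hf R) δ hδ]
        with k hk z hz
      have hb : ∀ w ∈ Metric.closedBall z (exp (-((k : ℝ) * log 2))), |f w| ≤ B := by
        intro w hw
        rw [exp_neg_log_two, Metric.mem_closedBall] at hw
        have h2 : dist w z ≤ 1 := hw.trans (pow_le_one₀ (by norm_num) (by norm_num))
        rw [Metric.mem_closedBall] at hz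
        refine hB w ?_
        rw [Metric.mem_closedBall]; linarith [dist_triangle w z 0]
      refine hδ' _ (abs_le.1 (hb z (Metric.mem_closedBall_self (exp_pos _).le))) _ ⟨?_, ?_⟩
        (hk z hz)
      · exact le_avg hf (p := ((k : ℝ) * log 2, z)) fun w hw => (abs_le.1 (hb w hw)).1
      · exact avg_le hf (p := ((k : ℝ) * log 2, z)) fun w hw => (abs_le.1 (hb w hw)).2)
  exact this.congr (Eventually.of_forall fun k z => (den_addFn γ H f k z).symm)

/-- Adding a constant multiplies the measure. -/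
theorem vague_addFn_cst (h : IsVague γ H m) (c : ℝ) :
    IsVague γ (addFn H (cst c)) (ENNReal.ofReal (exp (γ * c)) • m) := by
  have := vague_addFn h (cst c)
  simpa only [ContinuousMap.const_apply, withDensity_const] using this

theorem norm_dy (n : ℤ) (j : ℕ) : ‖dy n j‖ = (2 : ℝ) ^ (-n) := by
  simp [dy, norm_zpow]

theorem dy_ne_zero (n : ℤ) (j : ℕ) : dy n j ≠ 0 := by
  rw [← norm_pos_iff, norm_dy]; positivity

theorem log_two_zpow (n : ℤ) : log ((2 : ℝ) ^ (-n)) = -(n * log 2) := by
  rw [log_zpow]; push_cast; ring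

/-- Affine change of coordinates of dyadic modulus, pathwise. -/
theorem vague_affine (h : IsVague γ H m) {Q : ℝ} (hQ : γ * Q - γ ^ 2 / 2 = 2) {a : ℂ} {n : ℤ}
    (ha : ‖a‖ = (2 : ℝ) ^ (-n)) (b : ℂ) :
    IsVague γ (affine Q a b H) (m.map fun w => (w - b) / a) := by
  have ha0 : a ≠ 0 := by rw [← norm_pos_iff, ha]; positivity
  rw [isVague_iff] at h ⊢
  have h1 := (h.shift n.toNat).affine ha0 b
  refine VL.of_shift (-n).toNat (h1.congr (Eventually.of_forall fun k z => ?_))
  have hn : ((n.toNat : ℕ) : ℝ) = ((-n).toNat : ℕ) + (n : ℝ) := by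
    have : (n.toNat : ℤ) = (-n).toNat + n := by omega
    exact_mod_cast this
  have hl : log ‖a‖ = -(n * log 2) := by rw [ha, log_two_zpow]
  have h2 : ‖a‖ ^ 2 = exp (2 * log ‖a‖) := by
    rw [show (2 : ℝ) * log ‖a‖ = (2 : ℕ) * log ‖a‖ by norm_num, exp_nat_mul,
      exp_log (norm_pos_iff.2 ha0)]
  simp only [den, affine, ContinuousMap.coe_mk]
  rw [h2, ← exp_add]
  have e : ((k + (-n).toNat : ℕ) : ℝ) * log 2 - log ‖a‖ = ((k + n.toNat : ℕ) : ℝ) * log 2 := by
    push_cast; rw [hn, hl]; ring
  rw [e]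
  congr 1
  push_cast
  rw [hn, hl]
  linear_combination (n * log 2) * hQ

theorem affine_eq_addFn (Q Q' : ℝ) (a b : ℂ) (H : Field) :
    affine Q a b H = addFn (affine Q' a b H) (cst ((Q - Q') * log ‖a‖)) := by
  ext p
  rw [addFn_apply]
  have : avg (cst ((Q - Q') * log ‖a‖)) p = (Q - Q') * log ‖a‖ := circleAverage_const _ _ _
  rw [this]
  simp only [affine, ContinuousMap.coe_mk]; ring

/-- The same for the rescaling without the `Q log |a|` term. -/
theorem vague_affine_zero (hγ : γ ≠ 0) (h : IsVague γ H m) {a : ℂ} {n : ℤ}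
    (ha : ‖a‖ = (2 : ℝ) ^ (-n)) (b : ℂ) :
    IsVague γ (affine 0 a b H)
      (ENNReal.ofReal (exp ((2 + γ ^ 2 / 2) * (n * log 2))) • m.map fun w => (w - b) / a) := by
  have hQ : γ * ((2 + γ ^ 2 / 2) / γ) - γ ^ 2 / 2 = 2 := by field_simp; ring
  have := vague_addFn_cst (vague_affine h hQ ha b) ((0 - (2 + γ ^ 2 / 2) / γ) * log ‖a‖)
  rw [← affine_eq_addFn] at this
  convert this using 4
  rw [ha, log_two_zpow]; field_simp; ring

/-- The set of fields where a measurable `μ` is the vague limit is measurable. -/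
theorem measurableSet_vague (γ : ℝ) {μ : Field → Measure ℂ} (hμ : Measurable μ) :
    MeasurableSet {H | IsVague γ H (μ H)} := by
  simp only [isVague_iff]
  exact measurableSet_vl (den_cont γ) (den_nonneg γ) (den_meas γ) hμ

/-- Locality, universal and pathwise: the restriction of the vague limit to an open set `U` is a
function of the averages over the circles whose closed disc lies in `U`. -/
theorem exists_local (γ : ℝ) {U : Set ℂ} (hU : IsOpen U) :
    ∃ F : Field → Measure ℂ, Measurable[sigmaOn (id : Field → Field) U] F ∧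
      ∀ H m, IsVague γ H m → F H = m.restrict U := by
  simp only [isVague_iff]
  refine @exists_local_version Field (sigmaOn (id : Field → Field) U) (den γ) (den_cont γ)
    (den_nonneg γ) U hU fun K hK hKU => ?_
  obtain ⟨δ, hδ, hδ'⟩ := hK.exists_cthickening_subset_open hU hKU
  have hlim : Tendsto (fun k : ℕ => (2 : ℝ)⁻¹ ^ k) atTop (𝓝 0) :=
    tendsto_pow_atTop_nhds_zero_of_lt_one (by norm_num) (by norm_num)
  obtain ⟨k₀, hk₀⟩ := eventually_atTop.1 (hlim.eventually (gt_mem_nhds hδ))
  refine ⟨k₀, fun k hk z hz => ?_⟩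
  have hsub : Metric.closedBall z (exp (-((k : ℝ) * log 2))) ⊆ U := by
    rw [exp_neg_log_two]
    exact ((Metric.closedBall_subset_closedBall (hk₀ k hk).le).trans
      (Metric.closedBall_subset_cthickening hz δ)).trans hδ'
  have hm : Measurable[sigmaOn (id : Field → Field) U]
      fun H : Field => H ((k : ℝ) * log 2, z) := by
    rw [measurable_iff_comap_le]
    exact le_iSup₂_of_le (f := fun (p : ℝ × ℂ) (_ : Metric.closedBall p.2 (exp (-p.1)) ⊆ U) =>
      MeasurableSpace.comap (fun ω : Field => (id ω : Field) p) inferInstance)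
      ((k : ℝ) * log 2, z) hsub le_rfl
  unfold den
  exact ((hm.const_mul γ).sub_const _).exp

theorem sigmaOn_eq_comap {Ω : Type} [MeasurableSpace Ω] (h : Ω → Field) (U : Set ℂ) :
    sigmaOn h U = (sigmaOn (id : Field → Field) U).comap h := by
  simp only [sigmaOn, MeasurableSpace.comap_iSup, MeasurableSpace.comap_comp]
  rfl

theorem measurable_sigmaOn {Ω : Type} [MeasurableSpace Ω] (h : Ω → Field) (U : Set ℂ) :
    @Measurable Ω Field (sigmaOn h U) (sigmaOn (id : Field → Field) U) h := by
  rw [sigmaOn_eq_comap]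
  exact comap_measurable h

theorem sigmaOn_le {Ω : Type} [mΩ : MeasurableSpace Ω] {h : Ω → Field} (hh : Measurable h)
    (U : Set ℂ) : sigmaOn h U ≤ mΩ :=
  iSup₂_le fun p _ => ((measurable_eval p).comp hh).comap_le

theorem sigmaOn_mono {Ω : Type} [MeasurableSpace Ω] (h : Ω → Field) {U V : Set ℂ} (hUV : U ⊆ V) :
    sigmaOn h U ≤ sigmaOn h V :=
  iSup₂_le fun p hp => le_iSup₂_of_le
    (f := fun (p : ℝ × ℂ) (_ : Metric.closedBall p.2 (exp (-p.1)) ⊆ V) =>
      MeasurableSpace.comap (fun ω => h ω p) inferInstance) p (hp.trans hUV) le_rfl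

end Pool.Agent.Lib.MP_0d9445_pr.Mu
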