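import Pool.Agent.Lib.MP_0d9445_pr.Mu.Recur

/-! The canonical version of the measure, its moments and its mean (module MU). -/

open MeasureTheory ProbabilityTheory Filter Topology Set Real
open scoped ENNReal NNReal

namespace Pool.Agent.Lib.MP_0d9445_pr.Mu

open CR

/-- a measurable version of the vague limit -/
noncomputable def mu (γ : ℝ) : Field → Measure ℂ := (exists_local γ isOpen_univ).choose

theorem measurable_mu (γ : ℝ) : Measurable (mu γ) :=
  (exists_local γ isOpen_univ).choose_spec.1.mono (sigmaOn_le measurable_id _) le_rfl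

variable {γ : ℝ} {H : Field} {m : Measure ℂ}

theorem mu_eq (h : IsVague γ H m) : mu γ H = m := by
  have := (exists_local γ isOpen_univ).choose_spec.2 H m h
  rwa [Measure.restrict_univ] at this

/-- the vague limit exists -/
def Ok (γ : ℝ) (H : Field) : Prop := IsVague γ H (mu γ H)

theorem ok_of (h : IsVague γ H m) : Ok γ H := by
  unfold Ok; rwa [mu_eq h]

theorem measurableSet_ok (γ : ℝ) : MeasurableSet {H | Ok γ H} :=
  measurableSet_vague γ (measurable_mu γ)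

theorem Ok.add (h : Ok γ H) (f : Fn) : Ok γ (addFn H f) := ok_of (vague_addFn h f)

theorem Ok.mu_add (h : Ok γ H) (f : Fn) :
    mu γ (addFn H f) = (mu γ H).withDensity fun z => ENNReal.ofReal (exp (γ * f z)) :=
  mu_eq (vague_addFn h f)

theorem Ok.mu_add_le (hγ : 0 ≤ γ) (h : Ok γ H) (f : Fn) {A : Set ℂ} (hA : MeasurableSet A) {M : ℝ}
    (hM : ∀ z ∈ A, f z ≤ M) :
    mu γ (addFn H f) A ≤ ENNReal.ofReal (exp (γ * M)) * mu γ H A := by
  rw [h.mu_add, withDensity_apply _ hA, ← setLIntegral_const]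
  exact setLIntegral_mono' hA fun z hz => ENNReal.ofReal_le_ofReal
    (exp_le_exp.2 (mul_le_mul_of_nonneg_left (hM z hz) hγ))

theorem Ok.le_mu_add (hγ : 0 ≤ γ) (h : Ok γ H) (f : Fn) {A : Set ℂ} (hA : MeasurableSet A) {M : ℝ}
    (hM : ∀ z ∈ A, M ≤ f z) :
    ENNReal.ofReal (exp (γ * M)) * mu γ H A ≤ mu γ (addFn H f) A := by
  rw [h.mu_add, withDensity_apply _ hA, ← setLIntegral_const]
  exact setLIntegral_mono' hA fun z hz => ENNReal.ofReal_le_ofReal
    (exp_le_exp.2 (mul_le_mul_of_nonneg_left (hM z hz) hγ))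

theorem Ok.mu_image (hγ : γ ≠ 0) (h : Ok γ H) {a : ℂ} {n : ℤ} (ha : ‖a‖ = (2 : ℝ) ^ (-n)) (b : ℂ)
    (A : Set ℂ) : mu γ H ((fun z => a * z + b) '' A) =
      ENNReal.ofReal (exp (-((2 + γ ^ 2 / 2) * (n * log 2)))) * mu γ (affine 0 a b H) A := by
  have ha0 : a ≠ 0 := by rw [← norm_pos_iff, ha]; positivity
  rw [mu_eq (vague_affine_zero hγ h ha b), Measure.smul_apply, map_aff_apply ha0, smul_eq_mul,
    ← mul_assoc, ← ENNReal.ofReal_mul (exp_pos _).le, ← exp_add, neg_add_cancel, exp_zero,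
    ENNReal.ofReal_one, one_mul]

theorem Ok.le_liminf (h : Ok γ H) {V : Set ℂ} (hV : IsOpen V) :
    mu γ H V ≤ liminf (fun k => apx γ k V H) atTop :=
  (isVague_iff.1 h).le_liminf (den_cont γ H) (den_nonneg γ H) hV

theorem image_ball (n : ℕ) (y : ℂ) (ρ : ℝ) :
    (fun z => dy n 0 * z + y) '' Metric.ball 0 ρ = Metric.ball y (ρ * sc n) := by
  have hs := sc_pos n
  have hn : ‖dy n 0‖ = sc n := by rw [norm_dy, sc_eq]
  ext w
  simp only [mem_image, mem_ball_iff_norm]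
  constructor
  · rintro ⟨z, hz, rfl⟩
    rw [add_sub_cancel_right, norm_mul, hn, mul_comm]
    exact mul_lt_mul_of_pos_right (by simpa using hz) hs
  · intro hw
    refine ⟨(w - y) / dy n 0, ?_, ?_⟩
    · rw [sub_zero, norm_div, hn, div_lt_iff₀ hs]; exact hw
    · rw [mul_div_cancel₀ _ (dy_ne_zero _ _), sub_add_cancel]

theorem ball_subset_boxes (N : ℕ) : Metric.ball (0 : ℂ) N ⊆ ⋃ v ∈ nbh N 0, box 0 v := by
  intro z hz
  refine mem_iUnion₂.2 ⟨idx 0 z, ?_, mem_box_idx 0 z⟩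
  rw [mem_ball_zero_iff] at hz
  have b1 := abs_lt.1 ((Complex.abs_re_le_norm z).trans_lt hz)
  have b2 := abs_lt.1 ((Complex.abs_im_le_norm z).trans_lt hz)
  have h0 : sc 0 = 1 := by simp [sc]
  simp only [nbh, idx, h0, div_one, Prod.fst_zero, Prod.snd_zero, zero_sub, zero_add,
    Finset.mem_product, Finset.mem_Icc, Int.le_floor, Int.floor_le_iff]
  push_cast
  exact ⟨⟨b1.1.le, by linarith [b1.2]⟩, b2.1.le, by linarith [b2.2]⟩

theorem liminf_rpow (a : ℕ → ℝ≥0∞) {p : ℝ} (hp : 0 < p) :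
    (liminf a atTop) ^ p = liminf (fun k => a k ^ p) atTop :=
  (ENNReal.orderIsoRpow p hp).liminf_apply

/-- A sequence with means bounded below and bounded `p`-th moments does not tend to zero. -/
theorem not_tendsto_zero {Ω : Type*} [MeasurableSpace Ω] {P : Measure Ω} [IsProbabilityMeasure P]
    {X : ℕ → Ω → ℝ≥0∞} (hX : ∀ k, Measurable (X k)) {c B : ℝ≥0∞} {p : ℝ} (hp : 1 < p) (hc : c ≠ 0)
    (hB : B ≠ ∞) (h1 : ∀ k, c ≤ ∫⁻ ω, X k ω ∂P) (h2 : ∀ k, ∫⁻ ω, X k ω ^ p ∂P ≤ B) :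
    ¬ ∀ᵐ ω ∂P, Tendsto (fun k => X k ω) atTop (𝓝 0) := by
  intro h
  have key : ∀ M : ℕ, c ≤ (((M + 1 : ℕ) : ℝ≥0∞) ^ (p - 1))⁻¹ * B := by
    intro M
    set T : ℝ≥0∞ := ((M + 1 : ℕ) : ℝ≥0∞) with hT
    have hT0 : T ^ (p - 1) ≠ 0 := (ENNReal.rpow_pos (by simp [hT]) (by simp [hT])).ne'
    have hT1 : T ^ (p - 1) ≠ ∞ := ENNReal.rpow_ne_top_of_nonneg (by linarith) (by simp [hT])
    have hpt : ∀ x : ℝ≥0∞, x ≤ min x T + (T ^ (p - 1))⁻¹ * x ^ p := by
      intro x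
      rcases le_total x T with hx | hx
      · rw [min_eq_left hx]; exact le_self_add
      · refine le_add_left ?_
        have e : x ^ p = x ^ (p - 1) * x := by
          conv_rhs => rw [← ENNReal.rpow_one x, ← ENNReal.rpow_mul, one_mul,
            ← ENNReal.rpow_add_of_nonneg _ _ (by linarith) zero_le_one]
          congr 1; ring
        calc x = (T ^ (p - 1))⁻¹ * (T ^ (p - 1) * x) := by
              rw [← mul_assoc, ENNReal.inv_mul_cancel hT0 hT1, one_mul]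
          _ ≤ _ := by rw [e]; gcongr
    have hlim : Tendsto (fun k => ∫⁻ ω, min (X k ω) T ∂P) atTop (𝓝 (∫⁻ _, 0 ∂P)) := by
      refine tendsto_lintegral_of_dominated_convergence (fun _ => T)
        (fun k => (hX k).min measurable_const) (fun k => Eventually.of_forall fun ω => min_le_right _ _)
        (by simp [hT]) ?_
      filter_upwards [h] with ω hω
      simpa using hω.min (tendsto_const_nhds (x := T))
    rw [lintegral_zero] at hlim
    have hlim' := hlim.add (tendsto_const_nhds (x := (T ^ (p - 1))⁻¹ * B))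
    rw [zero_add] at hlim'
    refine ge_of_tendsto' hlim' fun k => (h1 k).trans ((lintegral_mono fun ω => hpt _).trans ?_)
    rw [lintegral_add_left ((hX k).min measurable_const),
      lintegral_const_mul' _ _ (ENNReal.inv_ne_top.2 hT0)]
    gcongr
    exact h2 k
  have t1 : Tendsto (fun M : ℕ => ((M + 1 : ℕ) : ℝ≥0∞) ^ (p - 1)) atTop (𝓝 ∞) :=
    (ENNReal.tendsto_rpow_at_top (by linarith)).comp
      (ENNReal.tendsto_nat_nhds_top.comp (tendsto_add_atTop_nat 1))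
  have t2 : Tendsto (fun M : ℕ => (((M + 1 : ℕ) : ℝ≥0∞) ^ (p - 1))⁻¹ * B) atTop (𝓝 (0 * B)) :=
    ENNReal.Tendsto.mul_const (by simpa using tendsto_inv_iff.2 t1) (Or.inr hB)
  rw [zero_mul] at t2
  exact hc (le_antisymm (ge_of_tendsto' t2 key) zero_le)

variable (L : Layers)

theorem ae_exists_add (n : ℤ) : ∀ᵐ ω ∂L.P, ∃ g : Fn, L.H n ω = addFn (L.H 0 ω) g := by
  induction n using Int.induction_on with
  | zero => exact Eventually.of_forall fun ω => ⟨0, (addFn_zero _).symm⟩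
  | succ i ih =>
    filter_upwards [ih, L.step i] with ω ⟨g, hg⟩ h
    refine ⟨g + -L.eta i ω, ?_⟩
    rw [← addFn_addFn, ← hg, h, addFn_addFn, add_neg_cancel, addFn_zero]
  | pred i ih =>
    filter_upwards [ih, L.step (-i - 1)] with ω ⟨g, hg⟩ h
    refine ⟨g + L.eta (-i - 1) ω, ?_⟩
    rw [h, sub_add_cancel, hg, addFn_addFn]

theorem ae_ok (h0 : ∀ᵐ ω ∂L.P, Ok γ (L.H 0 ω)) (n : ℤ) : ∀ᵐ ω ∂L.P, Ok γ (L.H n ω) := by
  filter_upwards [h0, ae_exists_add L n] with ω h ⟨g, hg⟩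
  rw [hg]; exact h.add g

theorem isGFFplus_H_zero : IsGFFplus (L.H 0) L.P :=
  ⟨L.meas_H 0, fun ω => -L.ginf ω, continuous_neg.measurable.comp L.meas_ginf, by
    simpa only [neg_neg] using L.gff⟩

theorem ae_ok_zero {μ : Field → Measure ℂ} (hμ : IsLQGMeasure γ μ) :
    ∀ᵐ ω ∂L.P, Ok γ (L.H 0 ω) :=
  (hμ.vague _ L.P _ (isGFFplus_H_zero L)).mono fun _ h => ok_of h

theorem ae_mu_eq {μ : Field → Measure ℂ} (hμ : IsLQGMeasure γ μ) :
    ∀ᵐ ω ∂L.P, μ (L.H 0 ω) = mu γ (L.H 0 ω) :=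
  (hμ.vague _ L.P _ (isGFFplus_H_zero L)).mono fun _ h => (mu_eq h).symm

theorem lintegral_mu_image (hγ : γ ≠ 0) (h0 : ∀ᵐ ω ∂L.P, Ok γ (L.H 0 ω)) (n : ℤ) (j : ℕ) (b : ℂ)
    {A : Set ℂ} (hA : MeasurableSet A) {F : ℝ≥0∞ → ℝ≥0∞} (hF : Measurable F) :
    ∫⁻ ω, F (mu γ (L.H n ω) ((fun z => dy n j * z + b) '' A)) ∂L.P =
      ∫⁻ ω, F (ENNReal.ofReal (exp (-((2 + γ ^ 2 / 2) * (n * log 2)))) *
        mu γ (L.H 0 ω) A) ∂L.P := by
  rw [← lintegral_H L n j b (F := fun H => F (ENNReal.ofReal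
    (exp (-((2 + γ ^ 2 / 2) * (n * log 2)))) * mu γ H A))
    (hF.comp (((Measure.measurable_coe hA).comp (measurable_mu γ)).const_mul _))]
  refine lintegral_congr_ae ?_
  filter_upwards [ae_ok L h0 n] with ω h
  rw [h.mu_image hγ (norm_dy n j)]

theorem exists_apx_ball {p : ℝ} (hγ : 0 ≤ γ) (hp : 0 < p) (h2 : p ≤ 2)
    (hz : 2 < p * (2 + γ ^ 2 / 2) - (p * γ) ^ 2 / 2) (N : ℕ) :
    ∃ B : ℝ≥0∞, B < ∞ ∧ ∀ k, ∫⁻ ω, apx γ k (Metric.ball 0 N) (L.H 0 ω) ^ p ∂L.P ≤ B := by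
  obtain ⟨B, hB, h⟩ := exists_apx_rpow L hγ hp h2 hz
  have hv : ∀ k v, ∫⁻ ω, apx γ k (box 0 v) (L.H 0 ω) ^ p ∂L.P ≤ B := by
    intro k v
    have := lintegral_apx_box L γ k 0 v (F := fun x => x ^ p) (measurable_id.pow_const _)
    simp only [Nat.cast_zero, add_zero, zero_mul, mul_zero, neg_zero, exp_zero, ENNReal.ofReal_one,
      one_mul] at this
    rw [this]; exact h k
  refine ⟨∑ _v ∈ nbh N 0, ∑ _w ∈ nbh N 0, (B + B), ENNReal.sum_lt_top.2 fun _ _ =>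
    ENNReal.sum_lt_top.2 fun _ _ => ENNReal.add_lt_top.2 ⟨hB, hB⟩, fun k => ?_⟩
  let a : ℤ × ℤ → L.Ω → ℝ≥0∞ := fun v ω => apx γ k (box 0 v) (L.H 0 ω)
  have ma : ∀ v, Measurable fun ω => a v ω ^ p :=
    fun v => ((measurable_apx _ _ _).comp (L.meas_H 0)).pow_const _
  have mp : ∀ v w, Measurable fun ω => a v ω ^ p + a w ω ^ p := fun v w => (ma v).add (ma w)
  calc _ ≤ ∫⁻ ω, ∑ v ∈ nbh N 0, ∑ w ∈ nbh N 0, (a v ω ^ p + a w ω ^ p) ∂L.P := by
        refine lintegral_mono fun ω => ?_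
        refine le_trans (ENNReal.rpow_le_rpow ((apx_mono γ _ (ball_subset_boxes N) _).trans
          (apx_biUnion_le γ _ _ _ _)) hp.le) ((sum_rpow_le_pairs _ (fun v => a v ω) hp h2).trans ?_)
        exact Finset.sum_le_sum fun v _ => Finset.sum_le_sum fun w _ => mul_rpow_half_le _ _ hp
    _ ≤ _ := by
        rw [lintegral_finsetSum _ fun v _ => Finset.measurable_sum _ fun w _ => mp v w]
        refine Finset.sum_le_sum fun v _ => ?_
        rw [lintegral_finsetSum _ fun w _ => mp v w]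
        refine Finset.sum_le_sum fun w _ => ?_
        rw [lintegral_add_left (ma v)]
        exact add_le_add (hv k v) (hv k w)

/-- finite `p`-th moment of the mass of a bounded set -/
theorem lintegral_mu_rpow_lt_top {p : ℝ} (hγ : 0 ≤ γ) (hp : 0 < p) (h2 : p ≤ 2)
    (hz : 2 < p * (2 + γ ^ 2 / 2) - (p * γ) ^ 2 / 2) (h0 : ∀ᵐ ω ∂L.P, Ok γ (L.H 0 ω))
    {A : Set ℂ} (hA : Bornology.IsBounded A) : ∫⁻ ω, mu γ (L.H 0 ω) A ^ p ∂L.P < ∞ := by
  obtain ⟨r, hr⟩ := hA.subset_ball (0 : ℂ)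
  obtain ⟨N, hN⟩ := exists_nat_ge r
  obtain ⟨B, hB, h⟩ := exists_apx_ball L hγ hp h2 hz N
  refine lt_of_le_of_lt ?_ hB
  calc _ ≤ ∫⁻ ω, liminf (fun k => apx γ k (Metric.ball 0 N) (L.H 0 ω) ^ p) atTop ∂L.P := by
        refine lintegral_mono_ae (h0.mono fun ω hω => ?_)
        rw [← liminf_rpow _ hp]
        exact ENNReal.rpow_le_rpow ((measure_mono (hr.trans (Metric.ball_subset_ball hN))).trans
          (hω.le_liminf Metric.isOpen_ball)) hp.le
    _ ≤ liminf (fun k => ∫⁻ ω, apx γ k (Metric.ball 0 N) (L.H 0 ω) ^ p ∂L.P) atTop :=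
        lintegral_liminf_le fun k => ((measurable_apx _ _ _).comp (L.meas_H 0)).pow_const _
    _ ≤ B := liminf_le_of_frequently_le' (Frequently.of_forall h)

/-- moments of the mass of small balls, with the multifractal exponent -/
theorem exists_ball_rpow {p : ℝ} (hγ : 0 < γ) (hp : 0 < p) (h2 : p ≤ 2)
    (hz : 2 < p * (2 + γ ^ 2 / 2) - (p * γ) ^ 2 / 2) (h0 : ∀ᵐ ω ∂L.P, Ok γ (L.H 0 ω))
    {ρ : ℝ} (hρ : 0 ≤ ρ) : ∃ C : ℝ≥0∞, C < ∞ ∧ ∀ (n : ℕ) (y : ℂ),
      ∫⁻ ω, mu γ (L.H 0 ω) (Metric.ball y (ρ * sc n)) ^ p ∂L.P ≤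
        C * ENNReal.ofReal (exp (-((p * (2 + γ ^ 2 / 2) - (p * γ) ^ 2 / 2) * (n * log 2)))) := by
  obtain ⟨K, hK⟩ := exists_UU L (σ := 1) (s := p * γ) (ρ := ρ) (by norm_num) (by positivity) hρ
  have hm := lintegral_mu_rpow_lt_top L hγ.le hp h2 hz h0 (Metric.isBounded_ball (x := 0) (r := ρ))
  refine ⟨ENNReal.ofReal (exp K) * ∫⁻ ω, mu γ (L.H 0 ω) (Metric.ball 0 ρ) ^ p ∂L.P,
    ENNReal.mul_lt_top ENNReal.ofReal_lt_top hm, fun n y => ?_⟩
  calc _ ≤ ∫⁻ ω, ENNReal.ofReal (exp (p * γ * UF 1 ρ n y fun j => L.eta j ω)) *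
          mu γ (L.H n ω) (Metric.ball y (ρ * sc n)) ^ p ∂L.P := by
        refine lintegral_mono_ae ?_
        filter_upwards [ae_H_zero L n, ae_ok L h0 n, ae_lowSum_le L (σ := 1) (by norm_num) ρ n y]
          with ω h1 h2 h3
        rw [h1]
        refine (ENNReal.rpow_le_rpow (h2.mu_add_le hγ.le _ measurableSet_ball
          (M := UU L 1 ρ n y ω) fun z hz => by simpa using h3 z hz) hp.le).trans_eq ?_
        rw [ENNReal.mul_rpow_of_nonneg _ _ hp.le, ofReal_exp_rpow _ hp.le, ← mul_assoc]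
        rfl
    _ = (∫⁻ ω, ENNReal.ofReal (exp (p * γ * UU L 1 ρ n y ω)) ∂L.P) *
          ∫⁻ ω, mu γ (L.H n ω) (Metric.ball y (ρ * sc n)) ^ p ∂L.P :=
        lintegral_low_mul L n (F := fun x => ENNReal.ofReal (exp (p * γ * UF 1 ρ n y x)))
          ((measurable_UF _ _ _ _).const_mul _).exp.ennreal_ofReal
          (G := fun H => mu γ H (Metric.ball y (ρ * sc n)) ^ p)
          (((Measure.measurable_coe measurableSet_ball).comp (measurable_mu γ)).pow_const _)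
    _ ≤ _ := by
        rw [← image_ball, lintegral_mu_image L hγ.ne' h0 n 0 y measurableSet_ball
          (F := fun x => x ^ p) (measurable_id.pow_const _)]
        simp only [ENNReal.mul_rpow_of_nonneg _ _ hp.le, ofReal_exp_rpow _ hp.le]
        rw [lintegral_const_mul' _ _ ENNReal.ofReal_ne_top, ← mul_assoc, mul_right_comm
          (ENNReal.ofReal (exp K))]
        refine mul_le_mul' ((mul_le_mul_left (hK n _) _).trans_eq ?_) le_rfl
        rw [← ENNReal.ofReal_mul (exp_pos _).le, ← ENNReal.ofReal_mul (exp_pos _).le, ← exp_add,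
          ← exp_add]
        congr 2; push_cast; ring

theorem lintegral_mu_ball_ne_zero {p : ℝ} (hγ : 0 ≤ γ) (hp : 1 < p) (h2 : p ≤ 2)
    (hz : 2 < p * (2 + γ ^ 2 / 2) - (p * γ) ^ 2 / 2) (h0 : ∀ᵐ ω ∂L.P, Ok γ (L.H 0 ω)) :
    ∫⁻ ω, mu γ (L.H 0 ω) (Metric.ball 0 3) ∂L.P ≠ 0 := by
  intro hzero
  obtain ⟨B, hB, h⟩ := exists_apx_ball L hγ (by linarith) h2 hz 1
  obtain ⟨C, hC⟩ := exists_apx_one L γ
  refine not_tendsto_zero (P := L.P)
    (X := fun k ω => apx γ k (Metric.ball 0 (1 : ℕ)) (L.H 0 ω))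
    (fun k => (measurable_apx _ _ _).comp (L.meas_H 0)) hp (mul_ne_zero
      (ENNReal.ofReal_pos.2 (exp_pos (-C))).ne'
      (Metric.measure_ball_pos volume (0 : ℂ) (r := (1 : ℕ)) (by simp)).ne') hB.ne
    (fun k => (hC k _).1) h ?_
  have hmm : Measurable fun ω => mu γ (L.H 0 ω) (Metric.ball 0 3) :=
    ((Measure.measurable_coe measurableSet_ball).comp (measurable_mu γ)).comp (L.meas_H 0)
  filter_upwards [h0, (lintegral_eq_zero_iff hmm).1 hzero] with ω h1 h3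
  have t := (isVague_iff.1 h1).tendsto_lintegral (den_cont γ _) (den_nonneg γ _) (cut_cont 1)
    (cut_supp 1) (cut_nonneg 1)
  have e : ∫⁻ z, ENNReal.ofReal (cut 1 z) ∂mu γ (L.H 0 ω) = 0 := by
    refine lintegral_eq_zero_of_ae_eq_zero ?_
    refine measure_mono_null (fun z hz => ?_) h3
    rw [mem_ball_zero_iff]
    by_contra hc
    exact hz (by simp [cut_eq_zero (R := 1) (z := z) (by linarith)])
  rw [e] at t
  refine tendsto_of_tendsto_of_tendsto_of_le_of_le tendsto_const_nhds t (fun _ => zero_le)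
    fun k => ?_
  unfold apx
  rw [← lintegral_indicator measurableSet_ball]
  refine lintegral_mono fun z => ?_
  by_cases hz : z ∈ Metric.ball (0 : ℂ) (1 : ℕ)
  · rw [indicator_of_mem hz, cut_eq_one (by simpa using (mem_ball_zero_iff.1 hz).le)]
    simp
  · rw [indicator_of_notMem hz]; exact zero_le

/-- the mean measure is a positive multiple of Lebesgue measure -/
theorem exists_mean {p : ℝ} (hγ : 0 < γ) (hp : 1 < p) (h2 : p ≤ 2)
    (hz : 2 < p * (2 + γ ^ 2 / 2) - (p * γ) ^ 2 / 2) (h0 : ∀ᵐ ω ∂L.P, Ok γ (L.H 0 ω)) :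
    ∃ c₀ : ℝ≥0, 0 < c₀ ∧ ∀ A : Set ℂ, MeasurableSet A →
      ∫⁻ ω, mu γ (L.H 0 ω) A ∂L.P = c₀ * volume A := by
  have hm : Measurable fun ω => mu γ (L.H 0 ω) := (measurable_mu γ).comp (L.meas_H 0)
  let I : Measure ℂ := L.P.bind fun ω => mu γ (L.H 0 ω)
  have hI : ∀ A, MeasurableSet A → I A = ∫⁻ ω, mu γ (L.H 0 ω) A ∂L.P :=
    fun A hA => Measure.bind_apply hA hm.aemeasurable
  have : IsFiniteMeasureOnCompacts I := ⟨fun K hK => by
    rw [hI K hK.measurableSet]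
    have h1 := lintegral_mu_rpow_lt_top L hγ.le (by linarith) h2 hz h0 hK.isBounded
    have h3 : ∀ x : ℝ≥0∞, x ≤ 1 + x ^ p := fun x => by
      have := rpow_le_one_add (x ^ p) (q := p⁻¹) (by positivity) (inv_le_one_of_one_le₀ hp.le)
      rwa [← ENNReal.rpow_mul, mul_inv_cancel₀ (by linarith), ENNReal.rpow_one] at this
    refine (lintegral_mono fun ω => h3 _).trans_lt ?_
    rw [lintegral_add_left measurable_const]
    exact ENNReal.add_lt_top.2 ⟨by simp, h1⟩⟩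
  have : I.IsAddLeftInvariant := ⟨fun b => by
    ext A hA
    rw [Measure.map_apply (measurable_const_add b) hA, hI _ (measurable_const_add b hA), hI A hA]
    have e : (fun x => b + x) ⁻¹' A = (fun z => dy 0 0 * z + -b) '' A := by
      ext z
      simp only [dy, neg_zero, zpow_zero, pow_zero, one_mul, mem_preimage, mem_image]
      exact ⟨fun h => ⟨b + z, h, by ring⟩, fun ⟨w, hw, e⟩ => by rw [← e]; simpa using hw⟩
    have := lintegral_mu_image L hγ.ne' h0 0 0 (-b) hA (F := fun x => x) measurable_id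
    rw [e, this]
    simp⟩
  have hs := Measure.isAddLeftInvariant_eq_smul I (volume : Measure ℂ)
  refine ⟨I.addHaarScalarFactor volume, pos_iff_ne_zero.2 fun hc => ?_, fun A hA => ?_⟩
  · refine lintegral_mu_ball_ne_zero L hγ.le hp h2 hz h0 ?_
    rw [← hI _ measurableSet_ball, hs, hc]; simp
  · rw [← hI A hA]
    conv_lhs => rw [hs]
    simp

/-- an admissible exponent exists for `0 < γ < 2` -/
theorem exists_exponent (h0 : 0 < γ) (h2 : γ < 2) :
    ∃ p : ℝ, 1 < p ∧ p ≤ 2 ∧ 2 < p * (2 + γ ^ 2 / 2) - (p * γ) ^ 2 / 2 := by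
  have h4 : γ ^ 2 < 4 := by nlinarith
  refine ⟨1 + (4 - γ ^ 2) / 8, by linarith, by nlinarith [sq_nonneg γ], ?_⟩
  have e : (1 + (4 - γ ^ 2) / 8) * (2 + γ ^ 2 / 2) - ((1 + (4 - γ ^ 2) / 8) * γ) ^ 2 / 2 - 2 =
      (4 - γ ^ 2) / 8 * ((4 - γ ^ 2) / 2 * (1 - γ ^ 2 / 8)) := by ring
  have : 0 < (4 - γ ^ 2) / 8 * ((4 - γ ^ 2) / 2 * (1 - γ ^ 2 / 8)) := by
    have : 0 < 4 - γ ^ 2 := by linarith
    have : 0 < 1 - γ ^ 2 / 8 := by linarith
    positivity
  linarith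

end Pool.Agent.Lib.MP_0d9445_pr.Mu
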