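import Pool.Agent.Lib.MP_0d9445_pr.Mu.Vague

/-! Vague limits: countable criterion, measurable versions, locality (module MU, part 2). -/

open MeasureTheory Filter Topology Set
open scoped ENNReal NNReal CompactlySupported

namespace Pool.Agent.Lib.MP_0d9445_pr.Mu

variable {ρ : ℕ → ℂ → ℝ} {ν : Measure ℂ}

theorem cut_mono (z : ℂ) : Monotone fun R : ℕ => cut R z := by
  intro a b hab
  have : (a : ℝ) ≤ b := by exact_mod_cast hab
  unfold cut
  exact max_le_max le_rfl (min_le_min le_rfl (by linarith))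

theorem tendsto_cut (z : ℂ) : Tendsto (fun R : ℕ => cut R z) atTop (𝓝 1) := by
  obtain ⟨N, hN⟩ := exists_nat_ge ‖z‖
  refine tendsto_const_nhds.congr' ?_
  filter_upwards [eventually_ge_atTop N] with R hR
  have : (N : ℝ) ≤ R := by exact_mod_cast hR
  exact (cut_eq_one (hN.trans this)).symm

/-- A family of locally finite measures with measurable integrals of test functions is
measurable. -/
theorem measurable_of_integral {α : Type*} [MeasurableSpace α] {F : α → Measure ℂ}
    (hF : ∀ a, IsLocallyFiniteMeasure (F a))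
    (h : ∀ φ : ℂ → ℝ, Continuous φ → HasCompactSupport φ → Measurable fun a => ∫ z, φ z ∂F a) :
    Measurable F := by
  have key : ∀ (R : ℕ) (f : ℂ → ℝ), Continuous f → (∀ z, 0 ≤ f z) → Measurable fun a =>
      ∫⁻ z, ENNReal.ofReal (f z) ∂(F a).withDensity fun z => ENNReal.ofReal (cut R z) := by
    intro R f hf hf0
    have := (h (fun z => cut R z * f z) ((cut_cont R).mul hf) (cut_supp R).mul_right).ennreal_ofReal
    convert this using 2 with a
    have := hF a
    rw [lintegral_withDensity_eq_lintegral_mul _ (cut_cont R).measurable.ennreal_ofReal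
      hf.measurable.ennreal_ofReal,
      ofReal_integral_eq_lintegral_ofReal (integrable_mul (cut_cont R) (cut_supp R) hf _)
      (Eventually.of_forall fun z => mul_nonneg (cut_nonneg _ z) (hf0 z))]
    simp only [Pi.mul_apply, ENNReal.ofReal_mul (cut_nonneg _ _)]
  have hG : ∀ R : ℕ, Measurable fun a => (F a).withDensity fun z => ENNReal.ofReal (cut R z) := by
    intro R
    have : ∀ a, IsFiniteMeasure ((F a).withDensity fun z => ENNReal.ofReal (cut R z)) := by
      intro a
      have := hF a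
      exact isFiniteMeasure_withDensity_ofReal
        ((cut_cont R).integrable_of_hasCompactSupport (cut_supp R)).2
    refine Measurable.measure_of_isPiSystem (S := {s | IsClosed s}) ?_ isPiSystem_isClosed ?_ ?_
    · rw [← borel_eq_generateFrom_isClosed]; exact BorelSpace.measurable_eq
    · intro s hs
      have hs : IsClosed s := hs
      refine measurable_of_tendsto_metrizable
        (f := fun n a => ∫⁻ z, hs.apprSeq n z ∂(F a).withDensity fun z => ENNReal.ofReal (cut R z))
        (fun n => ?_) (tendsto_pi_nhds.2 fun a => HasOuterApproxClosed.tendsto_lintegral_apprSeq hs _)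
      have := key R (fun z => (hs.apprSeq n z : ℝ)) (by fun_prop) (fun z => NNReal.coe_nonneg _)
      simpa only [ENNReal.ofReal_coe_nnreal] using this
    · have := key R (fun _ => 1) continuous_const (fun _ => zero_le_one)
      simpa using this
  refine Measure.measurable_of_measurable_coe _ fun s hs => ?_
  refine measurable_of_tendsto_metrizable
    (f := fun (R : ℕ) a => ((F a).withDensity fun z => ENNReal.ofReal (cut R z)) s)
    (fun R => (Measure.measurable_coe hs).comp (hG R)) (tendsto_pi_nhds.2 fun a => ?_)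
  simp only [withDensity_apply _ hs]
  have := lintegral_tendsto_of_tendsto_of_monotone (μ := (F a).restrict s)
    (f := fun (R : ℕ) z => ENNReal.ofReal (cut R z)) (F := fun _ => 1)
    (fun R => (cut_cont R).measurable.ennreal_ofReal.aemeasurable)
    (Eventually.of_forall fun z a b hab => ENNReal.ofReal_le_ofReal (cut_mono z hab))
    (Eventually.of_forall fun z => by simpa using ENNReal.tendsto_ofReal (tendsto_cut z))
  simpa using this

theorem exists_family : ∃ T : ℕ → ℕ → ℂ → ℝ, (∀ j R, Continuous (T j R)) ∧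
    (∀ j R, HasCompactSupport (T j R)) ∧
    ∀ φ : ℂ → ℝ, Continuous φ → HasCompactSupport φ →
      ∃ R, ∀ ε > 0, ∃ j, ∀ z, |φ z - T j R z| ≤ ε * T 0 R z := by
  obtain ⟨u, hu⟩ := TopologicalSpace.exists_dense_seq C(ℂ, ℝ)
  let v : ℕ → C(ℂ, ℝ) := fun j => Nat.casesOn j 1 u
  refine ⟨fun j R z => cut R z * v j z, fun j R => (cut_cont R).mul (v j).continuous,
    fun j R => (cut_supp R).mul_right, fun φ h1 h2 => ?_⟩
  obtain ⟨R, hR⟩ := exists_radius h2
  refine ⟨R, fun ε hε => ?_⟩
  let f : C(ℂ, ℝ) := ⟨φ, h1⟩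
  have hn : {g : C(ℂ, ℝ) | ∀ z ∈ Metric.closedBall (0 : ℂ) (R + 1), dist (f z) (g z) < ε} ∈ 𝓝 f := by
    have := (ContinuousMap.tendsto_iff_forall_isCompact_tendstoUniformlyOn
      (F := fun g : C(ℂ, ℝ) => g) (f := f) (p := 𝓝 f)).1 tendsto_id _
      (isCompact_closedBall (0 : ℂ) (R + 1))
    exact Metric.tendstoUniformlyOn_iff.1 this ε hε
  obtain ⟨j, hj⟩ := hu.mem_nhds hn
  refine ⟨j + 1, fun z => ?_⟩
  have hφ : φ z = cut R z * φ z := by
    by_cases hz : (R : ℝ) ≤ ‖z‖
    · simp [hR z hz]
    · rw [cut_eq_one (not_le.1 hz).le, one_mul]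
  show |φ z - cut R z * u j z| ≤ ε * (cut R z * 1)
  by_cases hz : (R : ℝ) + 1 ≤ ‖z‖
  · rw [hφ, cut_eq_zero hz]; simp
  · have := hj z (by rw [mem_closedBall_zero_iff]; exact (not_le.1 hz).le)
    rw [Real.dist_eq] at this
    rw [hφ, ← mul_sub, abs_mul, abs_of_nonneg (cut_nonneg _ _), mul_one, mul_comm]
    exact mul_le_mul_of_nonneg_right this.le (cut_nonneg _ _)

/-- A countable family of test functions that determines vague convergence. -/
noncomputable def fam : ℕ → ℕ → ℂ → ℝ := exists_family.choose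

theorem fam_cont (j R : ℕ) : Continuous (fam j R) := exists_family.choose_spec.1 j R

theorem fam_supp (j R : ℕ) : HasCompactSupport (fam j R) := exists_family.choose_spec.2.1 j R

theorem fam_approx {φ : ℂ → ℝ} (h1 : Continuous φ) (h2 : HasCompactSupport φ) :
    ∃ R, ∀ ε > 0, ∃ j, ∀ z, |φ z - fam j R z| ≤ ε * fam 0 R z :=
  exists_family.choose_spec.2.2 φ h1 h2

theorem cauchy_of_fam (hc : ∀ k, Continuous (ρ k)) (h0 : ∀ k z, 0 ≤ ρ k z)
    (h : ∀ j R, ∃ c, Tendsto (fun k => ∫ z, fam j R z * ρ k z) atTop (𝓝 c))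
    {φ : ℂ → ℝ} (h1 : Continuous φ) (h2 : HasCompactSupport φ) :
    ∃ c, Tendsto (fun k => ∫ z, φ z * ρ k z) atTop (𝓝 c) := by
  obtain ⟨R, hR⟩ := fam_approx h1 h2
  obtain ⟨A, hA⟩ := h 0 R
  refine cauchySeq_tendsto_of_complete (Metric.cauchySeq_iff.2 fun ε hε => ?_)
  have hδ : 0 < ε / (4 * (|A| + 1)) := by positivity
  obtain ⟨j, hj⟩ := hR _ hδ
  obtain ⟨c, hc'⟩ := h j R
  obtain ⟨N1, hN1⟩ := Metric.cauchySeq_iff.1 hc'.cauchySeq (ε / 2) (by positivity)
  obtain ⟨N2, hN2⟩ := eventually_atTop.1 (hA.eventually (gt_mem_nhds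
    (show A < |A| + 1 by linarith [le_abs_self A])))
  have hb : ∀ k, N2 ≤ k → |(∫ z, φ z * ρ k z) - ∫ z, fam j R z * ρ k z| ≤ ε / 4 := by
    intro k hk
    refine (abs_integral_sub_le volume (integrable_mul h1 h2 (hc k) _)
      (integrable_mul (fam_cont j R) (fam_supp j R) (hc k) _)
      (integrable_mul (fam_cont 0 R) (fam_supp 0 R) (hc k) _) (h0 k) hj).trans ?_
    calc ε / (4 * (|A| + 1)) * ∫ z, fam 0 R z * ρ k z ≤ ε / (4 * (|A| + 1)) * (|A| + 1) :=
          mul_le_mul_of_nonneg_left (hN2 k hk).le hδ.le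
      _ = ε / 4 := by field_simp
  refine ⟨max N1 N2, fun m hm n hn => ?_⟩
  have a1 := hN1 m (le_of_max_le_left hm) n (le_of_max_le_left hn)
  have a2 := abs_le.1 (hb m (le_of_max_le_right hm))
  have a3 := abs_le.1 (hb n (le_of_max_le_right hn))
  rw [Real.dist_eq] at a1 ⊢
  have a1 := abs_lt.1 a1
  rw [abs_lt]
  constructor <;> linarith [a1.1, a1.2, a2.1, a2.2, a3.1, a3.2]

/-- If the countable family converges, a vague limit exists (Riesz). -/
theorem exists_vl (hc : ∀ k, Continuous (ρ k)) (h0 : ∀ k z, 0 ≤ ρ k z)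
    (h : ∀ j R, ∃ c, Tendsto (fun k => ∫ z, fam j R z * ρ k z) atTop (𝓝 c)) : ∃ ν, VL ρ ν := by
  have hex : ∀ f : C_c(ℂ, ℝ), ∃ c, Tendsto (fun k => ∫ z, f z * ρ k z) atTop (𝓝 c) :=
    fun f => cauchy_of_fam hc h0 h f.continuous f.hasCompactSupport
  choose L hL using hex
  have hi : ∀ (f : C_c(ℂ, ℝ)) k, Integrable (fun z => f z * ρ k z) :=
    fun f k => integrable_mul f.continuous f.hasCompactSupport (hc k) _
  let Λ₀ : C_c(ℂ, ℝ) →ₗ[ℝ] ℝ :=
    { toFun := L
      map_add' := fun f g => by
        refine tendsto_nhds_unique (hL (f + g)) (((hL f).add (hL g)).congr fun k => ?_)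
        rw [← integral_add (hi f k) (hi g k)]
        refine integral_congr_ae (Eventually.of_forall fun z => ?_)
        simp [add_mul]
      map_smul' := fun a f => by
        refine tendsto_nhds_unique (hL (a • f)) (((hL f).const_mul a).congr fun k => ?_)
        rw [← integral_const_mul]
        refine integral_congr_ae (Eventually.of_forall fun z => ?_)
        simp [mul_assoc] }
  let Λ : C_c(ℂ, ℝ) →ₚ[ℝ] ℝ := PositiveLinearMap.mk₀ Λ₀ fun f hf =>
    ge_of_tendsto' (hL f) fun k => integral_nonneg fun z => mul_nonneg (hf z) (h0 k z)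
  refine ⟨RealRMK.rieszMeasure Λ, inferInstance, fun φ h1 h2 => ?_⟩
  let f : C_c(ℂ, ℝ) := ⟨⟨φ, h1⟩, h2⟩
  have := RealRMK.integral_rieszMeasure Λ f
  have e : ∫ z, φ z ∂(RealRMK.rieszMeasure Λ) = L f := this
  rw [e]
  exact hL f

/-- Countable criterion for vague convergence. -/
theorem vl_of_fam (hc : ∀ k, Continuous (ρ k)) (h0 : ∀ k z, 0 ≤ ρ k z)
    (hν : IsLocallyFiniteMeasure ν)
    (h : ∀ j R, Tendsto (fun k => ∫ z, fam j R z * ρ k z) atTop (𝓝 (∫ z, fam j R z ∂ν))) :
    VL ρ ν := by
  obtain ⟨ν', h'⟩ := exists_vl hc h0 fun j R => ⟨_, h j R⟩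
  have := h'.fin
  have e : ∀ j R, ∫ z, fam j R z ∂ν = ∫ z, fam j R z ∂ν' := fun j R =>
    tendsto_nhds_unique (h j R) (h'.lim _ (fam_cont j R) (fam_supp j R))
  suffices ν = ν' by rwa [this]
  refine Measure.ext_of_integral_eq_on_compactlySupported fun f => ?_
  obtain ⟨R, hR⟩ := fam_approx f.continuous f.hasCompactSupport
  refine eq_of_abs_sub_nonpos (le_of_forall_pos_le_add fun ε hε => ?_)
  set A := ∫ z, fam 0 R z ∂ν' with hA
  have hδ : 0 < ε / (2 * (|A| + 1)) := by positivity
  obtain ⟨j, hj⟩ := hR _ hδ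
  have hb : ∀ (m : Measure ℂ) [IsLocallyFiniteMeasure m], ∫ z, fam 0 R z ∂m = A →
      |(∫ z, f z ∂m) - ∫ z, fam j R z ∂m| ≤ ε / 2 := by
    intro m _ hm
    have := abs_integral_sub_le (r := fun _ => 1) m
      (integrable_mul f.continuous f.hasCompactSupport continuous_const _)
      (integrable_mul (fam_cont j R) (fam_supp j R) continuous_const _)
      (integrable_mul (fam_cont 0 R) (fam_supp 0 R) continuous_const _) (fun _ => zero_le_one) hj
    simp only [mul_one, hm] at this
    refine this.trans ?_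
    calc ε / (2 * (|A| + 1)) * A ≤ ε / (2 * (|A| + 1)) * (|A| + 1) :=
          mul_le_mul_of_nonneg_left (by linarith [le_abs_self A]) hδ.le
      _ = ε / 2 := by field_simp
  have a1 := abs_le.1 (hb ν (e 0 R))
  have a2 := abs_le.1 (hb ν' rfl)
  have a3 := e j R
  rw [zero_add, abs_le]
  constructor <;> linarith [a1.1, a1.2, a2.1, a2.2]

section param

variable {α : Type*} [MeasurableSpace α] {r : α → ℕ → ℂ → ℝ}

theorem measurable_uncurry_of {f : α → ℂ → ℝ} (hc : ∀ a, Continuous (f a))
    (hm : ∀ z, Measurable fun a => f a z) : Measurable fun p : α × ℂ => f p.1 p.2 :=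
  (measurable_uncurry_of_continuous_of_measurable (u := fun z a => f a z) hc hm).comp
    measurable_swap

theorem measurable_integral_mul (hc : ∀ a k, Continuous (r a k))
    (hm : ∀ k z, Measurable fun a => r a k z) {φ : ℂ → ℝ} (h1 : Continuous φ) (k : ℕ) :
    Measurable fun a => ∫ z, φ z * r a k z := by
  have : Measurable fun p : α × ℂ => φ p.2 * r p.1 k p.2 :=
    (h1.measurable.comp measurable_snd).mul (measurable_uncurry_of (fun a => hc a k) (hm k))
  exact (this.stronglyMeasurable.integral_prod_right' (ν := volume)).measurable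

theorem measurableSet_exists_vl (hc : ∀ a k, Continuous (r a k)) (h0 : ∀ a k z, 0 ≤ r a k z)
    (hm : ∀ k z, Measurable fun a => r a k z) : MeasurableSet {a | ∃ ν, VL (r a) ν} := by
  have : {a | ∃ ν, VL (r a) ν} =
      ⋂ j, ⋂ R, {a | ∃ c, Tendsto (fun k => ∫ z, fam j R z * r a k z) atTop (𝓝 c)} := by
    ext a
    simp only [mem_ofPred_eq, mem_iInter]
    exact ⟨fun ⟨ν, h⟩ j R => ⟨_, h.lim _ (fam_cont j R) (fam_supp j R)⟩,
      exists_vl (hc a) (h0 a)⟩
  rw [this]
  exact MeasurableSet.iInter fun j => MeasurableSet.iInter fun R =>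
    measurableSet_exists_tendsto fun k => measurable_integral_mul hc hm (fam_cont j R) k

/-- The vague limit has a measurable version. -/
theorem exists_version (hc : ∀ a k, Continuous (r a k)) (h0 : ∀ a k z, 0 ≤ r a k z)
    (hm : ∀ k z, Measurable fun a => r a k z) :
    ∃ F : α → Measure ℂ, Measurable F ∧ ∀ a ν, VL (r a) ν → F a = ν := by
  classical
  let F : α → Measure ℂ := fun a => if h : ∃ ν, VL (r a) ν then h.choose else 0
  have hF : ∀ a ν, VL (r a) ν → F a = ν := by
    intro a ν h
    have h' : ∃ ν, VL (r a) ν := ⟨ν, h⟩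
    simp only [F, dif_pos h']
    exact h'.choose_spec.unique h
  have hF0 : ∀ a, ¬ (∃ ν, VL (r a) ν) → F a = 0 := fun a h => by simp only [F, dif_neg h]
  refine ⟨F, measurable_of_integral (fun a => ?_) fun φ h1 h2 => ?_, hF⟩
  · by_cases h : ∃ ν, VL (r a) ν
    · obtain ⟨ν, h⟩ := h
      rw [hF a ν h]; exact h.fin
    · rw [hF0 a h]; infer_instance
  · refine measurable_of_tendsto_metrizable
      (f := fun k => indicator {a | ∃ ν, VL (r a) ν} fun a => ∫ z, φ z * r a k z)
      (fun k => (measurable_integral_mul hc hm h1 k).indicator (measurableSet_exists_vl hc h0 hm))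
      (tendsto_pi_nhds.2 fun a => ?_)
    by_cases h : ∃ ν, VL (r a) ν
    · simp only [indicator_of_mem (show a ∈ {a | ∃ ν, VL (r a) ν} from h)]
      obtain ⟨ν, h⟩ := h
      rw [hF a ν h]; exact h.lim φ h1 h2
    · simp only [indicator_of_notMem (show a ∉ {a | ∃ ν, VL (r a) ν} from h), hF0 a h,
        integral_zero_measure]
      exact tendsto_const_nhds

theorem locFin_iff (ν : Measure ℂ) :
    IsLocallyFiniteMeasure ν ↔ ∀ R : ℕ, ν (Metric.ball 0 R) < ∞ := by
  refine ⟨fun h R => measure_ball_lt_top, fun h => ⟨fun z => ?_⟩⟩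
  obtain ⟨R, hR⟩ := exists_nat_gt ‖z‖
  exact ⟨Metric.ball 0 R, Metric.isOpen_ball.mem_nhds (mem_ball_zero_iff.2 hR), h R⟩

/-- The set of parameters where `m a` is the vague limit of `r a` is measurable. -/
theorem measurableSet_vl (hc : ∀ a k, Continuous (r a k)) (h0 : ∀ a k z, 0 ≤ r a k z)
    (hm : ∀ k z, Measurable fun a => r a k z) {m : α → Measure ℂ} (hmm : Measurable m) :
    MeasurableSet {a | VL (r a) (m a)} := by
  have hint : ∀ (ν : Measure ℂ) [IsLocallyFiniteMeasure ν] (j R : ℕ), ∫ z, fam j R z ∂ν =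
      (∫⁻ z, ENNReal.ofReal (fam j R z) ∂ν).toReal -
        (∫⁻ z, ENNReal.ofReal (-fam j R z) ∂ν).toReal := fun ν _ j R =>
    integral_eq_lintegral_pos_part_sub_lintegral_neg_part
      ((fam_cont j R).integrable_of_hasCompactSupport (fam_supp j R))
  have : {a | VL (r a) (m a)} = (⋂ R : ℕ, {a | m a (Metric.ball 0 R) < ∞}) ∩
      ⋂ j, ⋂ R, {a | Tendsto (fun k => ∫ z, fam j R z * r a k z) atTop
        (𝓝 ((∫⁻ z, ENNReal.ofReal (fam j R z) ∂m a).toReal -
          (∫⁻ z, ENNReal.ofReal (-fam j R z) ∂m a).toReal))} := by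
    ext a
    simp only [mem_ofPred_eq, mem_iInter, mem_inter_iff, ← locFin_iff]
    constructor
    · intro h
      have := h.fin
      refine ⟨h.fin, fun j R => ?_⟩
      rw [← hint]; exact h.lim _ (fam_cont j R) (fam_supp j R)
    · rintro ⟨h1, h2⟩
      refine vl_of_fam (hc a) (h0 a) h1 fun j R => ?_
      rw [hint]; exact h2 j R
  rw [this]
  refine (MeasurableSet.iInter fun R => ?_).inter
    (MeasurableSet.iInter fun j => MeasurableSet.iInter fun R => ?_)
  · exact measurableSet_lt ((Measure.measurable_coe measurableSet_ball).comp hmm) measurable_const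
  · refine measurableSet_tendsto_fun (fun k => measurable_integral_mul hc hm (fam_cont j R) k) ?_
    exact (((Measure.measurable_lintegral (fam_cont j R).measurable.ennreal_ofReal).comp
      hmm).ennreal_toReal).sub (((Measure.measurable_lintegral
      (fam_cont j R).measurable.neg.ennreal_ofReal).comp hmm).ennreal_toReal)

theorem measurable_restrict {m : α → Measure ℂ} (hm : Measurable m) {A : Set ℂ}
    (hA : MeasurableSet A) : Measurable fun a => (m a).restrict A := by
  refine Measure.measurable_of_measurable_coe _ fun s hs => ?_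
  simp only [Measure.restrict_apply hs]
  exact (Measure.measurable_coe (hs.inter hA)).comp hm

/-- Locality: the restriction of the vague limit to an open set `U` is a measurable function of
the densities at points of `U` (for large `k`, depending on the compact set). -/
theorem exists_local_version (hc : ∀ a k, Continuous (r a k)) (h0 : ∀ a k z, 0 ≤ r a k z)
    {U : Set ℂ} (hU : IsOpen U)
    (hm : ∀ K, IsCompact K → K ⊆ U → ∃ k₀, ∀ k, k₀ ≤ k → ∀ z ∈ K, Measurable fun a => r a k z) :
    ∃ F : α → Measure ℂ, Measurable F ∧ ∀ a ν, VL (r a) ν → F a = ν.restrict U := by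
  obtain ⟨C, hC1, hC2, hC3, hC4⟩ := hU.exists_iUnion_isClosed
  let K : ℕ → Set ℂ := fun n => C n ∩ Metric.closedBall 0 n
  have hK : ∀ n, IsCompact (K n) := fun n => (isCompact_closedBall _ _).inter_left (hC1 n)
  have hKU : ∀ n, K n ⊆ U := fun n => inter_subset_left.trans (hC2 n)
  have hun : ⋃ n, K n = U := by
    refine Subset.antisymm (iUnion_subset hKU) fun z hz => ?_
    rw [← hC3] at hz
    obtain ⟨n, hn⟩ := mem_iUnion.1 hz
    obtain ⟨N, hN⟩ := exists_nat_ge ‖z‖
    refine mem_iUnion.2 ⟨max n N, hC4 (le_max_left _ _) hn, ?_⟩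
    rw [mem_closedBall_zero_iff]
    exact hN.trans (by exact_mod_cast le_max_right _ _)
  have hKm : ∀ n, MeasurableSet (K n) := fun n => (hK n).measurableSet
  have key : ∀ n, ∃ F : α → Measure ℂ, Measurable F ∧
      ∀ a ν, VL (r a) ν → F a = ν.restrict (disjointed K n) := by
    intro n
    obtain ⟨φ, h1, h2, h3, h4, h5, -⟩ := exists_bump (hK n) hU (hKU n)
    obtain ⟨k₀, hk₀⟩ := hm _ h2 h3
    obtain ⟨F, hF, hF'⟩ := exists_version (r := fun a k z => φ z * r a (k + k₀) z)
      (fun a k => h1.mul (hc a _)) (fun a k z => mul_nonneg (h5 z) (h0 a _ z)) (fun k z => by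
        by_cases hz : z ∈ tsupport φ
        · exact (hk₀ _ (Nat.le_add_left _ _) z hz).const_mul _
        · simp only [image_eq_zero_of_notMem_tsupport hz, zero_mul]
          exact measurable_const)
    have hA : MeasurableSet (disjointed K n) := MeasurableSet.disjointed hKm n
    refine ⟨fun a => (F a).restrict (disjointed K n), measurable_restrict hF hA, fun a ν h => ?_⟩
    show (F a).restrict (disjointed K n) = _
    rw [hF' a _ ((h.shift k₀).mul_fixed h1 h5), restrict_withDensity hA]
    have : (fun z => ENNReal.ofReal (φ z)) =ᵐ[ν.restrict (disjointed K n)] 1 := by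
      filter_upwards [ae_restrict_mem hA] with z hz
      simp [h4 z (disjointed_subset K n hz)]
    rw [withDensity_congr_ae this, withDensity_one]
  choose F hF hF' using key
  refine ⟨fun a => Measure.sum fun n => F n a, ?_, fun a ν h => ?_⟩
  · refine Measure.measurable_of_measurable_coe _ fun s hs => ?_
    simp only [Measure.sum_apply _ hs]
    exact Measurable.tsum fun n => (Measure.measurable_coe hs).comp (hF n)
  · show (Measure.sum fun n => F n a) = _
    simp only [fun n => hF' n a ν h]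
    rw [← Measure.restrict_iUnion (disjoint_disjointed K) (MeasurableSet.disjointed hKm),
      iUnion_disjointed, hun]

end param

end Pool.Agent.Lib.MP_0d9445_pr.Mu
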