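import Pool.Agent.Lib.MP_0d9445_pr.Mu.Weight

/-! Uniform moments of the approximate masses (module MU). -/

open MeasureTheory ProbabilityTheory Filter Topology Set Real
open scoped ENNReal NNReal

namespace Pool.Agent.Lib.MP_0d9445_pr.Mu

open CR

/-- the mass of `A` for the `k`-th approximation -/
noncomputable def apx (γ : ℝ) (k : ℕ) (A : Set ℂ) (H : Field) : ℝ≥0∞ :=
  ∫⁻ z in A, ENNReal.ofReal (den γ H k z)

theorem measurable_den (γ : ℝ) (k : ℕ) :
    Measurable fun p : Field × ℂ => ENNReal.ofReal (den γ p.1 k p.2) :=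
  (measurable_uncurry_of (f := fun H z => den γ H k z) (fun H => den_cont γ H k)
    (den_meas γ k)).ennreal_ofReal

theorem measurable_apx (γ : ℝ) (k : ℕ) (A : Set ℂ) : Measurable (apx γ k A) :=
  (measurable_den γ k).lintegral_prod_right' (ν := volume.restrict A)

theorem apx_mono (γ : ℝ) (k : ℕ) {A B : Set ℂ} (h : A ⊆ B) (H : Field) :
    apx γ k A H ≤ apx γ k B H := lintegral_mono_set h

theorem apx_biUnion_le (γ : ℝ) (k : ℕ) {ι : Type*} (s : Finset ι) (A : ι → Set ℂ) (H : Field) :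
    apx γ k (⋃ i ∈ s, A i) H ≤ ∑ i ∈ s, apx γ k (A i) H := by
  have e' : ∀ B, apx γ k B H = (volume.withDensity fun z => ENNReal.ofReal (den γ H k z)) B :=
    fun B => (withDensity_apply' _ B).symm
  simp only [e']
  exact measure_biUnion_finset_le _ _

theorem measurable_setLIntegral_local {α : Type*} [MeasurableSpace α] {f : α → ℂ → ℝ}
    (hc : ∀ a, Continuous (f a)) {A : Set ℂ} (hA : MeasurableSet A)
    (hm : ∀ z ∈ A, Measurable fun a => f a z) :
    Measurable fun a => ∫⁻ z in A, ENNReal.ofReal (f a z) := by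
  have h1 : Measurable fun p : α × A => ENNReal.ofReal (f p.1 p.2) :=
    ((measurable_uncurry_of_continuous_of_measurable (u := fun (z : A) a => f a z)
      (fun a => (hc a).comp continuous_subtype_val) fun z => hm z z.2).comp
      measurable_swap).ennreal_ofReal
  have : SigmaFinite ((volume : Measure ℂ).comap (Subtype.val : A → ℂ)) :=
    SigmaFinite.of_map _ measurable_subtype_coe.aemeasurable
      (by rw [map_comap_subtype_coe hA]; infer_instance)
  have h2 := h1.lintegral_prod_right' (ν := (volume : Measure ℂ).comap Subtype.val)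
  convert h2 using 2 with a
  exact (lintegral_subtype_comap hA fun z => ENNReal.ofReal (f a z)).symm

theorem measurable_apx_local (γ : ℝ) (k : ℕ) {A B : Set ℂ} (hA : MeasurableSet A)
    (h : ∀ z ∈ A, Metric.closedBall z (sc k) ⊆ B) :
    Measurable[sigmaOn (id : Field → Field) B] (apx γ k A) := by
  refine @measurable_setLIntegral_local Field (sigmaOn (id : Field → Field) B)
    (fun H z => den γ H k z) (fun H => den_cont γ H k) A hA fun z hz => ?_
  have hsub : Metric.closedBall z (exp (-((k : ℝ) * log 2))) ⊆ B := by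
    rw [exp_neg_log_two]; exact h z hz
  have hm : Measurable[sigmaOn (id : Field → Field) B]
      fun H : Field => H ((k : ℝ) * log 2, z) := by
    rw [measurable_iff_comap_le]
    exact le_iSup₂_of_le (f := fun (p : ℝ × ℂ) (_ : Metric.closedBall p.2 (exp (-p.1)) ⊆ B) =>
      MeasurableSpace.comap (fun ω : Field => (id ω : Field) p) inferInstance)
      ((k : ℝ) * log 2, z) hsub le_rfl
  unfold den
  exact ((hm.const_mul γ).sub_const _).exp

theorem apx_addFn_le {γ : ℝ} (hγ : 0 ≤ γ) (k : ℕ) {A : Set ℂ} (hA : MeasurableSet A) (H : Field)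
    (f : Fn) {M : ℝ} (h : ∀ z ∈ A, ∀ w ∈ Metric.closedBall z (sc k), f w ≤ M) :
    apx γ k A (addFn H f) ≤ ENNReal.ofReal (exp (γ * M)) * apx γ k A H := by
  unfold apx
  rw [← lintegral_const_mul' _ _ ENNReal.ofReal_ne_top]
  refine setLIntegral_mono' hA fun z hz => ?_
  rw [den_addFn, ← ENNReal.ofReal_mul (exp_pos _).le]
  refine ENNReal.ofReal_le_ofReal (mul_le_mul_of_nonneg_right (exp_le_exp.2
    (mul_le_mul_of_nonneg_left ?_ hγ)) (den_nonneg _ _ _ _))
  refine avg_le f.continuous (p := ((k : ℝ) * log 2, z)) fun w hw => h z hz w ?_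
  rwa [exp_neg_log_two] at hw

theorem apx_affine (γ : ℝ) (k d : ℕ) {a : ℂ} (ha : ‖a‖ = (2 : ℝ) ^ (-(d : ℤ))) (b : ℂ)
    {A : Set ℂ} (hA : MeasurableSet A) (H : Field) :
    apx γ (k + d) ((fun z => a * z + b) '' A) H =
      ENNReal.ofReal (exp (-((2 + γ ^ 2 / 2) * (d * log 2)))) * apx γ k A (affine 0 a b H) := by
  have ha0 : a ≠ 0 := by rw [← norm_pos_iff, ha]; positivity
  have hl : log ‖a‖ = -(d * log 2) := by rw [ha, log_two_zpow]; simp
  have him : MeasurableSet ((fun z => a * z + b) '' A) :=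
    (aff a b ha0).measurableEmbedding.measurableSet_image.2 hA
  unfold apx
  rw [← lintegral_indicator him, ← lintegral_aff ha0 b, ← lintegral_indicator hA,
    ← lintegral_const_mul' _ _ ENNReal.ofReal_ne_top,
    ← lintegral_const_mul' _ _ ENNReal.ofReal_ne_top]
  refine lintegral_congr fun z => ?_
  have hinj : Function.Injective fun z : ℂ => a * z + b := (aff a b ha0).injective
  by_cases hz : z ∈ A
  · rw [indicator_of_mem hz, indicator_of_mem (mem_image_of_mem _ hz),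
      ← ENNReal.ofReal_mul (by positivity), ← ENNReal.ofReal_mul (exp_pos _).le]
    have h2 : ‖a‖ ^ 2 = exp (2 * log ‖a‖) := by
      rw [show (2 : ℝ) * log ‖a‖ = (2 : ℕ) * log ‖a‖ by norm_num, exp_nat_mul,
        exp_log (norm_pos_iff.2 ha0)]
    simp only [den, affine, ContinuousMap.coe_mk]
    rw [h2, ← exp_add, ← exp_add]
    have e : (k : ℝ) * log 2 - log ‖a‖ = ((k + d : ℕ) : ℝ) * log 2 := by
      push_cast; rw [hl]; ring
    rw [e, hl]
    congr 2
    push_cast; ring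
  · rw [indicator_of_notMem hz, indicator_of_notMem (fun h => hz (hinj.mem_set_image.1 h))]
    simp

/-! ### Dyadic boxes -/

theorem sc_pos (n : ℕ) : 0 < sc n := by unfold sc; positivity

theorem sc_eq (n : ℕ) : sc n = (2 : ℝ) ^ (-(n : ℤ)) := by
  rw [sc, zpow_neg, zpow_natCast, inv_pow]

theorem sc_anti {m n : ℕ} (h : m ≤ n) : sc n ≤ sc m :=
  pow_le_pow_of_le_one (by norm_num) (by norm_num) h

theorem dy_eq_sc (n : ℕ) : dy n 0 = (sc n : ℂ) := by
  rw [dy_zero, sc_eq]; push_cast; rfl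

theorem measurableSet_box (n : ℕ) (v : ℤ × ℤ) : MeasurableSet (box n v) := by
  unfold box
  measurability

/-- lower left corner -/
noncomputable def cor (n : ℕ) (v : ℤ × ℤ) : ℂ := ⟨sc n * v.1, sc n * v.2⟩

theorem box_eq_image (n : ℕ) (v : ℤ × ℤ) :
    box n v = (fun z => dy n 0 * z + cor n v) '' box 0 0 := by
  have hs := sc_pos n
  have h0 : sc 0 = 1 := by simp [sc]
  ext w
  simp only [box, mem_image, mem_ofPred_eq, h0, dy_eq_sc, Prod.fst_zero, Prod.snd_zero,
    Int.cast_zero, mul_zero, zero_add, mul_one]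
  constructor
  · rintro ⟨h1, h2, h3, h4⟩
    refine ⟨⟨w.re / sc n - v.1, w.im / sc n - v.2⟩, ⟨?_, ?_, ?_, ?_⟩, ?_⟩
    · rw [sub_nonneg, le_div_iff₀ hs]; linarith
    · rw [sub_lt_iff_lt_add, div_lt_iff₀ hs]; linarith
    · rw [sub_nonneg, le_div_iff₀ hs]; linarith
    · rw [sub_lt_iff_lt_add, div_lt_iff₀ hs]; linarith
    · apply Complex.ext <;> simp [cor] <;> field_simp <;> ring
  · rintro ⟨z, ⟨h1, h2, h3, h4⟩, rfl⟩
    simp only [cor, Complex.add_re, Complex.add_im, Complex.re_ofReal_mul, Complex.im_ofReal_mul]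
    refine ⟨?_, ?_, ?_, ?_⟩ <;> nlinarith

theorem mem_box_idx (n : ℕ) (z : ℂ) : z ∈ box n (idx n z) := by
  have hs := sc_pos n
  have a1 := Int.floor_le (z.re / sc n)
  have a2 := Int.lt_floor_add_one (z.re / sc n)
  have a3 := Int.floor_le (z.im / sc n)
  have a4 := Int.lt_floor_add_one (z.im / sc n)
  rw [le_div_iff₀ hs] at a1 a3
  rw [div_lt_iff₀ hs] at a2 a4
  exact ⟨by simp only [idx]; linarith, by simp only [idx]; linarith,
    by simp only [idx]; linarith, by simp only [idx]; linarith⟩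

theorem abs_sub_ctr {n : ℕ} {v : ℤ × ℤ} {z : ℂ} (h : z ∈ box n v) :
    |z.re - (ctr n v).re| ≤ sc n / 2 ∧ |z.im - (ctr n v).im| ≤ sc n / 2 := by
  obtain ⟨h1, h2, h3, h4⟩ := h
  simp only [ctr, abs_le]
  refine ⟨⟨?_, ?_⟩, ?_, ?_⟩ <;> linarith

theorem norm_sub_ctr {n : ℕ} {v : ℤ × ℤ} {z : ℂ} (h : z ∈ box n v) : ‖z - ctr n v‖ ≤ sc n := by
  have := Complex.norm_le_abs_re_add_abs_im (z - ctr n v)
  rw [Complex.sub_re, Complex.sub_im] at this
  linarith [(abs_sub_ctr h).1, (abs_sub_ctr h).2]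

theorem box_zero_subset (d : ℕ) : box 0 0 ⊆ ⋃ v ∈ kids d 0, box d v := by
  intro z hz
  refine mem_iUnion₂.2 ⟨idx d z, ?_, mem_box_idx d z⟩
  have h0 : sc 0 = 1 := by simp [sc]
  simp only [box, mem_ofPred_eq, h0, Prod.fst_zero, Prod.snd_zero, Int.cast_zero, mul_zero,
    zero_add, mul_one] at hz
  obtain ⟨h1, h2, h3, h4⟩ := hz
  have hs := sc_pos d
  have e : (1 : ℝ) = 2 ^ d * sc d := by simp [sc]
  simp only [kids, idx, Prod.fst_zero, Prod.snd_zero, mul_zero, zero_add, mul_one,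
    Finset.mem_product, Finset.mem_Ico, Int.floor_nonneg, Int.floor_lt]
  push_cast
  rw [div_lt_iff₀ hs, div_lt_iff₀ hs, ← e]
  exact ⟨⟨div_nonneg h1 hs.le, h2⟩, div_nonneg h3 hs.le, h4⟩

theorem card_kids (d : ℕ) : (kids d 0).card = 4 ^ d := by
  have : ((2 : ℤ) ^ d).toNat = 2 ^ d := by
    rw [show (2 : ℤ) ^ d = ((2 ^ d : ℕ) : ℤ) by push_cast; rfl, Int.toNat_natCast]
  simp only [kids, Prod.fst_zero, Prod.snd_zero, mul_zero, zero_add, mul_one, Finset.card_product,
    Int.card_Ico, sub_zero, this]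
  rw [← mul_pow]; norm_num

theorem card_nbh (R : ℕ) (v : ℤ × ℤ) : (nbh R v).card = (2 * R + 1) ^ 2 := by
  have e : ∀ a : ℤ, (a + R + 1 - (a - R)).toNat = 2 * R + 1 := fun a => by omega
  simp only [nbh, Finset.card_product, Int.card_Icc, e]
  ring

theorem volume_box_zero : volume (box 0 0) ≤ 4 := by
  have h : box 0 0 ⊆ Metric.closedBall (ctr 0 0) 1 := fun z hz => by
    have := norm_sub_ctr hz
    rw [mem_closedBall_iff_norm]
    simpa [sc] using this
  refine (measure_mono h).trans ?_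
  rw [Complex.volume_closedBall]
  simp only [ENNReal.ofReal_one, one_pow, one_mul]
  have : NNReal.pi ≤ 4 := by
    rw [← NNReal.coe_le_coe]; exact Real.pi_le_four
  exact_mod_cast this

/-! ### Elementary inequalities -/

theorem rpow_sum_le {ι : Type*} (s : Finset ι) (a : ι → ℝ≥0∞) {q : ℝ} (h0 : 0 < q) (h1 : q ≤ 1) :
    (∑ i ∈ s, a i) ^ q ≤ ∑ i ∈ s, a i ^ q := by
  classical
  induction s using Finset.induction_on with
  | empty => simp [ENNReal.zero_rpow_of_pos h0]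
  | insert i s hi ih =>
    rw [Finset.sum_insert hi, Finset.sum_insert hi]
    exact (ENNReal.rpow_add_le_add_rpow _ _ h0.le h1).trans (add_le_add le_rfl ih)

theorem sum_rpow_le_pairs {ι : Type*} (s : Finset ι) (a : ι → ℝ≥0∞) {p : ℝ} (h0 : 0 < p)
    (h2 : p ≤ 2) : (∑ i ∈ s, a i) ^ p ≤ ∑ i ∈ s, ∑ j ∈ s, (a i * a j) ^ (p / 2) := by
  have e : (∑ i ∈ s, a i) ^ p = (∑ i ∈ s, ∑ j ∈ s, a i * a j) ^ (p / 2) := by
    rw [← Finset.sum_mul_sum, ← sq, ← ENNReal.rpow_natCast, ← ENNReal.rpow_mul]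
    congr 1; push_cast; ring
  rw [e]
  refine (rpow_sum_le _ _ (by positivity) (by linarith)).trans (Finset.sum_le_sum fun i _ => ?_)
  exact rpow_sum_le _ _ (by positivity) (by linarith)

theorem mul_rpow_half_le (a b : ℝ≥0∞) {p : ℝ} (h0 : 0 < p) :
    (a * b) ^ (p / 2) ≤ a ^ p + b ^ p := by
  have key : ∀ a b : ℝ≥0∞, a ≤ b → (a * b) ^ (p / 2) ≤ b ^ p := by
    intro a b hab
    calc (a * b) ^ (p / 2) ≤ (b * b) ^ (p / 2) := by gcongr
      _ = b ^ p := by
        rw [← sq, ← ENNReal.rpow_natCast, ← ENNReal.rpow_mul]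
        congr 1; push_cast; ring
  rcases le_total a b with h | h
  · exact (key a b h).trans le_add_self
  · rw [mul_comm]; exact (key b a h).trans le_self_add

theorem rpow_le_one_add (x : ℝ≥0∞) {q : ℝ} (h0 : 0 ≤ q) (h1 : q ≤ 1) : x ^ q ≤ 1 + x := by
  rcases le_total x 1 with h | h
  · exact (ENNReal.rpow_le_one h h0).trans le_self_add
  · calc x ^ q ≤ x ^ (1 : ℝ) := ENNReal.rpow_le_rpow_of_exponent_le h h1
      _ = x := ENNReal.rpow_one x
      _ ≤ 1 + x := le_add_self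

theorem ofReal_exp_rpow (x : ℝ) {p : ℝ} (hp : 0 ≤ p) :
    ENNReal.ofReal (exp x) ^ p = ENNReal.ofReal (exp (p * x)) := by
  rw [ENNReal.ofReal_rpow_of_nonneg (exp_pos _).le hp, ← exp_mul, mul_comm]

variable (L : Layers)

/-! ### Gaussian moments of the density -/

theorem lintegral_exp_H (p : ℝ × ℂ) (s : ℝ) :
    ∫⁻ ω, ENNReal.ofReal (exp (s * L.H 0 ω p)) ∂L.P =
      ENNReal.ofReal (exp (Var[fun ω => L.H 0 ω p; L.P] * s ^ 2 / 2)) := by
  have hg := (L.gproc.hasGaussianLaw_eval (Sum.inr (0, p))).map_eq_gaussianReal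
  have hm : Measurable fun ω => L.H 0 ω p := (measurable_eval p).comp (L.meas_H 0)
  have hg' : L.P.map (fun ω => L.H 0 ω p) =
      gaussianReal (∫ ω, L.H 0 ω p ∂L.P) (Var[fun ω => L.H 0 ω p; L.P]).toNNReal := hg
  rw [L.mean_H] at hg'
  rw [lintegral_exp_gauss hm hg' s, Real.coe_toNNReal _ (variance_nonneg _ _)]

theorem lintegral_den_rpow (γ : ℝ) {q : ℝ} (hq : 0 ≤ q) (k : ℕ) (z : ℂ) :
    ∫⁻ ω, ENNReal.ofReal (den γ (L.H 0 ω) k z) ^ q ∂L.P =
      ENNReal.ofReal (exp (Var[fun ω => L.H 0 ω (k * log 2, z); L.P] * (q * γ) ^ 2 / 2 -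
        q * (γ ^ 2 / 2 * (k * log 2)))) := by
  have e : ∀ ω, ENNReal.ofReal (den γ (L.H 0 ω) k z) ^ q =
      ENNReal.ofReal (exp (-(q * (γ ^ 2 / 2 * (k * log 2))))) *
        ENNReal.ofReal (exp (q * γ * L.H 0 ω (k * log 2, z))) := by
    intro ω
    rw [den, ofReal_exp_rpow _ hq, ← ENNReal.ofReal_mul (exp_pos _).le, ← exp_add]
    congr 2; ring
  simp only [e]
  rw [lintegral_const_mul' _ _ ENNReal.ofReal_ne_top, lintegral_exp_H,
    ← ENNReal.ofReal_mul (exp_pos _).le, ← exp_add]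
  congr 2; ring

theorem exists_den_one (γ : ℝ) : ∃ C : ℝ, ∀ (k : ℕ) (z : ℂ),
    ENNReal.ofReal (exp (-C)) ≤ ∫⁻ ω, ENNReal.ofReal (den γ (L.H 0 ω) k z) ∂L.P ∧
    ∫⁻ ω, ENNReal.ofReal (den γ (L.H 0 ω) k z) ∂L.P ≤ ENNReal.ofReal (exp C) := by
  obtain ⟨C, hC⟩ := L.var_H
  refine ⟨C * γ ^ 2 / 2, fun k z => ?_⟩
  have h := lintegral_den_rpow L γ zero_le_one k z
  simp only [ENNReal.rpow_one, one_mul] at h
  have hv := abs_le.1 (hC (k * log 2) (by have := log_nonneg one_le_two; positivity) z)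
  rw [h]
  constructor <;> refine ENNReal.ofReal_le_ofReal (exp_le_exp.2 ?_) <;>
    nlinarith [hv.1, hv.2, sq_nonneg γ]

theorem lintegral_apx (γ : ℝ) (k : ℕ) (A : Set ℂ) :
    ∫⁻ ω, apx γ k A (L.H 0 ω) ∂L.P =
      ∫⁻ z in A, ∫⁻ ω, ENNReal.ofReal (den γ (L.H 0 ω) k z) ∂L.P :=
  lintegral_lintegral_swap ((measurable_den γ k).comp
    (((L.meas_H 0).comp measurable_fst).prodMk measurable_snd)).aemeasurable

theorem exists_apx_one (γ : ℝ) : ∃ C : ℝ, ∀ (k : ℕ) (A : Set ℂ),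
    ENNReal.ofReal (exp (-C)) * volume A ≤ ∫⁻ ω, apx γ k A (L.H 0 ω) ∂L.P ∧
    ∫⁻ ω, apx γ k A (L.H 0 ω) ∂L.P ≤ ENNReal.ofReal (exp C) * volume A := by
  obtain ⟨C, hC⟩ := exists_den_one L γ
  refine ⟨C, fun k A => ?_⟩
  rw [lintegral_apx, ← setLIntegral_const, ← setLIntegral_const]
  exact ⟨lintegral_mono fun z => (hC k z).1, lintegral_mono fun z => (hC k z).2⟩

theorem apx_rpow_lt_top (γ : ℝ) {p : ℝ} (h0 : 0 < p) (h2 : p ≤ 2) (k : ℕ) :
    ∫⁻ ω, apx γ k (box 0 0) (L.H 0 ω) ^ p ∂L.P < ∞ := by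
  obtain ⟨C, hC⟩ := L.var_H
  have hcs : ∀ H : Field, apx γ k (box 0 0) H * apx γ k (box 0 0) H ≤
      4 * ∫⁻ z in box 0 0, ENNReal.ofReal (den γ H k z) ^ (2 : ℝ) := by
    intro H
    have h := ENNReal.lintegral_mul_le_Lp_mul_Lq (volume.restrict (box 0 0))
      Real.HolderConjugate.two_two (f := fun z => ENNReal.ofReal (den γ H k z)) (g := fun _ => 1)
      (den_cont γ H k).measurable.ennreal_ofReal.aemeasurable aemeasurable_const
    simp only [Pi.mul_apply, mul_one, ENNReal.one_rpow, lintegral_const, Measure.restrict_apply_univ,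
      one_mul] at h
    refine (mul_le_mul' h h).trans ?_
    rw [mul_mul_mul_comm, ← ENNReal.rpow_add_of_nonneg _ _ (by norm_num) (by norm_num),
      ← ENNReal.rpow_add_of_nonneg _ _ (by norm_num) (by norm_num), mul_comm]
    norm_num
    gcongr
    exact volume_box_zero
  have hpt : ∀ H : Field, apx γ k (box 0 0) H ^ p ≤
      1 + 4 * ∫⁻ z in box 0 0, ENNReal.ofReal (den γ H k z) ^ (2 : ℝ) := by
    intro H
    have e : apx γ k (box 0 0) H ^ p = (apx γ k (box 0 0) H * apx γ k (box 0 0) H) ^ (p / 2) := by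
      rw [← sq, ← ENNReal.rpow_natCast, ← ENNReal.rpow_mul]
      congr 1; push_cast; ring
    rw [e]
    exact (rpow_le_one_add _ (by positivity) (by linarith)).trans (add_le_add le_rfl (hcs H))
  refine (lintegral_mono fun ω => hpt _).trans_lt ?_
  rw [lintegral_add_left measurable_const, lintegral_const_mul' _ _ (by norm_num),
    lintegral_lintegral_swap (((measurable_den γ k).comp
      (((L.meas_H 0).comp measurable_fst).prodMk measurable_snd)).pow_const _).aemeasurable]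
  refine ENNReal.add_lt_top.2 ⟨by simp, ENNReal.mul_lt_top (by norm_num) ?_⟩
  have hb : ∀ z, ∫⁻ ω, ENNReal.ofReal (den γ (L.H 0 ω) k z) ^ (2 : ℝ) ∂L.P ≤
      ENNReal.ofReal (exp ((k * log 2 + C) * (2 * γ) ^ 2 / 2 - 2 * (γ ^ 2 / 2 * (k * log 2)))) := by
    intro z
    rw [lintegral_den_rpow L γ zero_le_two]
    have hv := abs_le.1 (hC (k * log 2) (by have := log_nonneg one_le_two; positivity) z)
    refine ENNReal.ofReal_le_ofReal (exp_le_exp.2 ?_)
    nlinarith [hv.2, sq_nonneg (2 * γ)]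
  refine (lintegral_mono hb).trans_lt ?_
  rw [setLIntegral_const]
  exact ENNReal.mul_lt_top ENNReal.ofReal_lt_top (volume_box_zero.trans_lt (by norm_num))

end Pool.Agent.Lib.MP_0d9445_pr.Mu
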