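import Pool.Agent.Lib.MP_0d9445_pr.Mu.Moment

/-! The `p`-th moment of the approximate mass of the unit box is bounded (module MU). -/

open MeasureTheory ProbabilityTheory Filter Topology Set Real
open scoped ENNReal NNReal

namespace Pool.Agent.Lib.MP_0d9445_pr.Mu

open CR

variable (L : Layers)

theorem ae_apx_le {γ : ℝ} (hγ : 0 ≤ γ) (k d : ℕ) (v : ℤ × ℤ) :
    ∀ᵐ ω ∂L.P, apx γ (k + d) (box d v) (L.H 0 ω) ≤
      ENNReal.ofReal (exp (γ * UU L 1 3 d (ctr d v) ω)) * apx γ (k + d) (box d v) (L.H d ω) := by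
  filter_upwards [ae_H_zero L d, ae_lowSum_le L (σ := 1) (by norm_num) 3 d (ctr d v)] with ω h1 h2
  rw [h1]
  refine apx_addFn_le hγ _ (measurableSet_box d v) _ _ fun z hz w hw => ?_
  have := h2 w (by
    rw [mem_ball_iff_norm]
    rw [mem_closedBall_iff_norm] at hw
    have a1 := norm_sub_ctr hz
    have a2 : sc (k + d) ≤ sc d := sc_anti (Nat.le_add_left _ _)
    have a3 := norm_add_le (w - z) (z - ctr d v)
    rw [sub_add_sub_cancel] at a3
    linarith [sc_pos d])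
  rwa [one_mul] at this

theorem lintegral_apx_box (γ : ℝ) (k d : ℕ) (v : ℤ × ℤ) {F : ℝ≥0∞ → ℝ≥0∞} (hF : Measurable F) :
    ∫⁻ ω, F (apx γ (k + d) (box d v) (L.H d ω)) ∂L.P =
      ∫⁻ ω, F (ENNReal.ofReal (exp (-((2 + γ ^ 2 / 2) * (d * log 2)))) *
        apx γ k (box 0 0) (L.H 0 ω)) ∂L.P := by
  simp only [box_eq_image d v, apx_affine γ k d (norm_dy d 0) (cor d v) (measurableSet_box 0 0)]
  exact lintegral_H L d 0 (cor d v) (F := fun H => F (ENNReal.ofReal
    (exp (-((2 + γ ^ 2 / 2) * (d * log 2)))) * apx γ k (box 0 0) H))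
    (hF.comp ((measurable_apx γ k _).const_mul _))

theorem exists_near {γ p : ℝ} (hγ : 0 ≤ γ) (hp : 0 ≤ p) : ∃ K : ℝ, ∀ (k d : ℕ) (v : ℤ × ℤ),
    ∫⁻ ω, apx γ (k + d) (box d v) (L.H 0 ω) ^ p ∂L.P ≤
      ENNReal.ofReal (exp (K - (p * (2 + γ ^ 2 / 2) - (p * γ) ^ 2 / 2) * (d * log 2))) *
        ∫⁻ ω, apx γ k (box 0 0) (L.H 0 ω) ^ p ∂L.P := by
  obtain ⟨K, hK⟩ := exists_UU L (σ := 1) (s := p * γ) (ρ := 3) (by norm_num) (by positivity)
    (by norm_num)
  refine ⟨K, fun k d v => ?_⟩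
  calc ∫⁻ ω, apx γ (k + d) (box d v) (L.H 0 ω) ^ p ∂L.P
      ≤ ∫⁻ ω, ENNReal.ofReal (exp (p * γ * UF 1 3 d (ctr d v) fun j => L.eta j ω)) *
          apx γ (k + d) (box d v) (L.H d ω) ^ p ∂L.P := by
        refine lintegral_mono_ae ?_
        filter_upwards [ae_apx_le L hγ k d v] with ω h
        refine (ENNReal.rpow_le_rpow h hp).trans_eq ?_
        rw [ENNReal.mul_rpow_of_nonneg _ _ hp, ofReal_exp_rpow _ hp, ← mul_assoc]
        rfl
    _ = (∫⁻ ω, ENNReal.ofReal (exp (p * γ * UU L 1 3 d (ctr d v) ω)) ∂L.P) *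
          ∫⁻ ω, apx γ (k + d) (box d v) (L.H d ω) ^ p ∂L.P :=
        lintegral_low_mul L d (F := fun x => ENNReal.ofReal (exp (p * γ * UF 1 3 d (ctr d v) x)))
          ((measurable_UF _ _ _ _).const_mul _).exp.ennreal_ofReal
          (G := fun H => apx γ (k + d) (box d v) H ^ p) ((measurable_apx _ _ _).pow_const _)
    _ ≤ _ := by
        rw [lintegral_apx_box L γ k d v (F := fun x => x ^ p) (measurable_id.pow_const _)]
        simp only [ENNReal.mul_rpow_of_nonneg _ _ hp, ofReal_exp_rpow _ hp]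
        rw [lintegral_const_mul' _ _ ENNReal.ofReal_ne_top, ← mul_assoc]
        gcongr
        refine (mul_le_mul_left (hK d _) _).trans_eq ?_
        rw [← ENNReal.ofReal_mul (exp_pos _).le, ← exp_add]
        congr 2; ring

theorem closedBall_subset_csq {k d : ℕ} {v : ℤ × ℤ} {z : ℂ} (hz : z ∈ box d v) :
    Metric.closedBall z (sc (k + d)) ⊆ csq (ctr d v) (3 / 2 * sc d) := by
  intro w hw
  rw [mem_closedBall_iff_norm] at hw
  have a2 : sc (k + d) ≤ sc d := sc_anti (Nat.le_add_left _ _)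
  have b1 := abs_le.1 ((Complex.abs_re_le_norm (w - z)).trans (hw.trans a2))
  have b2 := abs_le.1 ((Complex.abs_im_le_norm (w - z)).trans (hw.trans a2))
  rw [Complex.sub_re] at b1
  rw [Complex.sub_im] at b2
  have c1 := abs_le.1 (abs_sub_ctr hz).1
  have c2 := abs_le.1 (abs_sub_ctr hz).2
  constructor <;> rw [abs_le] <;> constructor <;> linarith [b1.1, b1.2, b2.1, b2.2, c1.1, c1.2,
    c2.1, c2.2]

theorem far_of_not_mem_nbh {d : ℕ} {v w : ℤ × ℤ} (h : w ∉ nbh 3 v) {x y : ℂ}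
    (hx : x ∈ csq (ctr d v) (3 / 2 * sc d)) (hy : y ∈ csq (ctr d w) (3 / 2 * sc d)) :
    sc d ≤ ‖x - y‖ := by
  have hs := sc_pos d
  have b1 := Complex.abs_re_le_norm (x - y)
  have b2 := Complex.abs_im_le_norm (x - y)
  rw [Complex.sub_re] at b1
  rw [Complex.sub_im] at b2
  have b1 := abs_le.1 b1
  have b2 := abs_le.1 b2
  have c1 := abs_le.1 hx.1
  have c2 := abs_le.1 hx.2
  have c3 := abs_le.1 hy.1
  have c4 := abs_le.1 hy.2
  simp only [ctr] at c1 c2 c3 c4
  simp only [nbh, Finset.mem_product, Finset.mem_Icc, Nat.cast_ofNat] at h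
  have : w.1 + 4 ≤ v.1 ∨ v.1 + 4 ≤ w.1 ∨ w.2 + 4 ≤ v.2 ∨ v.2 + 4 ≤ w.2 := by omega
  rcases this with h | h | h | h
  all_goals
    have h' := (Int.cast_le (R := ℝ)).2 h
    push_cast at h'
    nlinarith [b1.1, b1.2, b2.1, b2.2, c1.1, c1.2, c2.1, c2.2, c3.1, c3.2, c4.1, c4.2,
      mul_le_mul_of_nonneg_left h' hs.le]

theorem indep_two (d : ℤ) {A B : Set ℂ} (h : ∀ x ∈ A, ∀ y ∈ B, (2 : ℝ) ^ (-d) / 2 ≤ ‖x - y‖) :
    Indep (sigmaOn (L.H d) A) (sigmaOn (L.H d) B) L.P := by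
  have := L.range d Bool (fun b => if b then A else B) (by
    intro i j hij x hx y hy
    cases i <;> cases j <;> simp at hij hx hy
    · rw [norm_sub_rev]; exact h y hy x hx
    · exact h x hx y hy)
  exact this.indep (i := true) (j := false) (by simp)

theorem lintegral_local_mul (d : ℤ) {A B : Set ℂ}
    (h : ∀ x ∈ A, ∀ y ∈ B, (2 : ℝ) ^ (-d) / 2 ≤ ‖x - y‖) {F G : Field → ℝ≥0∞}
    (hF : Measurable[sigmaOn (id : Field → Field) A] F)
    (hG : Measurable[sigmaOn (id : Field → Field) B] G) :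
    ∫⁻ ω, F (L.H d ω) * G (L.H d ω) ∂L.P =
      (∫⁻ ω, F (L.H d ω) ∂L.P) * ∫⁻ ω, G (L.H d ω) ∂L.P :=
  lintegral_mul_eq_lintegral_mul_lintegral_of_independent_measurableSpace
    (sigmaOn_le (L.meas_H d) A) (sigmaOn_le (L.meas_H d) B) (indep_two L d h)
    (hF.comp (measurable_sigmaOn _ A)) (hG.comp (measurable_sigmaOn _ B))

theorem exists_far {γ : ℝ} (hγ : 0 ≤ γ) (d : ℕ) : ∃ C : ℝ≥0∞, C < ∞ ∧ ∀ (k : ℕ) (v w : ℤ × ℤ),
    w ∉ nbh 3 v → ∫⁻ ω, apx γ (k + d) (box d v) (L.H 0 ω) *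
      apx γ (k + d) (box d w) (L.H 0 ω) ∂L.P ≤ C := by
  obtain ⟨K, hK⟩ := exists_UU L (σ := 1) (s := 2 * γ) (ρ := 3) (by norm_num) (by positivity)
    (by norm_num)
  obtain ⟨C, hC⟩ := exists_apx_one L γ
  set E := ENNReal.ofReal (exp (d * log 2 * (2 * γ) ^ 2 / 2 + K)) with hE
  set c := ENNReal.ofReal (exp (-((2 + γ ^ 2 / 2) * (d * log 2)))) *
    (ENNReal.ofReal (exp C) * 4) with hc
  have hct : c < ∞ := ENNReal.mul_lt_top ENNReal.ofReal_lt_top
    (ENNReal.mul_lt_top ENNReal.ofReal_lt_top (by norm_num))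
  refine ⟨(E + E) * (c * c), ENNReal.mul_lt_top (ENNReal.add_lt_top.2
    ⟨ENNReal.ofReal_lt_top, ENNReal.ofReal_lt_top⟩) (ENNReal.mul_lt_top hct hct),
    fun k v w hvw => ?_⟩
  have hb : ∀ v, ∫⁻ ω, apx γ (k + d) (box d v) (L.H d ω) ∂L.P ≤ c := by
    intro v
    rw [lintegral_apx_box L γ k d v (F := fun x => x) measurable_id,
      lintegral_const_mul' _ _ ENNReal.ofReal_ne_top, hc]
    gcongr
    refine (hC k _).2.trans ?_
    gcongr
    exact volume_box_zero
  have mW : ∀ v, Measurable fun x => ENNReal.ofReal (exp (2 * γ * UF 1 3 d (ctr d v) x)) :=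
    fun v => ((measurable_UF _ _ _ _).const_mul _).exp.ennreal_ofReal
  calc _ ≤ ∫⁻ ω, (ENNReal.ofReal (exp (2 * γ * UF 1 3 d (ctr d v) fun j => L.eta j ω)) +
          ENNReal.ofReal (exp (2 * γ * UF 1 3 d (ctr d w) fun j => L.eta j ω))) *
          (apx γ (k + d) (box d v) (L.H d ω) * apx γ (k + d) (box d w) (L.H d ω)) ∂L.P := by
        refine lintegral_mono_ae ?_
        filter_upwards [ae_apx_le L hγ k d v, ae_apx_le L hγ k d w] with ω h1 h2
        refine (mul_le_mul' h1 h2).trans ?_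
        rw [mul_mul_mul_comm]
        gcongr
        have := mul_rpow_half_le (ENNReal.ofReal (exp (γ * UU L 1 3 d (ctr d v) ω)))
          (ENNReal.ofReal (exp (γ * UU L 1 3 d (ctr d w) ω))) two_pos
        rw [div_self two_ne_zero, ENNReal.rpow_one, ofReal_exp_rpow _ zero_le_two,
          ofReal_exp_rpow _ zero_le_two, ← mul_assoc, ← mul_assoc] at this
        exact this
    _ = (∫⁻ ω, (ENNReal.ofReal (exp (2 * γ * UF 1 3 d (ctr d v) fun j => L.eta j ω)) +
          ENNReal.ofReal (exp (2 * γ * UF 1 3 d (ctr d w) fun j => L.eta j ω))) ∂L.P) *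
          ∫⁻ ω, apx γ (k + d) (box d v) (L.H d ω) * apx γ (k + d) (box d w) (L.H d ω) ∂L.P :=
        lintegral_low_mul L d ((mW v).add (mW w))
          ((measurable_apx _ _ _).mul (measurable_apx _ _ _))
    _ ≤ _ := by
        have mW' : Measurable fun ω =>
            ENNReal.ofReal (exp (2 * γ * UF 1 3 d (ctr d v) fun j => L.eta j ω)) :=
          (mW v).comp (measurable_low L d)
        rw [lintegral_add_left mW',
          lintegral_local_mul L d (A := csq (ctr d v) (3 / 2 * sc d))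
            (B := csq (ctr d w) (3 / 2 * sc d))
            (fun x hx y hy => by
              have := far_of_not_mem_nbh hvw hx hy
              rw [← sc_eq]; linarith [sc_pos d])
            (measurable_apx_local γ _ (measurableSet_box d v) fun z hz => closedBall_subset_csq hz)
            (measurable_apx_local γ _ (measurableSet_box d w) fun z hz => closedBall_subset_csq hz)]
        exact mul_le_mul' (add_le_add (hK d _) (hK d _)) (mul_le_mul' (hb v) (hb w))

theorem exists_step {γ p : ℝ} (hγ : 0 ≤ γ) (h0 : 0 < p) (h2 : p ≤ 2)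
    (hz : 2 < p * (2 + γ ^ 2 / 2) - (p * γ) ^ 2 / 2) :
    ∃ (d : ℕ) (C : ℝ≥0∞), 0 < d ∧ C < ∞ ∧ ∀ k, ∫⁻ ω, apx γ (k + d) (box 0 0) (L.H 0 ω) ^ p ∂L.P ≤
      2⁻¹ * ∫⁻ ω, apx γ k (box 0 0) (L.H 0 ω) ^ p ∂L.P + C := by
  obtain ⟨K, hK⟩ := exists_near L hγ h0.le
  set ζ := p * (2 + γ ^ 2 / 2) - (p * γ) ^ 2 / 2 with hζ
  have hl : 0 < log 2 := log_pos one_lt_two
  obtain ⟨d, hd⟩ := exists_nat_gt (max 0 ((K + log 196) / ((ζ - 2) * log 2)))
  have hd0 : 0 < d := by exact_mod_cast (le_max_left _ _).trans_lt hd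
  have hd1 : K + log 196 < d * ((ζ - 2) * log 2) :=
    (div_lt_iff₀ (mul_pos (by linarith) hl)).1 ((le_max_right _ _).trans_lt hd)
  have hnum : (4 : ℝ) ^ d * (49 * (2 * exp (K - ζ * (d * log 2)))) ≤ 2⁻¹ := by
    have e1 : (4 : ℝ) ^ d = exp (2 * (d * log 2)) := by
      rw [show 2 * (d * log 2) = ((2 * d : ℕ) : ℝ) * log 2 by push_cast; ring, exp_nat_mul,
        exp_log two_pos, pow_mul]; norm_num
    have e2 : exp (2 * (d * log 2)) * exp (K - ζ * (d * log 2)) ≤ exp (-log 196) := by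
      rw [← exp_add]; exact exp_le_exp.2 (by linarith)
    rw [exp_neg, exp_log (by norm_num)] at e2
    rw [e1]; linarith
  obtain ⟨C, hC, hfar⟩ := exists_far L hγ d
  refine ⟨d, 4 ^ d * (4 ^ d * (1 + C)), hd0, by finiteness, fun k => ?_⟩
  set m := ∫⁻ ω, apx γ k (box 0 0) (L.H 0 ω) ^ p ∂L.P with hm
  set M := ENNReal.ofReal (exp (K - ζ * (d * log 2))) * m with hM
  let a : ℤ × ℤ → L.Ω → ℝ≥0∞ := fun v ω => apx γ (k + d) (box d v) (L.H 0 ω)
  have ma : ∀ v, Measurable (a v) := fun v => (measurable_apx _ _ _).comp (L.meas_H 0)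
  have hpair : ∀ v w, ∫⁻ ω, (a v ω * a w ω) ^ (p / 2) ∂L.P ≤
      (if w ∈ nbh 3 v then M + M else 0) + (1 + C) := by
    intro v w
    split_ifs with h
    · refine le_add_right ((lintegral_mono fun ω => mul_rpow_half_le _ _ h0).trans ?_)
      rw [lintegral_add_left ((ma v).pow_const _)]
      exact add_le_add (hK k d v) (hK k d w)
    · rw [zero_add]
      refine (lintegral_mono fun ω => rpow_le_one_add _ (by positivity) (by linarith)).trans ?_
      rw [lintegral_add_left measurable_const, lintegral_const, measure_univ, mul_one]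
      exact add_le_add le_rfl (hfar k v w h)
  calc ∫⁻ ω, apx γ (k + d) (box 0 0) (L.H 0 ω) ^ p ∂L.P
      ≤ ∫⁻ ω, ∑ v ∈ kids d 0, ∑ w ∈ kids d 0, (a v ω * a w ω) ^ (p / 2) ∂L.P := by
        refine lintegral_mono fun ω => ?_
        refine le_trans (ENNReal.rpow_le_rpow ((apx_mono γ _ (box_zero_subset d) _).trans
          (apx_biUnion_le γ _ _ _ _)) h0.le) ?_
        exact sum_rpow_le_pairs _ (fun v => a v ω) h0 h2
    _ = ∑ v ∈ kids d 0, ∑ w ∈ kids d 0, ∫⁻ ω, (a v ω * a w ω) ^ (p / 2) ∂L.P := by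
        have mp : ∀ v w, Measurable fun ω => (a v ω * a w ω) ^ (p / 2) :=
          fun v w => ((ma v).mul (ma w)).pow_const _
        rw [lintegral_finsetSum _ fun v _ => Finset.measurable_sum _ fun w _ => mp v w]
        exact Finset.sum_congr rfl fun v _ => lintegral_finsetSum _ fun w _ => mp v w
    _ ≤ ∑ v ∈ kids d 0, (49 * (M + M) + 4 ^ d * (1 + C)) := by
        refine Finset.sum_le_sum fun v _ => (Finset.sum_le_sum fun w _ => hpair v w).trans ?_
        rw [Finset.sum_add_distrib, Finset.sum_const, card_kids, nsmul_eq_mul, ← Finset.sum_filter,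
          Finset.sum_const, nsmul_eq_mul]
        push_cast
        gcongr
        have : ((kids d 0).filter (· ∈ nbh 3 v)).card ≤ 49 :=
          (Finset.card_le_card fun w hw => (Finset.mem_filter.1 hw).2).trans_eq (card_nbh 3 v)
        exact_mod_cast this
    _ ≤ _ := by
        rw [Finset.sum_const, card_kids, nsmul_eq_mul, mul_add]
        push_cast
        refine add_le_add ?_ le_rfl
        rw [hM, ← two_mul, ← mul_assoc, ← mul_assoc, ← mul_assoc]
        refine mul_le_mul' ?_ le_rfl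
        have := ENNReal.ofReal_le_ofReal hnum
        rw [ENNReal.ofReal_mul (by positivity), ENNReal.ofReal_mul (by positivity),
          ENNReal.ofReal_mul (by positivity), ENNReal.ofReal_pow (by norm_num),
          ENNReal.ofReal_inv_of_pos two_pos] at this
        simpa only [ENNReal.ofReal_ofNat, mul_assoc] using this

/-- The `p`-th moments of the approximate masses of the unit box are bounded. -/
theorem exists_apx_rpow {γ p : ℝ} (hγ : 0 ≤ γ) (h0 : 0 < p) (h2 : p ≤ 2)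
    (hz : 2 < p * (2 + γ ^ 2 / 2) - (p * γ) ^ 2 / 2) :
    ∃ B : ℝ≥0∞, B < ∞ ∧ ∀ k, ∫⁻ ω, apx γ k (box 0 0) (L.H 0 ω) ^ p ∂L.P ≤ B := by
  obtain ⟨d, C, hd, hC, h⟩ := exists_step L hγ h0 h2 hz
  set m : ℕ → ℝ≥0∞ := fun k => ∫⁻ ω, apx γ k (box 0 0) (L.H 0 ω) ^ p ∂L.P with hm
  set S := ∑ k ∈ Finset.range d, m k with hS
  have hS' : S < ∞ := ENNReal.sum_lt_top.2 fun k _ => apx_rpow_lt_top L γ h0 h2 k
  refine ⟨S + 2 * C, by finiteness, fun k => ?_⟩
  induction k using Nat.strong_induction_on with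
  | _ k ih =>
    by_cases hk : k < d
    · exact le_add_right (Finset.single_le_sum (f := m) (fun _ _ => zero_le)
        (Finset.mem_range.2 hk))
    · obtain ⟨j, rfl⟩ := Nat.exists_eq_add_of_le' (not_lt.1 hk)
      refine (h j).trans ?_
      have := ih j (by omega)
      calc 2⁻¹ * m j + C ≤ 2⁻¹ * (S + 2 * C) + C := by gcongr
        _ = 2⁻¹ * S + 2 * C := by
          rw [mul_add, ← mul_assoc, ENNReal.inv_mul_cancel two_ne_zero ENNReal.ofNat_ne_top, one_mul,
            add_assoc, two_mul]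
        _ ≤ S + 2 * C := by
          gcongr
          exact mul_le_of_le_one_left' (ENNReal.inv_le_one.2 one_le_two)

end Pool.Agent.Lib.MP_0d9445_pr.Mu
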