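import Pool.Agent.Lib.MP_0d9445_pr.Mu.Canon

/-! Regularity of a measure: a measurable, Weyl-stable property and its consequences
(module MU, deterministic). -/

open MeasureTheory ProbabilityTheory Filter Topology Set Real
open scoped ENNReal NNReal

namespace Pool.Agent.Lib.MP_0d9445_pr.Mu

open CR

/-- locally finite, positive on dyadic discs, Frostman of exponent `α`, and of at most polynomially
small mass along a sequence of scales at almost every point -/
structure Reg (α : ℝ) (m : Measure ℂ) : Prop where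
  fin : ∀ R : ℕ, m (Metric.ball 0 R) < ∞
  pos : ∀ n v, m (Metric.ball (ctr n v) (sc n)) ≠ 0
  up : ∀ R : ℕ, ∃ C : ℕ, ∀ n v, ‖ctr n v‖ ≤ R →
    m (Metric.ball (ctr n v) (2 * sc n)) ≤ ENNReal.ofReal (C * sc n ^ α)
  low : ∃ β : ℕ, ∀ᵐ y : ℂ, ∃ᶠ k in atTop,
    ENNReal.ofReal (sc k ^ β) ≤ m (Metric.ball (ctr k (idx k y)) (sc k))

theorem measurable_idx (k : ℕ) : Measurable (idx k) := by
  unfold idx
  exact (Int.measurable_floor.comp (Complex.measurable_re.div_const _)).prodMk
    (Int.measurable_floor.comp (Complex.measurable_im.div_const _))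

theorem measurableSet_low (β : ℕ) : MeasurableSet {p : Measure ℂ × ℂ | ∃ᶠ k in atTop,
    ENNReal.ofReal (sc k ^ β) ≤ p.1 (Metric.ball (ctr k (idx k p.2)) (sc k))} := by
  have hk : ∀ k, Measurable fun p : Measure ℂ × ℂ =>
      p.1 (Metric.ball (ctr k (idx k p.2)) (sc k)) := by
    intro k
    have h1 : Measurable fun q : Measure ℂ × (ℤ × ℤ) => q.1 (Metric.ball (ctr k q.2) (sc k)) :=
      measurable_from_prod_countable_left fun v =>
        (show Measurable fun x : Measure ℂ => x (Metric.ball (ctr k v) (sc k)) from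
          Measure.measurable_coe measurableSet_ball)
    exact h1.comp (measurable_fst.prodMk ((measurable_idx k).comp measurable_snd))
  simp only [frequently_atTop, ofPred_forall, ofPred_exists, ofPred_and]
  refine MeasurableSet.iInter fun a => MeasurableSet.iUnion fun b => ?_
  exact (MeasurableSet.const _).inter (measurableSet_le measurable_const (hk b))

theorem measurableSet_ae_low (β : ℕ) : MeasurableSet {m : Measure ℂ | ∀ᵐ y : ℂ, ∃ᶠ k in atTop,
    ENNReal.ofReal (sc k ^ β) ≤ m (Metric.ball (ctr k (idx k y)) (sc k))} :=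
  measurable_measure_prodMk_left (ν := (volume : Measure ℂ)) (measurableSet_low β).compl
    (measurableSet_singleton 0)

theorem measurableSet_reg (α : ℝ) : MeasurableSet {m | Reg α m} := by
  have : {m | Reg α m} = (⋂ R : ℕ, {m : Measure ℂ | m (Metric.ball 0 R) < ∞}) ∩
      ((⋂ n, ⋂ v, {m : Measure ℂ | m (Metric.ball (ctr n v) (sc n)) = 0}ᶜ) ∩
      ((⋂ R : ℕ, ⋃ C : ℕ, ⋂ n, ⋂ v, ⋂ (_ : ‖ctr n v‖ ≤ R), {m : Measure ℂ |
        m (Metric.ball (ctr n v) (2 * sc n)) ≤ ENNReal.ofReal (C * sc n ^ α)}) ∩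
      ⋃ β : ℕ, {m : Measure ℂ | ∀ᵐ y : ℂ, ∃ᶠ k in atTop,
        ENNReal.ofReal (sc k ^ β) ≤ m (Metric.ball (ctr k (idx k y)) (sc k))})) := by
    ext m
    simp only [mem_inter_iff, mem_iInter, mem_iUnion, mem_ofPred_eq, mem_compl_iff]
    exact ⟨fun h => ⟨h.fin, h.pos, h.up, h.low⟩, fun h => ⟨h.1, h.2.1, h.2.2.1, h.2.2.2⟩⟩
  rw [this]
  refine (MeasurableSet.iInter fun R => measurableSet_lt
    (Measure.measurable_coe measurableSet_ball) measurable_const).inter
    ((MeasurableSet.iInter fun n => MeasurableSet.iInter fun v => MeasurableSet.compl ?_).inter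
    ((MeasurableSet.iInter fun R => MeasurableSet.iUnion fun C => MeasurableSet.iInter fun n =>
      MeasurableSet.iInter fun v => MeasurableSet.iInter fun _ => measurableSet_le
        (Measure.measurable_coe measurableSet_ball) measurable_const).inter
      (MeasurableSet.iUnion measurableSet_ae_low)))
  exact Measure.measurable_coe measurableSet_ball (measurableSet_singleton 0)

theorem tendsto_sc : Tendsto sc atTop (𝓝 0) :=
  tendsto_pow_atTop_nhds_zero_of_lt_one (by norm_num) (by norm_num)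

theorem sc_le_one (n : ℕ) : sc n ≤ 1 := pow_le_one₀ (by norm_num) (by norm_num)

theorem sc_succ (n : ℕ) : sc n = 2 * sc (n + 1) := by
  simp only [sc, pow_succ]; ring

theorem norm_sub_ctr_idx (n : ℕ) (z : ℂ) : ‖z - ctr n (idx n z)‖ ≤ sc n :=
  norm_sub_ctr (mem_box_idx n z)

theorem ball_ctr_subset (n : ℕ) (z : ℂ) :
    Metric.ball (ctr n (idx n z)) (sc n) ⊆ Metric.ball z (2 * sc n) := by
  refine Metric.ball_subset ?_
  rw [dist_comm, dist_eq_norm]
  linarith [norm_sub_ctr_idx n z]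

theorem withDensity_le {m : Measure ℂ} {f : ℂ → ℝ} {A : Set ℂ} (hA : MeasurableSet A) {M : ℝ}
    (h : ∀ z ∈ A, f z ≤ M) :
    (m.withDensity fun z => ENNReal.ofReal (exp (f z))) A ≤ ENNReal.ofReal (exp M) * m A := by
  rw [withDensity_apply _ hA, ← setLIntegral_const]
  exact setLIntegral_mono' hA fun z hz => ENNReal.ofReal_le_ofReal (exp_le_exp.2 (h z hz))

theorem le_withDensity {m : Measure ℂ} {f : ℂ → ℝ} {A : Set ℂ} (hA : MeasurableSet A) {M : ℝ}
    (h : ∀ z ∈ A, M ≤ f z) :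
    ENNReal.ofReal (exp M) * m A ≤ (m.withDensity fun z => ENNReal.ofReal (exp (f z))) A := by
  rw [withDensity_apply _ hA, ← setLIntegral_const]
  exact setLIntegral_mono' hA fun z hz => ENNReal.ofReal_le_ofReal (exp_le_exp.2 (h z hz))

theorem exists_bound_ball {f : ℂ → ℝ} (hf : Continuous f) (y : ℂ) (r : ℝ) :
    ∃ M : ℝ, ∀ z ∈ Metric.ball y r, |f z| ≤ M := by
  obtain ⟨M, hM⟩ := (isCompact_closedBall y r).exists_bound_of_continuousOn hf.continuousOn
  exact ⟨M, fun z hz => hM z (Metric.ball_subset_closedBall hz)⟩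

variable {α : ℝ} {m : Measure ℂ}

namespace Reg

theorem locFin (h : Reg α m) : IsLocallyFiniteMeasure m := (locFin_iff m).2 h.fin

theorem openPos (h : Reg α m) : m.IsOpenPosMeasure := ⟨fun U hU ⟨z, hz⟩ h0 => by
  obtain ⟨ε, hε, hb⟩ := Metric.isOpen_iff.1 hU z hz
  obtain ⟨n, hn⟩ := (tendsto_sc.eventually (gt_mem_nhds (half_pos hε))).exists
  exact h.pos n (idx n z) (measure_mono_null ((ball_ctr_subset n z).trans
    ((Metric.ball_subset_ball (by linarith)).trans hb)) h0)⟩

theorem frost (h : Reg α m) (hα : 0 ≤ α) (R : ℝ) : ∃ C : ℝ, 0 ≤ C ∧ ∀ x : ℂ, ‖x‖ ≤ R →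
    ∀ r, 0 < r → r ≤ 1 → m (Metric.ball x r) ≤ ENNReal.ofReal (C * r ^ α) := by
  obtain ⟨N, hN⟩ := exists_nat_ge (R + 1)
  obtain ⟨C, hC⟩ := h.up N
  refine ⟨C * 2 ^ α, by positivity, fun x hx r hr0 hr1 => ?_⟩
  obtain ⟨n, hn1, hn2⟩ := exists_nat_pow_near_of_lt_one hr0 hr1 (y := 2⁻¹) (by norm_num)
    (by norm_num)
  have hn1 : sc (n + 1) < r := hn1
  have hn2 : r ≤ sc n := hn2
  have a1 := norm_sub_ctr_idx n x
  have a2 : ‖ctr n (idx n x)‖ ≤ N := by
    have := norm_sub_le x (x - ctr n (idx n x))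
    rw [sub_sub_cancel] at this
    linarith [sc_le_one n]
  have a3 : Metric.ball x r ⊆ Metric.ball (ctr n (idx n x)) (2 * sc n) := by
    refine Metric.ball_subset ?_
    rw [dist_eq_norm]; linarith
  refine (measure_mono a3).trans ((hC n _ a2).trans (ENNReal.ofReal_le_ofReal ?_))
  rw [mul_assoc, ← mul_rpow zero_le_two hr0.le]
  refine mul_le_mul_of_nonneg_left (rpow_le_rpow (sc_pos n).le ?_ hα) (Nat.cast_nonneg _)
  linarith [sc_succ n]

theorem noAtoms (h : Reg α m) (hα : 0 < α) (z : ℂ) : m {z} = 0 := by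
  obtain ⟨C, -, hC⟩ := h.frost hα.le ‖z‖
  have t : Tendsto (fun n => ENNReal.ofReal (C * sc n ^ α)) atTop (𝓝 0) := by
    have := ENNReal.tendsto_ofReal ((tendsto_sc.rpow_const (Or.inr hα.le)).const_mul C)
    simpa [zero_rpow hα.ne'] using this
  refine le_antisymm (ge_of_tendsto' t fun n => ?_) zero_le
  exact (measure_mono (singleton_subset_iff.2 (Metric.mem_ball_self (sc_pos n)))).trans
    (hC z le_rfl _ (sc_pos n) (sc_le_one n))

/-- `Reg` is stable under Weyl scaling by a continuous function -/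
theorem withDensity (h : Reg α m) {f : ℂ → ℝ} (hf : Continuous f) :
    Reg α (m.withDensity fun z => ENNReal.ofReal (exp (f z))) := by
  refine ⟨fun R => ?_, fun n v => ?_, fun R => ?_, ?_⟩
  · obtain ⟨M, hM⟩ := exists_bound_ball hf 0 R
    exact (withDensity_le measurableSet_ball fun z hz => (abs_le.1 (hM z hz)).2).trans_lt
      (ENNReal.mul_lt_top ENNReal.ofReal_lt_top (h.fin R))
  · obtain ⟨M, hM⟩ := exists_bound_ball hf (ctr n v) (sc n)
    refine (lt_of_lt_of_le ?_
      (le_withDensity measurableSet_ball fun z hz => (abs_le.1 (hM z hz)).1)).ne'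
    exact ENNReal.mul_pos (ENNReal.ofReal_pos.2 (exp_pos _)).ne' (h.pos n v)
  · obtain ⟨M, hM⟩ := exists_bound_ball hf 0 (R + 2)
    obtain ⟨C, hC⟩ := h.up R
    obtain ⟨N, hN⟩ := exists_nat_ge (exp M)
    refine ⟨N * C, fun n v hv => ?_⟩
    have hs : Metric.ball (ctr n v) (2 * sc n) ⊆ Metric.ball 0 (R + 2) := by
      refine Metric.ball_subset ?_
      rw [dist_zero_right]; linarith [sc_le_one n]
    refine (withDensity_le measurableSet_ball fun z hz => (abs_le.1 (hM z (hs hz))).2).trans ?_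
    refine (mul_le_mul' (ENNReal.ofReal_le_ofReal hN) (hC n v hv)).trans_eq ?_
    rw [← ENNReal.ofReal_mul (Nat.cast_nonneg _), Nat.cast_mul, mul_assoc]
  · obtain ⟨β, hβ⟩ := h.low
    refine ⟨β + 1, hβ.mono fun y hy => ?_⟩
    obtain ⟨M, hM⟩ := exists_bound_ball hf y 2
    refine (hy.and_eventually (tendsto_sc.eventually (gt_mem_nhds (exp_pos (-M))))).mono
      fun k ⟨h1, h2⟩ => ?_
    have hs : Metric.ball (ctr k (idx k y)) (sc k) ⊆ Metric.ball y 2 :=
      (ball_ctr_subset k y).trans (Metric.ball_subset_ball (by linarith [sc_le_one k]))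
    refine le_trans ?_ (le_withDensity measurableSet_ball fun z hz => (abs_le.1 (hM z (hs hz))).1)
    rw [pow_succ', ENNReal.ofReal_mul (sc_pos k).le]
    exact mul_le_mul' (ENNReal.ofReal_le_ofReal h2.le) h1

/-- Frostman bound on a compact set for a density continuous on it (the form `Walk.Frost`) -/
theorem frost_withDensity (h : Reg α m) (hα : 0 < α) {f : ℂ → ℝ} {K : Set ℂ} (hK : IsCompact K)
    (hf : ContinuousOn f K) :
    (m.withDensity fun z => ENNReal.ofReal (exp (f z))) K < ⊤ ∧ ∃ C α r₀ : ℝ, 0 < α ∧ 0 < r₀ ∧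
      ∀ x ∈ K, ∀ r, 0 < r → r ≤ r₀ →
        (m.withDensity fun z => ENNReal.ofReal (exp (f z))) (Metric.ball x r ∩ K) ≤
          ENNReal.ofReal (C * r ^ α) := by
  have := h.locFin
  obtain ⟨M, hM⟩ := hK.exists_bound_of_continuousOn hf
  obtain ⟨R, hR⟩ := hK.isBounded.exists_norm_le
  obtain ⟨C, -, hC⟩ := h.frost hα.le R
  refine ⟨(withDensity_le hK.measurableSet fun z hz => (abs_le.1 (hM z hz)).2).trans_lt
    (ENNReal.mul_lt_top ENNReal.ofReal_lt_top hK.measure_lt_top), exp M * C, α, 1, hα, one_pos,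
    fun x hx r h0 h1 => ?_⟩
  refine (withDensity_le (measurableSet_ball.inter hK.measurableSet)
    fun z hz => (abs_le.1 (hM z hz.2)).2).trans ?_
  rw [mul_assoc, ENNReal.ofReal_mul (exp_pos _).le]
  exact mul_le_mul' le_rfl ((measure_mono inter_subset_left).trans (hC x (hR x hx) r h0 h1))

/-- lower mass at almost every point of continuity of the density (the form `Walk.LowMass`) -/
theorem low_withDensity (h : Reg α m) (f : ℂ → ℝ) : ∀ᵐ y : ℂ, ContinuousAt f y →
    ∃ c β : ℝ, 0 < c ∧ ∀ ε > 0, ∃ r, 0 < r ∧ r < ε ∧ ENNReal.ofReal (c * r ^ β) ≤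
      (m.withDensity fun z => ENNReal.ofReal (exp (f z))) (Metric.ball y r) := by
  obtain ⟨β, hβ⟩ := h.low
  refine hβ.mono fun y hy hf => ?_
  obtain ⟨δ, hδ, hδ'⟩ := Metric.continuousAt_iff.1 hf 1 one_pos
  refine ⟨exp (f y - 1) * 2⁻¹ ^ β, β, by positivity, fun ε hε => ?_⟩
  obtain ⟨k, h1, h2⟩ := (hy.and_eventually (tendsto_sc.eventually
    (gt_mem_nhds (half_pos (lt_min hε hδ))))).exists
  have a1 := min_le_left ε δ
  have a2 := min_le_right ε δ
  refine ⟨2 * sc k, by linarith [sc_pos k], by linarith, ?_⟩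
  refine le_trans ?_ (le_withDensity (M := f y - 1) measurableSet_ball fun z hz => ?_)
  · rw [mul_assoc, ENNReal.ofReal_mul (exp_pos _).le, rpow_natCast, ← mul_pow, ← mul_assoc,
      inv_mul_cancel₀ two_ne_zero, one_mul]
    exact mul_le_mul' le_rfl (h1.trans (measure_mono (ball_ctr_subset k y)))
  · have := hδ' (show dist z y < δ from (Metric.mem_ball.1 hz).trans (by linarith))
    rw [Real.dist_eq] at this
    linarith [(abs_lt.1 this).1]

theorem frost_self (h : Reg α m) (hα : 0 < α) {K : Set ℂ} (hK : IsCompact K) :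
    m K < ⊤ ∧ ∃ C α r₀ : ℝ, 0 < α ∧ 0 < r₀ ∧ ∀ x ∈ K, ∀ r, 0 < r → r ≤ r₀ →
      m (Metric.ball x r ∩ K) ≤ ENNReal.ofReal (C * r ^ α) := by
  simpa using h.frost_withDensity hα (f := fun _ => 0) hK continuousOn_const

theorem low_self (h : Reg α m) : ∀ᵐ y : ℂ, ∃ c β : ℝ, 0 < c ∧ ∀ ε > 0, ∃ r, 0 < r ∧ r < ε ∧
    ENNReal.ofReal (c * r ^ β) ≤ m (Metric.ball y r) := by
  filter_upwards [h.low_withDensity fun _ => 0] with y hy
  simpa using hy continuousAt_const

end Reg

end Pool.Agent.Lib.MP_0d9445_pr.Mu
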