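import Mathlib

/-! Vague limits of continuous densities on the plane (module MU, pathwise part 1). -/

open MeasureTheory Filter Topology Set
open scoped ENNReal NNReal

namespace Pool.Agent.Lib.MP_0d9445_pr.Mu

/-- `ν` is locally finite and is the vague limit of the measures `ρ k z dz`. -/
structure VL (ρ : ℕ → ℂ → ℝ) (ν : Measure ℂ) : Prop where
  fin : IsLocallyFiniteMeasure ν
  lim : ∀ φ : ℂ → ℝ, Continuous φ → HasCompactSupport φ →
    Tendsto (fun k => ∫ z, φ z * ρ k z) atTop (𝓝 (∫ z, φ z ∂ν))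

variable {ρ ρ' : ℕ → ℂ → ℝ} {ν ν' : Measure ℂ}

theorem VL.unique (h : VL ρ ν) (h' : VL ρ ν') : ν = ν' := by
  have := h.fin
  have := h'.fin
  refine Measure.ext_of_integral_eq_on_compactlySupported fun f => ?_
  exact tendsto_nhds_unique (h.lim f f.continuous f.hasCompactSupport)
    (h'.lim f f.continuous f.hasCompactSupport)

theorem VL.shift (h : VL ρ ν) (n : ℕ) : VL (fun k => ρ (k + n)) ν :=
  ⟨h.fin, fun φ h1 h2 => (tendsto_add_atTop_iff_nat n).2 (h.lim φ h1 h2)⟩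

theorem VL.of_shift (n : ℕ) (h : VL (fun k => ρ (k + n)) ν) : VL ρ ν :=
  ⟨h.fin, fun φ h1 h2 => (tendsto_add_atTop_iff_nat n).1 (h.lim φ h1 h2)⟩

theorem VL.congr (h : VL ρ ν) (he : ∀ᶠ k in atTop, ∀ z, ρ k z = ρ' k z) : VL ρ' ν :=
  ⟨h.fin, fun φ h1 h2 => (h.lim φ h1 h2).congr' (he.mono fun k hk => by simp only [hk])⟩

/-- A standard cut-off: `1` on `closedBall 0 R`, `0` off `ball 0 (R+1)`. -/
noncomputable def cut (R : ℝ) (z : ℂ) : ℝ := max 0 (min 1 (R + 1 - ‖z‖))

theorem cut_cont (R : ℝ) : Continuous (cut R) := by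
  unfold cut; fun_prop

theorem cut_nonneg (R : ℝ) (z : ℂ) : 0 ≤ cut R z := le_max_left _ _

theorem cut_le_one (R : ℝ) (z : ℂ) : cut R z ≤ 1 := max_le zero_le_one (min_le_left _ _)

theorem cut_eq_one {R : ℝ} {z : ℂ} (h : ‖z‖ ≤ R) : cut R z = 1 := by
  unfold cut
  rw [min_eq_left (by linarith), max_eq_right zero_le_one]

theorem cut_eq_zero {R : ℝ} {z : ℂ} (h : R + 1 ≤ ‖z‖) : cut R z = 0 := by
  unfold cut
  exact max_eq_left ((min_le_right _ _).trans (by linarith))

theorem cut_supp (R : ℝ) : HasCompactSupport (cut R) := by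
  refine HasCompactSupport.intro (isCompact_closedBall (0 : ℂ) (R + 1)) fun z hz => ?_
  rw [mem_closedBall_zero_iff, not_le] at hz
  exact cut_eq_zero hz.le

theorem exists_radius {φ : ℂ → ℝ} (h : HasCompactSupport φ) :
    ∃ R : ℕ, ∀ z, (R : ℝ) ≤ ‖z‖ → φ z = 0 := by
  obtain ⟨r, hr⟩ := h.isBounded.subset_ball (0 : ℂ)
  obtain ⟨R, hR⟩ := exists_nat_ge r
  refine ⟨R, fun z hz => ?_⟩
  by_contra hne
  have := hr (subset_tsupport φ hne)
  rw [mem_ball_zero_iff] at this
  linarith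

theorem integrable_mul {φ r : ℂ → ℝ} (h1 : Continuous φ) (h2 : HasCompactSupport φ)
    (hr : Continuous r) (m : Measure ℂ) [IsLocallyFiniteMeasure m] :
    Integrable (fun z => φ z * r z) m :=
  (h1.mul hr).integrable_of_hasCompactSupport (h2.mul_right)

/-- The basic perturbation bound. -/
theorem abs_integral_sub_le {φ ψ χ r : ℂ → ℝ} {ε : ℝ} (m : Measure ℂ)
    (hφ : Integrable (fun z => φ z * r z) m) (hψ : Integrable (fun z => ψ z * r z) m)
    (hχ : Integrable (fun z => χ z * r z) m) (hr : ∀ z, 0 ≤ r z)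
    (h : ∀ z, |φ z - ψ z| ≤ ε * χ z) :
    |∫ z, φ z * r z ∂m - ∫ z, ψ z * r z ∂m| ≤ ε * ∫ z, χ z * r z ∂m := by
  rw [← integral_sub hφ hψ, ← integral_const_mul]
  refine (abs_integral_le_integral_abs).trans (integral_mono (hφ.sub hψ).abs (hχ.const_mul ε) ?_)
  intro z
  have : φ z * r z - ψ z * r z = (φ z - ψ z) * r z := by ring
  simp only [this, abs_mul, abs_of_nonneg (hr z)]
  rw [← mul_assoc]
  exact mul_le_mul_of_nonneg_right (h z) (hr z)

/-- Weyl scaling: multiply the densities by continuous weights converging locally uniformly. -/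
theorem VL.mul (h : VL ρ ν) (hc : ∀ k, Continuous (ρ k)) (h0 : ∀ k z, 0 ≤ ρ k z)
    {w : ℕ → ℂ → ℝ} {w₀ : ℂ → ℝ} (hw : ∀ k, Continuous (w k)) (hw₀ : Continuous w₀)
    (hw0 : ∀ z, 0 ≤ w₀ z)
    (hlim : ∀ R : ℝ, TendstoUniformlyOn w w₀ atTop (Metric.closedBall 0 R)) :
    VL (fun k z => w k z * ρ k z) (ν.withDensity fun z => ENNReal.ofReal (w₀ z)) := by
  have := h.fin
  have hfin : IsLocallyFiniteMeasure (ν.withDensity fun z => ENNReal.ofReal (w₀ z)) :=
    IsLocallyFiniteMeasure.withDensity_ofReal hw₀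
  refine ⟨hfin, fun φ h1 h2 => ?_⟩
  have e1 : ∫ z, φ z ∂(ν.withDensity fun z => ENNReal.ofReal (w₀ z)) = ∫ z, φ z * w₀ z ∂ν := by
    rw [integral_withDensity_eq_integral_toReal_smul hw₀.measurable.ennreal_ofReal
      (Eventually.of_forall fun z => ENNReal.ofReal_lt_top)]
    refine integral_congr_ae (Eventually.of_forall fun z => ?_)
    simp only [ENNReal.toReal_ofReal (hw0 z), smul_eq_mul, mul_comm]
  rw [e1]
  have l1 := h.lim (fun z => φ z * w₀ z) (h1.mul hw₀) h2.mul_right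
  have l2 := h.lim (fun z => |φ z|) h1.abs h2.abs
  obtain ⟨R, hR⟩ := exists_radius h2
  set A := ∫ z, |φ z| ∂ν
  have hA : 0 ≤ A := integral_nonneg fun z => abs_nonneg _
  have l3 : Tendsto (fun k => (∫ z, φ z * (w k z * ρ k z)) - ∫ z, φ z * w₀ z * ρ k z) atTop
      (𝓝 0) := by
    rw [Metric.tendsto_nhds]
    intro ε hε
    have hδ : 0 < ε / (2 * (A + 1)) := by positivity
    have e1 := (Metric.tendstoUniformlyOn_iff.1 (hlim R)) _ hδ
    have e2 : ∀ᶠ k in atTop, ∫ z, |φ z| * ρ k z < A + 1 := l2.eventually (gt_mem_nhds (by linarith))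
    filter_upwards [e1, e2] with k hk1 hk2
    rw [Real.dist_eq, sub_zero]
    have hb := abs_integral_sub_le (φ := fun z => φ z * w k z) (ψ := fun z => φ z * w₀ z)
      (χ := fun z => |φ z|) (r := ρ k) (ε := ε / (2 * (A + 1))) volume
      (integrable_mul (h1.mul (hw k)) h2.mul_right (hc k) _)
      (integrable_mul (h1.mul hw₀) h2.mul_right (hc k) _)
      (integrable_mul h1.abs h2.abs (hc k) _) (h0 k) (fun z => by
        by_cases hz : (R : ℝ) ≤ ‖z‖
        · simp [hR z hz]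
        · have := hk1 z (by rw [mem_closedBall_zero_iff]; exact (not_le.1 hz).le)
          rw [Real.dist_eq, abs_sub_comm] at this
          rw [← mul_sub, abs_mul, mul_comm]
          exact mul_le_mul_of_nonneg_right this.le (abs_nonneg _))
    simp only [mul_assoc] at hb ⊢
    refine hb.trans_lt ?_
    calc ε / (2 * (A + 1)) * ∫ z, |φ z| * ρ k z ≤ ε / (2 * (A + 1)) * (A + 1) :=
          mul_le_mul_of_nonneg_left hk2.le hδ.le
      _ = ε / 2 := by field_simp
      _ < ε := by linarith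
  simpa using l3.add l1

/-- A fixed continuous weight. -/
theorem VL.mul_fixed (h : VL ρ ν) {w : ℂ → ℝ} (hw : Continuous w) (hw0 : ∀ z, 0 ≤ w z) :
    VL (fun k z => w z * ρ k z) (ν.withDensity fun z => ENNReal.ofReal (w z)) := by
  have := h.fin
  refine ⟨IsLocallyFiniteMeasure.withDensity_ofReal hw, fun φ h1 h2 => ?_⟩
  have e1 : ∫ z, φ z ∂(ν.withDensity fun z => ENNReal.ofReal (w z)) = ∫ z, φ z * w z ∂ν := by
    rw [integral_withDensity_eq_integral_toReal_smul hw.measurable.ennreal_ofReal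
      (Eventually.of_forall fun z => ENNReal.ofReal_lt_top)]
    refine integral_congr_ae (Eventually.of_forall fun z => ?_)
    simp only [ENNReal.toReal_ofReal (hw0 z), smul_eq_mul, mul_comm]
  rw [e1]
  simpa only [mul_assoc] using h.lim (fun z => φ z * w z) (h1.mul hw) h2.mul_right

/-- The affine map `z ↦ a z + b` as a homeomorphism. -/
noncomputable def aff (a b : ℂ) (ha : a ≠ 0) : ℂ ≃ₜ ℂ :=
  (Homeomorph.mulLeft₀ a ha).trans (Homeomorph.addRight b)

@[simp] theorem aff_apply (a b : ℂ) (ha : a ≠ 0) (z : ℂ) : aff a b ha z = a * z + b := rfl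

theorem aff_symm_apply (a b : ℂ) (ha : a ≠ 0) (w : ℂ) : (aff a b ha).symm w = (w - b) / a := by
  rw [Homeomorph.symm_apply_eq, aff_apply]; field_simp; ring

theorem map_mul_volume {a : ℂ} (ha : a ≠ 0) :
    (volume : Measure ℂ).map (fun z => a * z) = ENNReal.ofReal ((‖a‖ ^ 2)⁻¹) • volume := by
  have hdet : LinearMap.det (Algebra.lmul ℝ ℂ a) = ‖a‖ ^ 2 := by
    rw [← Algebra.norm_apply, Algebra.norm_complex_apply, Complex.normSq_eq_norm_sq]
  have hne : LinearMap.det (Algebra.lmul ℝ ℂ a) ≠ 0 := by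
    rw [hdet]; exact pow_ne_zero _ (norm_ne_zero_iff.2 ha)
  have := Measure.map_linearMap_addHaar_eq_smul_addHaar (volume : Measure ℂ) hne
  rw [hdet, abs_of_nonneg (by positivity)] at this
  exact this

theorem map_aff_volume {a : ℂ} (ha : a ≠ 0) (b : ℂ) :
    (volume : Measure ℂ).map (fun z => a * z + b) = ENNReal.ofReal ((‖a‖ ^ 2)⁻¹) • volume := by
  have : (fun z : ℂ => a * z + b) = (fun z => z + b) ∘ fun z => a * z := rfl
  rw [this, ← Measure.map_map (by fun_prop) (by fun_prop), map_mul_volume ha, Measure.map_smul,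
    map_add_right_eq_self]

theorem integral_aff {a : ℂ} (ha : a ≠ 0) (b : ℂ) (f : ℂ → ℝ) :
    ∫ z, ‖a‖ ^ 2 * f (a * z + b) = ∫ w, f w := by
  have hp : 0 < ‖a‖ ^ 2 := pow_pos (norm_pos_iff.2 ha) 2
  have := (aff a b ha).measurableEmbedding.integral_map (μ := volume) f
  have e : (volume : Measure ℂ).map (aff a b ha) = ENNReal.ofReal ((‖a‖ ^ 2)⁻¹) • volume :=
    map_aff_volume ha b
  rw [e, integral_smul_measure, ENNReal.toReal_ofReal (by positivity), smul_eq_mul] at this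
  rw [integral_const_mul]
  simp only [aff_apply] at this
  rw [← this]; field_simp

theorem lintegral_aff {a : ℂ} (ha : a ≠ 0) (b : ℂ) (f : ℂ → ℝ≥0∞) :
    ENNReal.ofReal (‖a‖ ^ 2) * ∫⁻ z, f (a * z + b) = ∫⁻ w, f w := by
  have hp : 0 < ‖a‖ ^ 2 := pow_pos (norm_pos_iff.2 ha) 2
  have := (aff a b ha).measurableEmbedding.lintegral_map (μ := volume) f
  have e : (volume : Measure ℂ).map (aff a b ha) = ENNReal.ofReal ((‖a‖ ^ 2)⁻¹) • volume :=
    map_aff_volume ha b
  rw [e, lintegral_smul_measure, smul_eq_mul] at this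
  simp only [aff_apply] at this
  rw [← this, ← mul_assoc, ← ENNReal.ofReal_mul hp.le, mul_inv_cancel₀ hp.ne', ENNReal.ofReal_one,
    one_mul]

/-- Affine change of variables: the pull-back of `ν` under `z ↦ a z + b`. -/
theorem VL.affine (h : VL ρ ν) {a : ℂ} (ha : a ≠ 0) (b : ℂ) :
    VL (fun k z => ‖a‖ ^ 2 * ρ k (a * z + b)) (ν.map fun w => (w - b) / a) := by
  have := h.fin
  have e0 : (fun w : ℂ => (w - b) / a) = (aff a b ha).symm := by
    funext w; rw [aff_symm_apply]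
  rw [e0]
  refine ⟨?_, fun φ h1 h2 => ?_⟩
  · have : IsFiniteMeasureOnCompacts (ν.map (aff a b ha).symm) :=
      Measure.IsFiniteMeasureOnCompacts.map ν (aff a b ha).symm
    infer_instance
  · rw [(aff a b ha).symm.measurableEmbedding.integral_map]
    have l := h.lim (fun w => φ ((aff a b ha).symm w)) (h1.comp (aff a b ha).symm.continuous)
      (h2.comp_homeomorph (aff a b ha).symm)
    refine l.congr fun k => ?_
    rw [← integral_aff ha b]
    refine integral_congr_ae (Eventually.of_forall fun z => ?_)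
    have : (aff a b ha).symm (a * z + b) = z := (aff a b ha).symm_apply_apply z
    simp only [this]; ring

theorem comap_aff {a : ℂ} (ha : a ≠ 0) (b : ℂ) (ν : Measure ℂ) :
    ν.comap (fun z => a * z + b) = ν.map fun w => (w - b) / a := by
  have e0 : (fun w : ℂ => (w - b) / a) = (aff a b ha).toMeasurableEquiv.symm := by
    funext w; exact (aff_symm_apply a b ha w).symm
  rw [e0, MeasurableEquiv.map_symm]
  rfl

theorem map_aff_apply {a : ℂ} (ha : a ≠ 0) (b : ℂ) (ν : Measure ℂ) (s : Set ℂ) :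
    (ν.map fun w => (w - b) / a) s = ν ((fun z => a * z + b) '' s) := by
  rw [← comap_aff ha b]
  exact (aff a b ha).measurableEmbedding.comap_apply ν s

/-! ### Open and compact sets -/

theorem ofReal_integral_mul {φ r : ℂ → ℝ} (h1 : Continuous φ) (h2 : HasCompactSupport φ)
    (hφ : ∀ z, 0 ≤ φ z) (hr : Continuous r) (hr0 : ∀ z, 0 ≤ r z) :
    ENNReal.ofReal (∫ z, φ z * r z) = ∫⁻ z, ENNReal.ofReal (φ z) * ENNReal.ofReal (r z) := by
  rw [ofReal_integral_eq_lintegral_ofReal (integrable_mul h1 h2 hr _)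
    (Eventually.of_forall fun z => mul_nonneg (hφ z) (hr0 z))]
  simp only [ENNReal.ofReal_mul (hφ _)]

/-- `ℝ≥0∞` form of the convergence, for a non-negative test function. -/
theorem VL.tendsto_lintegral (h : VL ρ ν) (hc : ∀ k, Continuous (ρ k)) (h0 : ∀ k z, 0 ≤ ρ k z)
    {φ : ℂ → ℝ} (h1 : Continuous φ) (h2 : HasCompactSupport φ) (hφ : ∀ z, 0 ≤ φ z) :
    Tendsto (fun k => ∫⁻ z, ENNReal.ofReal (φ z) * ENNReal.ofReal (ρ k z)) atTop
      (𝓝 (∫⁻ z, ENNReal.ofReal (φ z) ∂ν)) := by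
  have := h.fin
  rw [← ofReal_integral_eq_lintegral_ofReal (h1.integrable_of_hasCompactSupport h2)
    (Eventually.of_forall hφ)]
  refine (ENNReal.tendsto_ofReal (h.lim φ h1 h2)).congr fun k => ?_
  exact ofReal_integral_mul h1 h2 hφ (hc k) (h0 k)

/-- A bump between a compact set and an open set. -/
theorem exists_bump {K V : Set ℂ} (hK : IsCompact K) (hV : IsOpen V) (hKV : K ⊆ V) :
    ∃ φ : ℂ → ℝ, Continuous φ ∧ HasCompactSupport φ ∧ tsupport φ ⊆ V ∧ (∀ z ∈ K, φ z = 1) ∧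
      (∀ z, 0 ≤ φ z) ∧ ∀ z, φ z ≤ 1 := by
  obtain ⟨f, hf1, hf2, hf3, hf4⟩ := exists_continuousMap_one_of_isCompact_subset_isOpen hK hV hKV
  exact ⟨f, f.continuous, hf2, hf3, fun z hz => hf1 hz, fun z => (hf4 z).1, fun z => (hf4 z).2⟩

theorem le_lintegral_bump {K : Set ℂ} (hK : MeasurableSet K) {φ : ℂ → ℝ} (h : ∀ z ∈ K, φ z = 1)
    (m : Measure ℂ) : m K ≤ ∫⁻ z, ENNReal.ofReal (φ z) ∂m := by
  rw [← lintegral_indicator_one hK]
  refine lintegral_mono fun z => ?_
  by_cases hz : z ∈ K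
  · simp [hz, h z hz]
  · simp [hz]

theorem lintegral_bump_le {V : Set ℂ} (hV : MeasurableSet V) {φ : ℂ → ℝ} (h : tsupport φ ⊆ V)
    (h1 : ∀ z, φ z ≤ 1) (f : ℂ → ℝ≥0∞) (m : Measure ℂ) :
    ∫⁻ z, ENNReal.ofReal (φ z) * f z ∂m ≤ ∫⁻ z in V, f z ∂m := by
  rw [← lintegral_indicator hV]
  refine lintegral_mono fun z => ?_
  by_cases hz : z ∈ V
  · rw [indicator_of_mem hz]
    exact mul_le_of_le_one_left' (ENNReal.ofReal_le_one.2 (h1 z))
  · have : φ z = 0 := image_eq_zero_of_notMem_tsupport fun h' => hz (h h')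
    simp [this]

/-- Portmanteau, open sets. -/
theorem VL.le_liminf (h : VL ρ ν) (hc : ∀ k, Continuous (ρ k)) (h0 : ∀ k z, 0 ≤ ρ k z)
    {V : Set ℂ} (hV : IsOpen V) :
    ν V ≤ liminf (fun k => ∫⁻ z in V, ENNReal.ofReal (ρ k z)) atTop := by
  have := h.fin
  rw [hV.measure_eq_iSup_isCompact]
  refine iSup_le fun K => iSup_le fun hKV => iSup_le fun hK => ?_
  obtain ⟨φ, h1, h2, h3, h4, h5, h6⟩ := exists_bump hK hV hKV
  refine (le_lintegral_bump hK.measurableSet h4 ν).trans ?_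
  rw [← (h.tendsto_lintegral hc h0 h1 h2 h5).liminf_eq]
  exact liminf_le_liminf (Eventually.of_forall fun k =>
    lintegral_bump_le hV.measurableSet h3 h6 _ _)

end Pool.Agent.Lib.MP_0d9445_pr.Mu
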